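import Pool.Agent.TPER.St

set_option autoImplicit false

namespace TPER

open MeasureTheory Filter Topology

private theorem norm_E {n : ℕ} (v : Fin n → ℚ) (q : ℚ) (t : Fin n → ℝ) :
    ‖E v q t‖ = Real.exp (lin v t) := by
  unfold E
  rw [Complex.norm_exp]
  congr 1
  have h : (q : ℂ) * (Real.pi : ℂ) * Complex.I = (((q : ℝ) * Real.pi : ℝ) : ℂ) * Complex.I := by
    push_cast
    ring
  rw [h, Complex.add_re, Complex.ofReal_re, Complex.re_ofReal_mul, Complex.I_re, mul_zero,
    add_zero]

private noncomputable def linMap {n : ℕ} (v : Fin n → ℚ) : (Fin n → ℝ) →ₗ[ℝ] ℝ :=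
  ∑ i, (v i : ℝ) • LinearMap.proj i

private theorem linMap_apply {n : ℕ} (v : Fin n → ℚ) (t : Fin n → ℝ) :
    linMap v t = lin v t := by
  unfold linMap lin
  simp [LinearMap.sum_apply]

theorem thm_AE : St_AE := by
  constructor
  · intro n v q h
    by_cases hv : v = 0
    · have hq : ∀ a : ℤ, q ≠ 2 * a := by
        rcases h with h | h
        · exact absurd hv h
        · exact h
      refine Filter.Eventually.of_forall fun t ht => ?_
      have h0 : E v q t = Complex.exp ((q : ℂ) * (Real.pi : ℂ) * Complex.I) := by
        unfold E lin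
        simp [hv]
      rw [h0, Complex.exp_eq_one_iff] at ht
      obtain ⟨a, ha⟩ := ht
      apply hq a
      have hpi : (Real.pi : ℂ) * Complex.I ≠ 0 :=
        mul_ne_zero (by exact_mod_cast Real.pi_ne_zero) Complex.I_ne_zero
      have h1 : ((q : ℂ) - 2 * (a : ℂ)) * ((Real.pi : ℂ) * Complex.I) = 0 := by
        linear_combination ha
      rcases mul_eq_zero.1 h1 with h2 | h2
      · have h3 : (q : ℂ) = ((2 * (a : ℚ) : ℚ) : ℂ) := by
          push_cast
          linear_combination h2
        exact_mod_cast h3
      · exact absurd h2 hpi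
    · have hker : LinearMap.ker (linMap v) ≠ ⊤ := by
        intro hk
        apply hv
        funext i
        have h1 : linMap v (Pi.single i 1) = 0 := by
          rw [← LinearMap.mem_ker, hk]
          exact Submodule.mem_top
        rw [linMap_apply] at h1
        unfold lin at h1
        rw [Finset.sum_eq_single i] at h1
        · simpa using h1
        · intro j _ hj
          rw [Pi.single_eq_of_ne hj, mul_zero]
        · intro hi
          exact absurd (Finset.mem_univ i) hi
      have hnull : volume ((LinearMap.ker (linMap v) : Submodule ℝ (Fin n → ℝ)) :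
          Set (Fin n → ℝ)) = 0 := Measure.addHaar_submodule _ _ hker
      rw [ae_iff]
      refine measure_mono_null ?_ hnull
      intro t ht
      simp only [Set.mem_setOf_eq, not_not] at ht
      have h1 := congrArg norm ht
      rw [norm_E, norm_one, Real.exp_eq_one_iff] at h1
      rw [SetLike.mem_coe, LinearMap.mem_ker, linMap_apply, h1]
  · intro n N v q t hN
    have hNR : (N : ℝ) ≠ 0 := by
      have : N ≠ 0 := by omega
      exact_mod_cast this
    rw [ae_iff]
    refine measure_mono_null (t := {-(N : ℝ) * lin v t}) ?_ (by simp)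
    intro s hs
    simp only [Set.mem_setOf_eq, not_not] at hs
    have h1 : E v q t * Complex.exp ((s : ℂ) / (N : ℂ)) = 1 := by linear_combination -hs
    have h2 := congrArg norm h1
    have h3 : ((s : ℂ) / (N : ℂ)) = ((s / (N : ℝ) : ℝ) : ℂ) := by push_cast; ring
    rw [norm_mul, norm_E, norm_one, h3, Complex.norm_exp_ofReal, ← Real.exp_add,
      Real.exp_eq_one_iff] at h2
    rw [Set.mem_singleton_iff]
    field_simp at h2
    linarith

end TPER
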