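import Pool.Agent.TPER.St

/-!
# Toric periods, module ASY: asymptotic behaviour at both ends
-/

set_option autoImplicit false

namespace TPER

open MeasureTheory Filter Topology Asymptotics

private lemma ASY_int {f : ℝ → ℂ} {a b : ℝ} (h0 : 0 < b) (hf : ContinuousOn f (Set.Ici a))
    (ho : f =O[atTop] fun x => Real.exp (-b * x)) : IntegrableOn f (Set.Ioi a) :=
  integrableOn_Ici_iff_integrableOn_Ioi (by finiteness) |>.mp <|
    (hf.locallyIntegrableOn measurableSet_Ici).integrableOn_of_isBigO_atTop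
    ho ⟨Set.Ioi b, Ioi_mem_atTop b, exp_neg_integrableOn_Ioi b h0⟩

/-- powers times decaying functions -/
private lemma ASY_pow {f : ℝ → ℂ} {b : ℝ} (hb : 0 < b) (k : ℕ) (c : ℂ)
    (ho : f =O[atTop] fun x => Real.exp (-b * x)) :
    (fun s : ℝ => c * (s : ℂ) ^ k * f s) =O[atTop] fun x => Real.exp (-(b / 2) * x) := by
  have h1 : (fun s : ℝ => c * (s : ℂ) ^ k) =O[atTop] fun x => Real.exp (b / 2 * x) := by
    refine IsBigO.const_mul_left ?_ c
    have h2 := (isLittleO_pow_exp_pos_mul_atTop k (half_pos hb)).isBigO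
    refine (IsBigO.of_norm_left ?_)
    have h3 : (fun s : ℝ => ‖(s : ℂ) ^ k‖) = fun s : ℝ => ‖s ^ k‖ := by
      funext s
      rw [norm_pow, norm_pow, Complex.norm_real]
    rw [h3]
    exact h2.norm_left
  have h4 := h1.mul ho
  refine h4.congr_right fun s => ?_
  rw [← Real.exp_add]
  congr 1
  ring

/-- grouping -/
private lemma ASY_group {ι : Type} [Fintype ι] (A : ι → ℂ) (m : ι → ℝ) (kap : ι → ℕ)
    (h : ∀ (mu : ℝ) (k0 : ℕ),
      (∑ i ∈ Finset.univ.filter (fun i => m i = mu ∧ kap i = k0), A i) = 0) (s : ℝ) :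
    PA A m kap s = 0 := by
  classical
  unfold PA
  have h1 := Finset.sum_fiberwise_of_maps_to (s := Finset.univ)
    (t := Finset.univ.image fun i => (m i, kap i)) (g := fun i => (m i, kap i))
    (fun i _ => Finset.mem_image_of_mem _ (Finset.mem_univ i))
    (fun i => A i * (s : ℂ) ^ (kap i) * Complex.exp ((m i : ℂ) * (s : ℂ)))
  rw [← h1]
  refine Finset.sum_eq_zero fun p _ => ?_
  have h2 : ∑ i ∈ Finset.univ.filter (fun i => (m i, kap i) = p),
      A i * (s : ℂ) ^ (kap i) * Complex.exp ((m i : ℂ) * (s : ℂ)) =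
      (∑ i ∈ Finset.univ.filter (fun i => m i = p.1 ∧ kap i = p.2), A i) *
        ((s : ℂ) ^ p.2 * Complex.exp ((p.1 : ℂ) * (s : ℂ))) := by
    rw [Finset.sum_mul]
    refine Finset.sum_congr ?_ fun i hi => ?_
    · ext i
      simp only [Finset.mem_filter, Finset.mem_univ, true_and, Prod.ext_iff]
    · rw [Finset.mem_filter] at hi
      rw [← hi.2.1, ← hi.2.2]
      ring
  rw [h2, h, zero_mul]

/-- the exponential is small -/
private lemma ASY_small {l : ℂ} {s0 s : ℝ} (hl : 1 + ‖l‖ ≤ s0) (hs : s0 ≤ s) :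
    ‖Complex.exp (((-s : ℝ) : ℂ) + l)‖ ≤ 1 / 2 := by
  rw [Complex.norm_exp]
  have h1 : (((-s : ℝ) : ℂ) + l).re = -s + l.re := by simp
  have h2 : l.re ≤ ‖l‖ := Complex.re_le_norm l
  rw [h1]
  have h3 : Real.exp (-s + l.re) ≤ Real.exp (-1) := Real.exp_le_exp.2 (by linarith)
  refine h3.trans ?_
  rw [Real.exp_neg]
  have h4 := Real.add_one_le_exp (1 : ℝ)
  rw [inv_eq_one_div]
  exact one_div_le_one_div_of_le (by norm_num) (by linarith)

/-- the exponential is large -/
private lemma ASY_large {l : ℂ} {s0 s : ℝ} (hl : 1 + ‖l‖ ≤ s0) (hs : s0 ≤ s) :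
    2 ≤ ‖Complex.exp ((s : ℂ) + l)‖ := by
  rw [Complex.norm_exp]
  have h1 : ((s : ℂ) + l).re = s + l.re := by simp
  have h2 : -‖l‖ ≤ l.re := by
    have := Complex.abs_re_le_norm l
    exact (abs_le.1 this).1
  rw [h1]
  have h4 := Real.add_one_le_exp (s + l.re)
  linarith

private lemma ASY_ne_small {l : ℂ} {s0 s : ℝ} (hl : 1 + ‖l‖ ≤ s0) (hs : s0 ≤ s) :
    1 + Complex.exp (((-s : ℝ) : ℂ) + l) ≠ 0 := by
  intro h
  have h1 := ASY_small hl hs
  have h2 : Complex.exp (((-s : ℝ) : ℂ) + l) = -1 := by linear_combination h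
  rw [h2, norm_neg, norm_one] at h1
  norm_num at h1

private lemma ASY_ne_large {l : ℂ} {s0 s : ℝ} (hl : 1 + ‖l‖ ≤ s0) (hs : s0 ≤ s) :
    1 + Complex.exp ((s : ℂ) + l) ≠ 0 := by
  intro h
  have h1 := ASY_large hl hs
  have h2 : Complex.exp ((s : ℂ) + l) = -1 := by linear_combination h
  rw [h2, norm_neg, norm_one] at h1
  norm_num at h1

/-- terms of `PC` at `+infinity` -/
private lemma ASY_C_top {l : ℂ} {s0 : ℝ} (hl : 1 + ‖l‖ ≤ s0) (c : ℂ) (k e : ℕ) (he : 1 ≤ e) :
    IntegrableOn (fun s : ℝ => c * (s : ℂ) ^ k * ((1 + Complex.exp ((s : ℂ) + l))⁻¹) ^ e)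
      (Set.Ioi s0) := by
  refine ASY_int (b := 1 / 2) (by norm_num) ?_ ?_
  · refine ContinuousOn.mul (by fun_prop) (ContinuousOn.pow (ContinuousOn.inv₀ (by fun_prop) ?_) e)
    intro s hs
    exact ASY_ne_large hl hs
  · refine ASY_pow (b := 1) one_pos k c ?_
    refine IsBigO.of_bound (2 * Real.exp (-l.re)) ?_
    filter_upwards [eventually_ge_atTop s0] with s hs
    have h1 := ASY_large hl hs
    have h2 : ‖Complex.exp ((s : ℂ) + l)‖ = Real.exp (s + l.re) := by
      rw [Complex.norm_exp]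
      simp
    have h3 : ‖Complex.exp ((s : ℂ) + l)‖ / 2 ≤ ‖1 + Complex.exp ((s : ℂ) + l)‖ := by
      have h4 := norm_sub_norm_le (Complex.exp ((s : ℂ) + l)) (-1)
      rw [norm_neg, norm_one, sub_neg_eq_add, add_comm (Complex.exp _) 1] at h4
      linarith
    have h5 : ‖(1 + Complex.exp ((s : ℂ) + l))⁻¹‖ ≤ 2 * Real.exp (-l.re) * Real.exp (-1 * s) := by
      rw [norm_inv]
      have h6 : 0 < ‖Complex.exp ((s : ℂ) + l)‖ / 2 := by linarith
      refine (inv_anti₀ h6 h3).trans (le_of_eq ?_)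
      rw [h2, inv_div, mul_assoc, ← Real.exp_add, div_eq_mul_inv, ← Real.exp_neg]
      congr 2
      ring
    have h7 : ‖(1 + Complex.exp ((s : ℂ) + l))⁻¹‖ ≤ 1 := by
      rw [norm_inv]
      refine inv_le_one_of_one_le₀ ?_
      linarith
    rw [norm_pow, Real.norm_of_nonneg (Real.exp_pos _).le]
    exact (pow_le_of_le_one (norm_nonneg _) h7 (by omega)).trans h5

/-- terms of `PC` at `-infinity` -/
private lemma ASY_C_bot {l : ℂ} {s0 : ℝ} (hl : 1 + ‖l‖ ≤ s0) (c : ℂ) (k e : ℕ) :
    IntegrableOn (fun s : ℝ => c * (s : ℂ) ^ k *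
      (((1 + Complex.exp (((-s : ℝ) : ℂ) + l))⁻¹) ^ e - 1)) (Set.Ioi s0) := by
  refine ASY_int (b := 1 / 2) (by norm_num) ?_ ?_
  · refine ContinuousOn.mul (by fun_prop) (ContinuousOn.sub (ContinuousOn.pow
      (ContinuousOn.inv₀ (by fun_prop) ?_) e) continuousOn_const)
    intro s hs
    exact ASY_ne_small hl hs
  · refine ASY_pow (b := 1) one_pos k c ?_
    have h1 : HasDerivAt (fun u : ℂ => ((1 + u)⁻¹) ^ e) (deriv (fun u : ℂ => ((1 + u)⁻¹) ^ e) 0)
        0 := by
      refine DifferentiableAt.hasDerivAt ?_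
      refine DifferentiableAt.pow (DifferentiableAt.inv (by fun_prop) ?_) e
      simp
    have h2 := h1.isBigO_sub
    simp only [add_zero, inv_one, one_pow, sub_zero] at h2
    have h3 : Tendsto (fun s : ℝ => Complex.exp (((-s : ℝ) : ℂ) + l)) atTop (𝓝 0) := by
      rw [tendsto_zero_iff_norm_tendsto_zero]
      have h4 : (fun s : ℝ => ‖Complex.exp (((-s : ℝ) : ℂ) + l)‖) =
          fun s => Real.exp (-s + l.re) := by
        funext s
        rw [Complex.norm_exp]
        simp
      rw [h4]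
      exact Real.tendsto_exp_atBot.comp
        (tendsto_atBot_add_const_right _ _ tendsto_neg_atTop_atBot)
    have h5 := h2.comp_tendsto h3
    refine h5.trans (IsBigO.of_bound (Real.exp l.re) (Eventually.of_forall fun s => ?_))
    rw [Function.comp_apply, Complex.norm_exp, Real.norm_of_nonneg (Real.exp_pos _).le,
      ← Real.exp_add]
    refine le_of_eq ?_
    congr 1
    simp
    ring

/-- terms of `PA` with negative exponents -/
private lemma ASY_A_top (c : ℂ) (k : ℕ) {m : ℝ} (hm : m < 0) (s0 : ℝ) :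
    IntegrableOn (fun s : ℝ => c * (s : ℂ) ^ k * Complex.exp ((m : ℂ) * (s : ℂ)))
      (Set.Ioi s0) := by
  refine ASY_int (b := -m / 2) (by linarith) (by fun_prop) ?_
  refine ASY_pow (b := -m) (by linarith) k c ?_
  refine IsBigO.of_bound 1 (Eventually.of_forall fun s => ?_)
  rw [Complex.norm_exp, Real.norm_of_nonneg (Real.exp_pos _).le, one_mul]
  refine le_of_eq ?_
  congr 1
  simp

theorem thm_ASY (h0 : St_EP) : St_ASY := by
  classical
  intro ι ι' _ _ A m kap C k e l he hF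
  set s0 : ℝ := 1 + ∑ j, ‖l j‖ with hs0
  have hl : ∀ j, 1 + ‖l j‖ ≤ s0 := by
    intro j
    have := Finset.single_le_sum (f := fun j => ‖l j‖) (fun i _ => norm_nonneg _)
      (Finset.mem_univ j)
    linarith
  -- the right end
  set Ap : ι → ℂ := fun i => if 0 ≤ m i then A i else 0 with hAp
  set mp : ι → ℝ := fun i => if 0 ≤ m i then m i else 0 with hmp
  set Am : ι → ℂ := fun i => if m i < 0 then A i else 0 with hAm
  set mm : ι → ℝ := fun i => if m i < 0 then m i else -1 with hmm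
  have hsplit : ∀ s, PA A m kap s = PA Ap mp kap s + PA Am mm kap s := by
    intro s
    unfold PA
    rw [← Finset.sum_add_distrib]
    refine Finset.sum_congr rfl fun i _ => ?_
    by_cases h : 0 ≤ m i
    · simp only [hAp, hmp, hAm, if_pos h, if_neg (not_lt.2 h), zero_mul, add_zero]
    · simp only [hAp, hmm, hAm, if_neg h, if_pos (not_le.1 h), zero_mul, zero_add]
  have hmneg : ∀ i, mm i < 0 := by
    intro i
    simp only [hmm]
    split_ifs with h
    · exact h
    · norm_num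
  have hIm : IntegrableOn (PA Am mm kap) (Set.Ioi s0) := by
    have h1 : IntegrableOn (fun s : ℝ => ∑ i, Am i * (s : ℂ) ^ (kap i) *
        Complex.exp ((mm i : ℂ) * (s : ℂ))) (Set.Ioi s0) :=
      integrable_finsetSum _ fun i _ => ASY_A_top _ _ (hmneg i) s0
    exact h1
  have hIC : IntegrableOn (fun s : ℝ => PC C k e l (s : ℂ)) (Set.Ioi s0) := by
    have h1 : IntegrableOn (fun s : ℝ => ∑ j, C j * (s : ℂ) ^ (k j) *
        ((1 + Complex.exp ((s : ℂ) + l j))⁻¹) ^ (e j)) (Set.Ioi s0) :=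
      integrable_finsetSum _ fun j _ => ASY_C_top (hl j) _ _ _ (he j)
    exact h1
  have hIp : IntegrableOn (PA Ap mp kap) (Set.Ioi s0) := by
    have h1 := (hF.integrableOn (s := Set.Ioi s0)).sub (hIm.add hIC)
    refine h1.congr (Eventually.of_forall fun s => ?_)
    simp only [Pi.sub_apply, Pi.add_apply]
    rw [hsplit]
    ring
  have hp := h0 ι Ap mp kap s0 (fun i => by simp only [hmp]; split_ifs with h; exact h; exact le_rfl)
    hIp
  have hPp := ASY_group Ap mp kap hp
  -- the left end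
  have hG : Integrable (fun s : ℝ => PA A m kap (-s) + PC C k e l ((-s : ℝ) : ℂ)) := hF.comp_neg
  set A' : ι ⊕ ι' → ℂ := Sum.elim (fun i => if m i < 0 then (-1) ^ (kap i) * A i else 0)
    (fun j => (-1) ^ (k j) * C j) with hA'
  set m' : ι ⊕ ι' → ℝ := Sum.elim (fun i => if m i < 0 then -m i else 0) (fun _ => 0) with hm'
  set k' : ι ⊕ ι' → ℕ := Sum.elim kap k with hk'
  have hIR : IntegrableOn (fun s : ℝ => ∑ j, ((-1) ^ (k j) * C j) * (s : ℂ) ^ (k j) *
      (((1 + Complex.exp (((-s : ℝ) : ℂ) + l j))⁻¹) ^ (e j) - 1)) (Set.Ioi s0) :=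
    integrable_finsetSum _ fun j _ => ASY_C_bot (hl j) _ _ _
  have hIQ : IntegrableOn (PA A' m' k') (Set.Ioi s0) := by
    have h1 := (hG.integrableOn (s := Set.Ioi s0)).sub hIR
    refine h1.congr (Eventually.of_forall fun s => ?_)
    simp only [Pi.sub_apply]
    rw [hsplit, hPp (-s), zero_add]
    unfold PA PC
    rw [Fintype.sum_sum_type]
    have e1 : ∑ i, Am i * ((-s : ℝ) : ℂ) ^ kap i * Complex.exp ((mm i : ℂ) * ((-s : ℝ) : ℂ)) =
        ∑ i, A' (Sum.inl i) * (s : ℂ) ^ k' (Sum.inl i) *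
          Complex.exp ((m' (Sum.inl i) : ℂ) * (s : ℂ)) := by
      refine Finset.sum_congr rfl fun i _ => ?_
      by_cases h : m i < 0
      · simp only [hAm, hmm, hA', hm', hk', Sum.elim_inl, if_pos h]
        have h2 : ((-s : ℝ) : ℂ) ^ kap i = (-1) ^ kap i * (s : ℂ) ^ kap i := by
          rw [← mul_pow]
          congr 1
          push_cast
          ring
        have h3 : (m i : ℂ) * ((-s : ℝ) : ℂ) = ((-m i : ℝ) : ℂ) * (s : ℂ) := by
          push_cast
          ring
        rw [h2, h3]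
        ring
      · simp only [hAm, hA', Sum.elim_inl, if_neg h, zero_mul]
    rw [e1, add_sub_assoc, ← Finset.sum_sub_distrib]
    congr 1
    refine Finset.sum_congr rfl fun j _ => ?_
    simp only [hA', hm', hk', Sum.elim_inr, Complex.ofReal_zero, zero_mul, Complex.exp_zero,
      mul_one]
    have h2 : ((-s : ℝ) : ℂ) ^ k j = (-1) ^ k j * (s : ℂ) ^ k j := by
      rw [← mul_pow]
      congr 1
      push_cast
      ring
    rw [h2]
    ring
  have hq := h0 (ι ⊕ ι') A' m' k' s0 (fun i => by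
    rcases i with i | j
    · simp only [hm', Sum.elim_inl]
      split_ifs with h
      · linarith
      · exact le_rfl
    · exact le_rfl) hIQ
  have hPq := ASY_group A' m' k' hq
  have hC : ∀ k0 : ℕ, ∑ j, (if k j = k0 then C j else 0) = 0 := by
    intro k0
    have h1 := hq 0 k0
    rw [Finset.sum_filter, Fintype.sum_sum_type] at h1
    have h2 : ∑ i, (if m' (Sum.inl i) = 0 ∧ k' (Sum.inl i) = k0 then A' (Sum.inl i) else 0) =
        0 := by
      refine Finset.sum_eq_zero fun i _ => ?_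
      by_cases h : m i < 0
      · rw [if_neg]
        rintro ⟨h3, -⟩
        simp only [hm', Sum.elim_inl, if_pos h] at h3
        linarith
      · simp only [hA', Sum.elim_inl, if_neg h, ite_self]
    rw [h2, zero_add] at h1
    have h3 : ∑ j, (if m' (Sum.inr j) = 0 ∧ k' (Sum.inr j) = k0 then A' (Sum.inr j) else 0) =
        (-1) ^ k0 * ∑ j, (if k j = k0 then C j else 0) := by
      rw [Finset.mul_sum]
      refine Finset.sum_congr rfl fun j _ => ?_
      simp only [hm', hk', hA', Sum.elim_inr, true_and]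
      split_ifs with h
      · rw [h]
      · rw [mul_zero]
    rw [h3] at h1
    exact (mul_eq_zero.1 h1).resolve_left (pow_ne_zero _ (by norm_num))
  refine ⟨fun s => ?_, hC⟩
  rw [hsplit, hPp, zero_add]
  have h1 := hPq (-s)
  unfold PA at h1 ⊢
  rw [Fintype.sum_sum_type] at h1
  have h2 : ∑ j, A' (Sum.inr j) * ((-s : ℝ) : ℂ) ^ k' (Sum.inr j) *
      Complex.exp ((m' (Sum.inr j) : ℂ) * ((-s : ℝ) : ℂ)) = 0 := by
    have h3 := ASY_group C (fun _ => (0 : ℝ)) k (fun mu k0 => by
      by_cases h : (0 : ℝ) = mu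
      · have h4 := hC k0
        rw [← Finset.sum_filter] at h4
        rw [← h4]
        refine Finset.sum_congr ?_ fun _ _ => rfl
        ext j
        simp [h]
      · rw [Finset.filter_eq_empty_iff.2 (fun j _ h5 => h h5.1), Finset.sum_empty]) s
    rw [← h3]
    unfold PA
    refine Finset.sum_congr rfl fun j _ => ?_
    simp only [hA', hm', hk', Sum.elim_inr, Complex.ofReal_zero, zero_mul, Complex.exp_zero,
      mul_one]
    have h4 : ((-s : ℝ) : ℂ) ^ k j = (-1) ^ k j * (s : ℂ) ^ k j := by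
      rw [← mul_pow]
      congr 1
      push_cast
      ring
    have h5 : ((-1 : ℂ)) ^ k j * (-1) ^ k j = 1 := by
      rw [← mul_pow]
      norm_num
    rw [h4]
    linear_combination (C j * (s : ℂ) ^ k j) * h5
  rw [h2, add_zero] at h1
  rw [← h1]
  refine Finset.sum_congr rfl fun i _ => ?_
  by_cases h : m i < 0
  · simp only [hAm, hmm, hA', hm', hk', Sum.elim_inl, if_pos h]
    have h4 : ((-s : ℝ) : ℂ) ^ kap i = (-1) ^ kap i * (s : ℂ) ^ kap i := by
      rw [← mul_pow]
      congr 1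
      push_cast
      ring
    have h5 : ((-1 : ℂ)) ^ kap i * (-1) ^ kap i = 1 := by
      rw [← mul_pow]
      norm_num
    have h6 : ((-m i : ℝ) : ℂ) * ((-s : ℝ) : ℂ) = (m i : ℂ) * (s : ℂ) := by
      push_cast
      ring
    rw [h4, h6]
    linear_combination (-(A i * (s : ℂ) ^ kap i * Complex.exp ((m i : ℂ) * (s : ℂ)))) * h5
  · simp only [hAm, hA', Sum.elim_inl, if_neg h, zero_mul]

end TPER
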