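import Pool.Agent.TPER.St

/-!
# Toric periods: integrable on the line implies bounded near each real point (BDD)
-/

set_option autoImplicit false

namespace TPER

open MeasureTheory Filter Topology

theorem bdd_mero {ι : Type} [Fintype ι] (C : ι → ℂ) (k e : ι → ℕ) (l : ι → ℂ) (p : ℂ) :
    MeromorphicAt (PC C k e l) p := by
  have h : MeromorphicAt (fun z => ∑ j, C j * z ^ (k j) *
      ((1 + Complex.exp (z + l j))⁻¹) ^ (e j)) p := by
    apply MeromorphicAt.fun_sum
    intro j _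
    have h1 : AnalyticAt ℂ (fun z : ℂ => C j * z ^ (k j)) p := by fun_prop
    have h2 : AnalyticAt ℂ (fun z : ℂ => 1 + Complex.exp (z + l j)) p := by fun_prop
    exact h1.meromorphicAt.mul (h2.meromorphicAt.inv.pow (e j))
  exact h

theorem thm_BDD : St_BDD := by
  intro ι _ C k e l hint p
  have hmer := bdd_mero C k e l (p : ℂ)
  by_cases hord : 0 ≤ meromorphicOrderAt (PC C k e l) (p : ℂ)
  · obtain ⟨c, hc⟩ := tendsto_nhds_of_meromorphicOrderAt_nonneg hmer hord
    have h1 : ∀ᶠ z in 𝓝[≠] (p : ℂ), ‖PC C k e l z‖ ≤ ‖c‖ + 1 := by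
      filter_upwards [hc.norm.eventually (gt_mem_nhds (lt_add_one _))] with z hz using le_of_lt hz
    rw [eventually_nhdsWithin_iff, Metric.eventually_nhds_iff] at h1
    obtain ⟨rho, hrho, h2⟩ := h1
    refine ⟨rho, ‖c‖ + 1, hrho, fun z hz hz2 => h2 ?_ hz⟩
    rwa [dist_eq_norm]
  · exfalso
    obtain ⟨n, hn⟩ : ∃ n : ℤ, meromorphicOrderAt (PC C k e l) (p : ℂ) = n := by
      have : meromorphicOrderAt (PC C k e l) (p : ℂ) ≠ ⊤ := by
        intro h
        rw [h] at hord
        exact hord le_top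
      obtain ⟨n, hn⟩ := WithTop.ne_top_iff_exists.1 this
      exact ⟨n, hn.symm⟩
    have hn0 : n ≤ -1 := by
      rw [hn] at hord
      have h1 : ¬ (0 : ℤ) ≤ n := fun h => hord (by exact_mod_cast h)
      omega
    obtain ⟨g, hg1, hg2, hg3⟩ := (meromorphicOrderAt_eq_int_iff hmer).1 hn
    have hgb : ∀ᶠ z in 𝓝[≠] (p : ℂ), ‖g p‖ / 2 ≤ ‖g z‖ := by
      have h1 : Tendsto (fun z => ‖g z‖) (𝓝 (p : ℂ)) (𝓝 ‖g p‖) := hg1.continuousAt.norm
      have h2 : ‖g p‖ / 2 < ‖g p‖ := by
        have := norm_pos_iff.2 hg2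
        linarith
      filter_upwards [(h1.mono_left nhdsWithin_le_nhds).eventually (lt_mem_nhds h2)] with z hz
        using le_of_lt hz
    have hsm : ∀ᶠ z : ℂ in 𝓝[≠] (p : ℂ), ‖z - p‖ ≤ 1 := by
      have h1 : Tendsto (fun z : ℂ => ‖z - p‖) (𝓝 (p : ℂ)) (𝓝 ‖(p : ℂ) - p‖) :=
        (continuous_id.sub continuous_const).norm.continuousAt
      rw [sub_self, norm_zero] at h1
      filter_upwards [(h1.mono_left nhdsWithin_le_nhds).eventually (gt_mem_nhds one_pos)] with z hz
        using le_of_lt hz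
    have hne : ∀ᶠ z : ℂ in 𝓝[≠] (p : ℂ), z ≠ p := self_mem_nhdsWithin
    have htend : Tendsto (fun s : ℝ => (s : ℂ)) (𝓝[≠] p) (𝓝[≠] (p : ℂ)) := by
      apply tendsto_nhdsWithin_iff.2
      refine ⟨(Complex.continuous_ofReal.tendsto p).mono_left nhdsWithin_le_nhds, ?_⟩
      filter_upwards [self_mem_nhdsWithin] with s hs h
      exact hs (Complex.ofReal_injective h)
    have hO : (fun s : ℝ => (s - p)⁻¹) =O[𝓝[≠] p] (fun s : ℝ => PC C k e l (s : ℂ)) := by
      apply Asymptotics.IsBigO.of_bound (2 / ‖g p‖)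
      filter_upwards [htend.eventually hg3, htend.eventually hgb, htend.eventually hsm,
        htend.eventually hne] with s h1 h2 h3 h4
      rw [h1, norm_smul, norm_zpow]
      have hgp := norm_pos_iff.2 hg2
      have h5 : ‖(s : ℂ) - p‖ = |s - p| := by
        rw [← Complex.ofReal_sub, Complex.norm_real, Real.norm_eq_abs]
      rw [h5] at h3 ⊢
      have h6 : 0 < |s - p| := by
        rw [← h5, norm_pos_iff, sub_ne_zero]
        exact h4
      have h7 : |s - p|⁻¹ ≤ |s - p| ^ n := by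
        rw [← zpow_neg_one]
        exact zpow_le_zpow_right_of_le_one₀ h6 h3 hn0
      rw [norm_inv, Real.norm_eq_abs]
      calc |s - p|⁻¹ = 2 / ‖g p‖ * (|s - p|⁻¹ * (‖g p‖ / 2)) := by field_simp
        _ ≤ 2 / ‖g p‖ * (|s - p| ^ n * ‖g s‖) := by
          apply mul_le_mul_of_nonneg_left _ (by positivity)
          exact mul_le_mul h7 h2 (by positivity) (by positivity)
    have h8 := not_intervalIntegrable_of_sub_inv_isBigO_punctured (a := p - 1) (b := p + 1) hO
      (by linarith) (by rw [Set.uIcc_of_le (by linarith)]; constructor <;> linarith)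
    exact h8 hint.intervalIntegrable

end TPER
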