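import Pool.Agent.TPER.St

/-!
# Toric periods, module CV: the change of variables `x_i = exp t_i`
-/

set_option autoImplicit false

namespace TPER

open MeasureTheory Filter Topology

/-- the map -/
private noncomputable def cvT (n : ℕ) (t : Fin n → ℝ) : Fin n → ℝ := fun i => Real.exp (t i)

/-- its derivative -/
private noncomputable def cvD (n : ℕ) (t : Fin n → ℝ) : (Fin n → ℝ) →L[ℝ] (Fin n → ℝ) :=
  ContinuousLinearMap.pi fun i =>
    (Real.exp (t i) • ContinuousLinearMap.id ℝ ℝ).comp (ContinuousLinearMap.proj i)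

private lemma cv_deriv (n : ℕ) (t : Fin n → ℝ) : HasFDerivAt (cvT n) (cvD n t) t := by
  unfold cvT cvD
  rw [hasFDerivAt_pi]
  intro i
  have h1 : HasFDerivAt (fun s : Fin n → ℝ => s i) (ContinuousLinearMap.proj i) t :=
    hasFDerivAt_apply (𝕜 := ℝ) i t
  have h2 := h1.exp
  have h3 : Real.exp (t i) • (ContinuousLinearMap.proj i : (Fin n → ℝ) →L[ℝ] ℝ) =
      (Real.exp (t i) • ContinuousLinearMap.id ℝ ℝ).comp (ContinuousLinearMap.proj i) := by
    ext v
    simp
  rw [← h3]
  exact h2

private lemma cv_det (n : ℕ) (t : Fin n → ℝ) : (cvD n t).det = Real.exp (∑ i, t i) := by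
  unfold cvD
  rw [ContinuousLinearMap.det_pi, Real.exp_sum]
  refine Finset.prod_congr rfl fun i _ => ?_
  simp [ContinuousLinearMap.det]

private lemma cv_inj (n : ℕ) : Function.Injective (cvT n) := by
  intro s t h
  funext i
  have := congrFun h i
  exact Real.exp_injective this

private lemma cv_image (n : ℕ) : cvT n '' Set.univ = orthant n := by
  ext x
  constructor
  · rintro ⟨t, -, rfl⟩ i
    exact Real.exp_pos _
  · intro hx
    refine ⟨fun i => Real.log (x i), trivial, ?_⟩
    funext i
    exact Real.exp_log (hx i)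

theorem thm_CV : St_CV := by
  intro n F hF
  have h1 : ∀ x ∈ (Set.univ : Set (Fin n → ℝ)),
      HasFDerivWithinAt (cvT n) (cvD n x) Set.univ x := fun x _ =>
    (cv_deriv n x).hasFDerivWithinAt
  have h2 : Set.InjOn (cvT n) Set.univ := (cv_inj n).injOn
  have h3 : ∀ t : Fin n → ℝ, |(cvD n t).det| • F (cvT n t) =
      (Real.exp (∑ i, t i) : ℂ) * F (fun i => Real.exp (t i)) := by
    intro t
    rw [cv_det, abs_of_pos (Real.exp_pos _), Complex.real_smul]
    rfl
  constructor
  · have h4 := (integrableOn_image_iff_integrableOn_abs_det_fderiv_smul volume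
      MeasurableSet.univ h1 h2 F).1 (by rw [cv_image]; exact hF)
    rw [integrableOn_univ] at h4
    exact h4.congr (Eventually.of_forall h3)
  · have h4 := integral_image_eq_integral_abs_det_fderiv_smul volume
      MeasurableSet.univ h1 h2 F
    rw [cv_image, setIntegral_univ] at h4
    rw [h4]
    exact integral_congr_ae (Eventually.of_forall h3)

end TPER
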