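import Pool.Agent.TPER.St

/-!
# Toric periods: exponential decay in a strip (DEC)
-/

set_option autoImplicit false

namespace TPER

open MeasureTheory Filter Topology

/-- the sum of the leading terms vanishes -/
theorem dec_sum {ι : Type} [Fintype ι] (C : ι → ℂ) (k : ι → ℕ)
    (h : ∀ k0 : ℕ, ∑ j, (if k j = k0 then C j else 0) = 0) (z : ℂ) :
    ∑ j, C j * z ^ (k j) = 0 := by
  classical
  have h1 : ∀ j, C j * z ^ (k j) =
      ∑ k0 ∈ Finset.range ((Finset.univ.sup k) + 1), (if k j = k0 then C j else 0) * z ^ k0 := by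
    intro j
    rw [Finset.sum_eq_single (k j)]
    · rw [if_pos rfl]
    · intro b _ hb
      rw [if_neg (Ne.symm hb), zero_mul]
    · intro h2
      exfalso
      apply h2
      rw [Finset.mem_range]
      exact Nat.lt_succ_of_le (Finset.le_sup (f := k) (Finset.mem_univ j))
  rw [Finset.sum_congr rfl (fun j _ => h1 j), Finset.sum_comm]
  apply Finset.sum_eq_zero
  intro k0 _
  rw [← Finset.sum_mul, h k0, zero_mul]

theorem dec_pow {a h : ℂ} {K D : ℝ} (hK : 1 ≤ K) (ha : ‖a‖ ≤ K) (hh : h * h = h) (hh1 : ‖h‖ ≤ 1)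
    (hD : ‖a - h‖ ≤ D) (e : ℕ) : ‖a ^ (e + 1) - h‖ ≤ (e + 1) * K ^ (e + 1) * D := by
  have hD0 : 0 ≤ D := (norm_nonneg _).trans hD
  induction e with
  | zero =>
    rw [zero_add, pow_one, pow_one]
    calc ‖a - h‖ ≤ D := hD
      _ = 1 * D := (one_mul _).symm
      _ ≤ (((0 : ℕ) : ℝ) + 1) * K * D := by
        apply mul_le_mul_of_nonneg_right _ hD0
        simpa using hK
  | succ e ih =>
    have e1 : a ^ (e + 1 + 1) - h = (a ^ (e + 1) - h) * a + h * (a - h) := by
      rw [pow_succ]
      linear_combination hh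
    rw [e1]
    have h1 : ‖(a ^ (e + 1) - h) * a‖ ≤ ((e + 1) * K ^ (e + 1) * D) * K := by
      rw [norm_mul]
      exact mul_le_mul ih ha (norm_nonneg _) (by positivity)
    have h2 : ‖h * (a - h)‖ ≤ D := by
      rw [norm_mul]
      calc ‖h‖ * ‖a - h‖ ≤ 1 * D := mul_le_mul hh1 hD (norm_nonneg _) zero_le_one
        _ = D := one_mul _
    have h3 : (1 : ℝ) ≤ K ^ (e + 1 + 1) := one_le_pow₀ hK
    calc _ ≤ ((e + 1) * K ^ (e + 1) * D) * K + D := (norm_add_le _ _).trans (add_le_add h1 h2)
      _ ≤ ((e + 1) * K ^ (e + 1) * D) * K + K ^ (e + 1 + 1) * D := by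
        have := mul_le_mul_of_nonneg_right h3 hD0
        linarith
      _ = _ := by push_cast; ring

theorem dec_one {w : ℂ} (h : 1 ≤ |w.re|) :
    ‖(1 + Complex.exp w)⁻¹‖ ≤ 2 ∧ (1 + Complex.exp w ≠ 0) ∧
      ‖(1 + Complex.exp w)⁻¹‖ ≤ 2 * Real.exp (-w.re) := by
  have h0 : 1 / 2 ≤ ‖1 + Complex.exp w‖ ∧ Real.exp w.re / 2 ≤ ‖1 + Complex.exp w‖ := by
    have h1 : ‖Complex.exp w‖ = Real.exp w.re := Complex.norm_exp w
    have h2 : Real.exp w.re - 1 ≤ ‖1 + Complex.exp w‖ := by
      have := norm_sub_norm_le (Complex.exp w) (-1)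
      rw [norm_neg, norm_one, h1, sub_neg_eq_add, add_comm (Complex.exp w)] at this
      exact this
    have h3 : 1 - Real.exp w.re ≤ ‖1 + Complex.exp w‖ := by
      have := norm_sub_norm_le (1 : ℂ) (-Complex.exp w)
      rw [norm_neg, norm_one, h1, sub_neg_eq_add] at this
      exact this
    rcases le_abs.1 h with h4 | h4
    · have h5 : 2 ≤ Real.exp w.re := by
        have := Real.add_one_le_exp w.re
        linarith
      constructor <;> linarith
    · have h5 : Real.exp w.re ≤ 1 / 2 := by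
        have h6 : 2 ≤ Real.exp (-w.re) := by
          have := Real.add_one_le_exp (-w.re)
          linarith
        have h7 : Real.exp w.re = (Real.exp (-w.re))⁻¹ := by rw [Real.exp_neg, inv_inv]
        rw [h7]
        have := inv_anti₀ (by norm_num : (0 : ℝ) < 2) h6
        linarith
      constructor <;> linarith
  have hpos : 0 < ‖1 + Complex.exp w‖ := lt_of_lt_of_le (by norm_num) h0.1
  refine ⟨?_, norm_pos_iff.1 hpos, ?_⟩
  · rw [norm_inv]
    have := inv_anti₀ (by norm_num : (0 : ℝ) < 1 / 2) h0.1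
    simpa using this
  · rw [norm_inv, Real.exp_neg]
    have h1 := inv_anti₀ (by positivity : 0 < Real.exp w.re / 2) h0.2
    refine h1.trans (le_of_eq ?_)
    field_simp

theorem thm_DEC : St_DEC := by
  intro ι _ C k e l he hsum
  classical
  let cj : ι → ℝ := fun j => ‖C j‖ * (2 ^ (k j) * (k j).factorial * Real.exp (1 / 2)) *
    ((e j : ℝ) * 2 ^ (e j) * (2 * Real.exp |(l j).re|))
  have hcj : ∀ j, 0 ≤ cj j := fun j => by positivity
  refine ⟨∑ j, |(l j).re| + 1, 1 + ∑ j, cj j, ?_, ?_, ?_⟩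
  · have : 0 ≤ ∑ j, |(l j).re| := Finset.sum_nonneg fun j _ => abs_nonneg _
    linarith
  · have : 0 ≤ ∑ j, cj j := Finset.sum_nonneg fun j _ => hcj j
    linarith
  intro z hz1 hz2
  -- the constant
  obtain ⟨h, hhdef⟩ : ∃ h : ℂ, (0 < z.re → h = 0) ∧ (z.re < 0 → h = 1) ∧ h * h = h ∧ ‖h‖ ≤ 1 := by
    rcases le_or_gt 0 z.re with h1 | h1
    · exact ⟨0, fun _ => rfl, fun h2 => absurd h2 (not_lt.2 h1), by simp, by simp⟩
    · exact ⟨1, fun h2 => absurd h1 (not_lt.2 h2.le), fun _ => rfl, by simp, by simp⟩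
  obtain ⟨hh1, hh2, hh3, hh4⟩ := hhdef
  have hlj : ∀ j, |(l j).re| + 1 ≤ |z.re| := by
    intro j
    have : |(l j).re| ≤ ∑ j, |(l j).re| :=
      Finset.single_le_sum (f := fun j => |(l j).re|) (fun _ _ => abs_nonneg _) (Finset.mem_univ j)
    linarith
  have hPC : PC C k e l z = ∑ j, C j * z ^ (k j) *
      (((1 + Complex.exp (z + l j))⁻¹) ^ (e j) - h) := by
    unfold PC
    have h1 := dec_sum C k hsum z
    have h2 : ∑ j, C j * z ^ (k j) * h = 0 := by rw [← Finset.sum_mul, h1, zero_mul]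
    simp only [mul_sub, Finset.sum_sub_distrib]
    rw [h2, sub_zero]
  rw [hPC]
  have hterm : ∀ j, ‖C j * z ^ (k j) * (((1 + Complex.exp (z + l j))⁻¹) ^ (e j) - h)‖ ≤
      cj j * Real.exp (-(|z.re| / 2)) := by
    intro j
    have hw : 1 ≤ |(z + l j).re| := by
      rw [Complex.add_re]
      have h1 := abs_sub_abs_le_abs_add z.re (l j).re
      have h2 := hlj j
      linarith
    obtain ⟨b1, b2, b3⟩ := dec_one hw
    have hD : ‖(1 + Complex.exp (z + l j))⁻¹ - h‖ ≤
        2 * Real.exp |(l j).re| * Real.exp (-|z.re|) := by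
      rcases lt_trichotomy z.re 0 with h1 | h1 | h1
      · rw [hh2 h1]
        have e1 : (1 + Complex.exp (z + l j))⁻¹ - 1 =
            - (Complex.exp (z + l j) * (1 + Complex.exp (z + l j))⁻¹) := by
          field_simp
          ring
        rw [e1, norm_neg, norm_mul, Complex.norm_exp, abs_of_neg h1, neg_neg]
        have e2 : Real.exp (z + l j).re ≤ Real.exp |(l j).re| * Real.exp z.re := by
          rw [← Real.exp_add, Complex.add_re]
          apply Real.exp_le_exp.2
          have := le_abs_self (l j).re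
          linarith
        calc Real.exp (z + l j).re * ‖(1 + Complex.exp (z + l j))⁻¹‖
            ≤ (Real.exp |(l j).re| * Real.exp z.re) * 2 :=
              mul_le_mul e2 b1 (norm_nonneg _) (by positivity)
          _ = _ := by ring
      · exfalso
        have := hlj j
        rw [h1, abs_zero] at this
        have := abs_nonneg (l j).re
        linarith
      · rw [hh1 h1, sub_zero, abs_of_pos h1]
        refine b3.trans ?_
        rw [mul_assoc, ← Real.exp_add]
        apply mul_le_mul_of_nonneg_left _ (by norm_num)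
        apply Real.exp_le_exp.2
        rw [Complex.add_re]
        have := neg_abs_le (l j).re
        linarith
    obtain ⟨e', he'⟩ : ∃ e', e j = e' + 1 := ⟨e j - 1, by have := he j; omega⟩
    have hpow := dec_pow (by norm_num : (1 : ℝ) ≤ 2) b1 hh3 hh4 hD e'
    have hpow' : ‖((1 + Complex.exp (z + l j))⁻¹) ^ (e j) - h‖ ≤
        (e j : ℝ) * 2 ^ (e j) * (2 * Real.exp |(l j).re| * Real.exp (-|z.re|)) := by
      rw [he']
      push_cast
      exact hpow
    -- the power of z
    have hzn : ‖z‖ ≤ |z.re| + 1 := by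
      have := Complex.norm_le_abs_re_add_abs_im z
      linarith
    have hzk : ‖z‖ ^ (k j) ≤ 2 ^ (k j) * (k j).factorial * Real.exp (1 / 2) * Real.exp (|z.re| / 2) := by
      have h1 : ‖z‖ ^ (k j) ≤ (|z.re| + 1) ^ (k j) := pow_le_pow_left₀ (norm_nonneg _) hzn _
      have h2 := Real.pow_div_factorial_le_exp (x := (|z.re| + 1) / 2) (by positivity) (k j)
      have h3 : (0 : ℝ) < (k j).factorial := Nat.cast_pos.2 (Nat.factorial_pos _)
      rw [div_le_iff₀ h3, div_pow, div_le_iff₀ (by positivity)] at h2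
      have h4 : Real.exp ((|z.re| + 1) / 2) = Real.exp (1 / 2) * Real.exp (|z.re| / 2) := by
        rw [← Real.exp_add]
        congr 1
        ring
      rw [h4] at h2
      refine h1.trans (h2.trans (le_of_eq ?_))
      ring
    rw [norm_mul, norm_mul, norm_pow]
    have hexp : Real.exp (|z.re| / 2) * Real.exp (-|z.re|) = Real.exp (-(|z.re| / 2)) := by
      rw [← Real.exp_add]
      congr 1
      ring
    calc ‖C j‖ * ‖z‖ ^ (k j) * ‖((1 + Complex.exp (z + l j))⁻¹) ^ (e j) - h‖
        ≤ ‖C j‖ * (2 ^ (k j) * (k j).factorial * Real.exp (1 / 2) * Real.exp (|z.re| / 2)) *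
          ((e j : ℝ) * 2 ^ (e j) * (2 * Real.exp |(l j).re| * Real.exp (-|z.re|))) := by
          apply mul_le_mul _ hpow' (norm_nonneg _) (by positivity)
          exact mul_le_mul_of_nonneg_left hzk (norm_nonneg _)
      _ = cj j * (Real.exp (|z.re| / 2) * Real.exp (-|z.re|)) := by
          simp only [cj]
          ring
      _ = _ := by rw [hexp]
  calc ‖∑ j, C j * z ^ (k j) * (((1 + Complex.exp (z + l j))⁻¹) ^ (e j) - h)‖
      ≤ ∑ j, cj j * Real.exp (-(|z.re| / 2)) := norm_sum_le_of_le _ fun j _ => hterm j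
    _ = (∑ j, cj j) * Real.exp (-(|z.re| / 2)) := by rw [Finset.sum_mul]
    _ ≤ (1 + ∑ j, cj j) * Real.exp (-(|z.re| / 2)) := by
        apply mul_le_mul_of_nonneg_right _ (Real.exp_pos _).le
        linarith

end TPER
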