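import Pool.Agent.TPER.St

/-!
# Toric periods, module FUB: induction on the dimension
-/

set_option autoImplicit false

namespace TPER

open MeasureTheory Filter Topology

private lemma cons_eq (n : ℕ) (s : ℝ) (t : Fin n → ℝ) :
    (MeasurableEquiv.piFinSuccAbove (fun _ : Fin (n + 1) => ℝ) 0).symm (s, t) =
      (Fin.cons s t : Fin (n + 1) → ℝ) := by
  ext i
  refine Fin.cases ?_ (fun j => ?_) i
  · rfl
  · rfl

theorem thm_FUB (h0 : St_PAR) : St_FUB := by
  intro n
  induction n with
  | zero =>
    intro w f hf hint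
    refine ⟨f, hf, ?_⟩
    rw [integral_unique]
    have h : (volume : Measure (Fin 0 → ℝ)).real Set.univ = 1 := by
      simp [Measure.real, volume_pi]
    rw [h, one_smul]
    exact congrArg f (Subsingleton.elim _ _)
  | succ n ih =>
    intro w f hf hint
    obtain ⟨g, hg, hgt⟩ := h0 n w f hf
    have mp := (volume_preserving_piFinSuccAbove (fun _ : Fin (n + 1) => ℝ) 0).symm
    set e := MeasurableEquiv.piFinSuccAbove (fun _ : Fin (n + 1) => ℝ) 0 with he
    have h1 : Integrable (fun z : ℝ × (Fin n → ℝ) => f (Fin.cons z.1 z.2))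
        ((volume : Measure ℝ).prod (volume : Measure (Fin n → ℝ))) := by
      have h2 := (mp.integrable_comp_emb e.symm.measurableEmbedding).2 hint
      refine h2.congr (Eventually.of_forall fun z => ?_)
      show f (e.symm z) = f (Fin.cons z.1 z.2)
      rw [he, ← cons_eq n z.1 z.2]
    have h3 : ∫ t : Fin (n + 1) → ℝ, f t =
        ∫ z : ℝ × (Fin n → ℝ), f (Fin.cons z.1 z.2)
          ∂((volume : Measure ℝ).prod (volume : Measure (Fin n → ℝ))) := by
      have h4 := mp.integral_comp' f
      rw [← h4]
      refine integral_congr_ae (Eventually.of_forall fun z => ?_)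
      show f (e.symm z) = f (Fin.cons z.1 z.2)
      rw [he, ← cons_eq n z.1 z.2]
    have h5 := integral_prod_symm _ h1
    have h6 := h1.prod_left_ae
    have h7 := h1.integral_prod_right
    have h8 : (fun t : Fin n → ℝ => ∫ s : ℝ, f (Fin.cons s t)) =ᵐ[volume] g := by
      filter_upwards [hgt, h6] with t ht1 ht2
      exact ht1 ht2
    obtain ⟨g', hg', hgi⟩ := ih (w + 1) g hg (h7.congr h8)
    refine ⟨g', ?_, ?_⟩
    · have : w + (n + 1) = w + 1 + n := by ring
      rw [this]; exact hg'
    · rw [h3, h5, ← hgi]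
      exact integral_congr_ae h8

end TPER
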