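import Pool.Agent.TPER.St
import Pool.Agent.Helper21.PiTrans

set_option autoImplicit false

namespace TPER

open MeasureTheory Polynomial

private theorem alg_mem (c : ℂ) (hc : IsAlgebraic ℚ c) (S : Subalgebra (algebraicClosure ℚ ℂ) ℂ) :
    c ∈ S := by
  have h1 : c ∈ algebraicClosure ℚ ℂ := (mem_algebraicClosure_iff).2 hc
  have h2 := S.algebraMap_mem (⟨c, h1⟩ : algebraicClosure ℚ ℂ)
  exact h2

private theorem mem_adj (S : Subalgebra (algebraicClosure ℚ ℂ) ℂ) (hS : (Real.pi : ℂ) ∈ S)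
    (v : ℂ) (p : Polynomial ℂ) (hp : ∀ i, IsAlgebraic ℚ (p.coeff i))
    (hv : v = p.eval (Real.pi : ℂ)) : v ∈ S := by
  rw [hv, Polynomial.eval_eq_sum_range]
  refine Subalgebra.sum_mem _ fun i _ => ?_
  exact Subalgebra.mul_mem _ (alg_mem _ (hp i) S) (Subalgebra.pow_mem _ hS i)

private theorem trans_pi_C : Transcendental ℚ (Real.pi : ℂ) := by
  intro h2
  have : (Real.pi : ℂ) = algebraMap ℝ ℂ Real.pi := rfl
  rw [this] at h2
  exact Pool.Agent.Helper21.transcendental_pi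
    ((isAlgebraic_algebraMap_iff (algebraMap ℝ ℂ).injective).1 h2)

private theorem inv_pi_not_mem :
    ((Real.pi : ℂ))⁻¹ ∉ Algebra.adjoin (algebraicClosure ℚ ℂ) {(Real.pi : ℂ)} := by
  intro h
  rw [Algebra.adjoin_singleton_eq_range_aeval] at h
  obtain ⟨p, hp⟩ := h
  have hp' : aeval (Real.pi : ℂ) p = ((Real.pi : ℂ))⁻¹ := hp
  have hpi : (Real.pi : ℂ) ≠ 0 := by exact_mod_cast Real.pi_ne_zero
  have h1 : IsAlgebraic (algebraicClosure ℚ ℂ) (Real.pi : ℂ) := by
    refine ⟨X * p - 1, ?_, ?_⟩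
    · intro h0
      have := congrArg (fun f => f.coeff 0) h0
      simp at this
    · rw [map_sub, map_mul, aeval_X, hp', map_one, mul_inv_cancel₀ hpi, sub_self]
  exact trans_pi_C.algebraicClosure h1

theorem thm_MAIN (hD : St_DEG) (hP : St_PI) : St_MAIN := by
  have heq : Algebra.adjoin (algebraicClosure ℚ ℂ) {v : ℂ | IsToricPeriod v} =
      Algebra.adjoin (algebraicClosure ℚ ℂ) {(Real.pi : ℂ)} := by
    apply le_antisymm
    · rw [Algebra.adjoin_le_iff]
      rintro v ⟨n, d, hv⟩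
      obtain ⟨p, hp, -, hpv⟩ := hD n d v hv
      exact mem_adj (Algebra.adjoin (algebraicClosure ℚ ℂ) {(Real.pi : ℂ)})
        (Algebra.subset_adjoin (Set.mem_singleton _)) v p hp hpv
    · rw [Algebra.adjoin_le_iff]
      rintro v hv
      rw [Set.mem_singleton_iff] at hv
      subst hv
      exact Algebra.subset_adjoin ⟨1, 0, hP⟩
  refine ⟨hD, heq, ?_⟩
  rw [heq]
  exact inv_pi_not_mem

end TPER
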