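import Pool.Agent.TPER.Defs

/-!
# Toric periods: statements of the modules

Every module proves `theorem thm_X : St_X` (with other `St_Y` as hypotheses where indicated).
The proof of each statement is in its docstring.
-/

set_option autoImplicit false

namespace TPER

open MeasureTheory Filter Topology

/-! ## Block A: one complex variable -/

/-- The exponential polynomial `sum_i A_i s^(kap_i) e^(m_i s)`. -/
noncomputable def PA {ι : Type} [Fintype ι] (A : ι → ℂ) (m : ι → ℝ) (kap : ι → ℕ) (s : ℝ) : ℂ :=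
  ∑ i, A i * (s : ℂ) ^ (kap i) * Complex.exp ((m i : ℂ) * (s : ℂ))

/-- `sum_j C_j z^(k_j) / (1 + e^(z + l_j))^(e_j)` for complex `z` (a factor `1 + e^(z + l_j)`
which vanishes gives the value `0`, since `e_j ≥ 1`). -/
noncomputable def PC {ι : Type} [Fintype ι] (C : ι → ℂ) (k e : ι → ℕ) (l : ι → ℂ) (z : ℂ) : ℂ :=
  ∑ j, C j * z ^ (k j) * ((1 + Complex.exp (z + l j))⁻¹) ^ (e j)

/-- [EP] An exponential polynomial with exponents `≥ 0` which is integrable at `+infinity` is
zero (all its coefficients vanish).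
Proof. Otherwise let `(mu, k0)` be the lexicographically largest pair with coefficient
`a = sum_{m_i = mu, kap_i = k0} A_i ≠ 0`. Group the sum by the pairs:
`PA(s) / (s^k0 e^(mu s)) → a` as `s → +infinity`, since every other pair `(mu',k')` with nonzero
coefficient has `mu' < mu`, or `mu' = mu` and `k' < k0`. So `|PA(s)| ≥ |a|/2` for large `s`
(`mu ≥ 0`), which is not integrable. -/
def St_EP : Prop := ∀ (ι : Type) [Fintype ι] (A : ι → ℂ) (m : ι → ℝ) (kap : ι → ℕ) (s0 : ℝ),
  (∀ i, 0 ≤ m i) → IntegrableOn (PA A m kap) (Set.Ioi s0) →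
  ∀ (mu : ℝ) (k0 : ℕ), (∑ i ∈ Finset.univ.filter (fun i => m i = mu ∧ kap i = k0), A i) = 0

/-- [ASY] Asymptotic behaviour at both ends. Hypothesis of the module: `St_EP`.
Proof. (a) At `+infinity`: for `s > s0` large, `|1+e^(s+l_j)| ≥ e^(s + Re l_j)/2`, so `PC(s)` is
`O(s^K e^(-s))` (as `e_j ≥ 1`), integrable on `(s0, infinity)`; the terms of `PA` with `m_i < 0` are
integrable there too; so the part of `PA` with `m_i ≥ 0` is, and `St_EP` (with `A_i` replaced by
`0` and `m_i` by `0` when `m_i < 0`, or over a subtype) says that all coefficients of `PA` with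
exponent `≥ 0` vanish. (b) At `-infinity`: apply `St_EP` to `s ↦ F(-s)`: the terms with
`m_i < 0` become exponentials with exponents `-m_i > 0`, the terms with `m_i ≥ 0` cancel by (a)
(their coefficients vanish), and `PC(-s) = sum_j C_j (-s)^(k_j) + O(s^K e^(-s))` because
`|(1+u)^(-e) - 1| ≤ c_e |u|` for `|u| ≤ 1/2`. So the coefficients with `m_i < 0` vanish,
and the coefficients `(-1)^(k0) sum_{k_j = k0} C_j` of exponent `0` vanish. Finally
`PA` is zero: group its sum by the pairs `(m_i, kap_i)`. -/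
def St_ASY : Prop := ∀ (ι ι' : Type) [Fintype ι] [Fintype ι'] (A : ι → ℂ) (m : ι → ℝ)
  (kap : ι → ℕ) (C : ι' → ℂ) (k e : ι' → ℕ) (l : ι' → ℂ), (∀ j, 1 ≤ e j) →
  Integrable (fun s : ℝ => PA A m kap s + PC C k e l (s : ℂ)) →
  (∀ s : ℝ, PA A m kap s = 0) ∧ ∀ k0 : ℕ, ∑ j, (if k j = k0 then C j else 0) = 0

/-- [DEC] Exponential decay of `PC` in a strip.
Proof. Right end: `|1+e^(z+l)| ≥ e^(x + Re l) - 1 ≥ e^(x + Re l)/2` for `x` large, so each term is
`O(|z|^k e^(-x))`, `|z| ≤ |x| + 1`. Left end: grouping by `k_j`, `sum_j C_j z^(k_j) = 0`, so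
`PC z = sum_j C_j z^(k_j) [((1+u_j)⁻¹)^(e_j) - 1]`, `u_j = e^(z+l_j)`, `|u_j| = e^(x + Re l_j)`
and `|((1+u)⁻¹)^e - 1| ≤ c_e |u|` for `|u| ≤ 1/2`. -/
def St_DEC : Prop := ∀ (ι : Type) [Fintype ι] (C : ι → ℂ) (k e : ι → ℕ) (l : ι → ℂ),
  (∀ j, 1 ≤ e j) → (∀ k0 : ℕ, ∑ j, (if k j = k0 then C j else 0) = 0) →
  ∃ R M : ℝ, 0 < R ∧ 0 < M ∧ ∀ z : ℂ, |z.im| ≤ 1 → R ≤ |z.re| →
    ‖PC C k e l z‖ ≤ M * Real.exp (-(|z.re| / 2))

/-- [BDD] If `PC` is integrable on the real line, it is bounded near every real point `p`.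
Proof. `PC C k e l` is meromorphic at `p`. If its order at `p` is `≥ 0` it has a limit
in the punctured neighbourhood (`MeromorphicAt.tendsto_nhds_of_meromorphicOrderAt_nonneg` or
`tendsto_nhds_iff_meromorphicOrderAt_nonneg`), hence is bounded there. If the order is `-m < 0`
then `PC z = (z-p)^(-m) g(z)` in a punctured neighbourhood, `g` analytic, `g(p) ≠ 0`
(`meromorphicOrderAt_eq_int_iff`), so `(s-p)⁻¹ = O(PC s)` for real `s → p`, `s ≠ p`, and
`not_intervalIntegrable_of_sub_inv_isBigO_punctured` contradicts integrability. -/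
def St_BDD : Prop := ∀ (ι : Type) [Fintype ι] (C : ι → ℂ) (k e : ι → ℕ) (l : ι → ℂ),
  Integrable (fun s : ℝ => PC C k e l (s : ℂ)) → ∀ p : ℝ, ∃ rho M : ℝ, 0 < rho ∧
    ∀ z : ℂ, z ≠ (p : ℂ) → ‖z - (p : ℂ)‖ < rho → ‖PC C k e l z‖ ≤ M

/-- [ONE] The one-variable theorem (helper72). Hypotheses of the module: `St_ASY`, `St_DEC`,
`St_BDD`.
Proof. By `St_ASY` the `A`-part is zero and the sums of the `C_j` with equal `k_j` vanish. For
small `delta > 0` the integral of `PC(s - i delta)` is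
`sum_j C_j sum_i binom(k_j,i) (-i delta)^(k_j-i) J i e_j (l_j - i delta)` (the terms with
`1_{s<0}` cancel), with `J` a polynomial in `l`; as `delta → 0+` it tends to
`sum_j C_j QQ (k_j) (e_j) (l_j)`, and by dominated convergence (`St_BDD`, `St_DEC`) to the
integral of `PC(s)`. -/
def St_ONE : Prop := ∀ (ι ι' : Type) [Fintype ι] [Fintype ι'] (A : ι → ℂ) (m : ι → ℝ)
  (kap : ι → ℕ) (C : ι' → ℂ) (k e : ι' → ℕ) (l : ι' → ℂ), (∀ j, 1 ≤ e j) →
  (∀ j, -Real.pi < (l j).im) → (∀ j, (l j).im ≤ Real.pi) →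
  Integrable (fun s : ℝ => PA A m kap s + PC C k e l (s : ℂ)) →
  (∫ s : ℝ, (PA A m kap s + PC C k e l (s : ℂ))) = ∑ j, C j * QQ (k j) (e j) (l j)

/-! ## Block B: algebra -/

/-- [PF] Partial fractions with roots of unity.
Proof. Let `eta = exp(2 pi i/m)`, `eta^m = 1`; `(eta^j z)^m = z^m ≠ 1`, so
`(1 - eta^j z)⁻¹ = (sum_{i<m} (eta^j z)^i) (1 - z^m)⁻¹` (geometric sum). Sum over `j`:
`sum_j eta^(i j) = 0` for `0 < i < m` (`IsPrimitiveRoot.geom_sum_eq_zero` for powers, or
`(eta^i)^m = 1` and `eta^i ≠ 1`), and `= m` for `i = 0`. -/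
def St_PF : Prop := ∀ (m : ℕ) (z : ℂ), 1 ≤ m → z ^ m ≠ 1 →
  ∑ j ∈ Finset.range m,
    (1 - Complex.exp (2 * (Real.pi : ℂ) * Complex.I * (j : ℂ) / (m : ℂ)) * z)⁻¹ =
    (m : ℂ) * (1 - z ^ m)⁻¹

/-- [AE] Zero sets are null: if `(v, q)` is not trivial (`v ≠ 0`, or `q` is not an even integer)
then `E v q t ≠ 1` for almost every `t`.
Proof. `E v q t = 1` forces `lin v t = 0` (absolute value). If `v ≠ 0` this is a proper
hyperplane (`MeasureTheory.Measure.addHaar_submodule` /
`MeasureTheory.Measure.addHaar_affineSubspace`, or Fubini). If `v = 0` then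
`exp(i pi q) = 1` iff `q` is an even integer (`Complex.exp_eq_one_iff`). Second part:
`E v q (t) * exp((s : ℂ)/N) = 1` for at most one real `s`, a null set. -/
def St_AE : Prop :=
  (∀ (n : ℕ) (v : Fin n → ℚ) (q : ℚ), (v ≠ 0 ∨ ∀ a : ℤ, q ≠ 2 * a) →
    ∀ᵐ t : Fin n → ℝ, E v q t ≠ 1) ∧
  (∀ (n N : ℕ) (v : Fin n → ℚ) (q : ℚ) (t : Fin n → ℝ), 1 ≤ N →
    ∀ᵐ s : ℝ, 1 - E v q t * Complex.exp ((s : ℂ) / (N : ℂ)) ≠ 0)

/-- [MUL] The normal forms are closed under products. Hypothesis of the module: `St_AE`.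
Proof. `AeEq` is compatible with sums and products and is an equivalence relation, so by
`AddSubgroup.closure_induction` twice it suffices to treat generators
(coefficients `c, c'` in `T0 n` multiply). Write `y = e^(s/N)`, `b = E v q t ≠ 0`,
`u = (1 - b y)⁻¹`; for a.e. `s`, `1 - b y ≠ 0`.
(i) `y^m y^(m') = y^(m+m')`.
(ii) `y^m u^e` lies in `SN` modulo `AeEq` for all `e ≥ 0` and all integers `m`: from
`y u^e = b⁻¹ (u^e - u^(e-1))` and `y⁻¹ u^e = y⁻¹ u^(e-1) + b u^e` (`e ≥ 1`) by induction on `e`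
and on `|m|` (`b⁻¹ = E (-v) (-q) t`; powers of `b` are in `T0 n`).
(iii) `u^e u'^(e')` with `u' = (1 - b' y)⁻¹`: if `v = v'` and `q - q'` is an even integer then
`b = b'` and it is `u^(e+e')`. Otherwise for a.e. `t` `b' /b = E (v'-v) (q'-q) t ≠ 1`, and
`u u' = (1 - b'/b)⁻¹ u + (1 - b/b')⁻¹ u'` where `(1 - E (v'-v) (q'-q) t)⁻¹` and
`(1 - E (v-v') (q-q') t)⁻¹` are in `T0 n`; induction on `e + e'`
(`u^e u'^(e') = (u u') u^(e-1) u'^(e'-1)`). -/
def St_MUL : Prop := ∀ (n N : ℕ) (f g : (Fin (n + 1) → ℝ) → ℂ), 1 ≤ N →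
  f ∈ SN n N → g ∈ SN n N → ∃ h ∈ SN n N, AeEq n (fun x => f x * g x) h

/-- [NF] Normal form for weight zero. Hypotheses of the module: `St_PF`, `St_AE`, `St_MUL`.
Proof. The set of `h` with the property is a subring: for sums and products take
`N0 = N0(h) N0(h')` (`AeEq` is compatible with them), products by `St_MUL`, negatives trivially. It
contains the generators (write `v = (v0, v')`, `E v q (cons s t) = E v' q t * e^(v0 s)`):
constants (`m = 0`); `E v q`: `N0 =` denominator of `v0`, `m = v0 N`; `(1 - E v q)⁻¹`: if `v0 = 0`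
it is a function of `t` in `T0 n` (times `y^0`). If `m = v0 N > 0` (an integer, `N0 | N`):
`E v q (cons s t) = z^m` with `z = E (v'/m) (q/m) t * e^(s/N)` and, off a null set of `s`, `St_PF`
gives `(1 - z^m)⁻¹ = (1/m) sum_{j<m} (1 - E (v'/m) ((q+2j)/m) t * e^(s/N))⁻¹`. If `m < 0`:
`(1 - w)⁻¹ = 1 - (1 - w⁻¹)⁻¹` for `w ≠ 0, 1` and `w⁻¹ = E (-v) (-q) (cons s t)` reduces to the
previous case. (`w = E v q (cons s t) ≠ 1` for a.e. `s` because `v0 ≠ 0`: `|w| = 1` for only one
`s`.) -/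
def St_NF : Prop := ∀ (n : ℕ) (h : (Fin (n + 1) → ℝ) → ℂ), h ∈ T0 (n + 1) →
  ∃ N0 : ℕ, 1 ≤ N0 ∧ ∀ N : ℕ, 1 ≤ N → N0 ∣ N → ∃ h' ∈ SN n N, AeEq n h h'

/-- [WM] Weights are multiplicative, and elementary memberships.
Proof. (1) closure induction in both variables (`AddSubgroup.closure_induction`), product of two
generators is a generator with `p + p'`, `k + k'`, `h h'`; (2) monotone: generators; (3) `T0 n` is
weight `0` (`p = 0`, `k = 0`); (4) `lin v t = sum v_i t_i` (generator with `k = e_i`, `h` the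
constant `v_i`); (5) `c pi^j`. -/
def St_WM : Prop :=
  (∀ (n a b : ℕ) (f g : (Fin n → ℝ) → ℂ), f ∈ W n a → g ∈ W n b →
    (fun t => f t * g t) ∈ W n (a + b)) ∧
  (∀ (n a b : ℕ), a ≤ b → W n a ≤ W n b) ∧
  (∀ (n : ℕ) (f : (Fin n → ℝ) → ℂ), f ∈ T0 n → f ∈ W n 0) ∧
  (∀ (n : ℕ) (v : Fin n → ℚ), (fun t => (lin v t : ℂ)) ∈ W n 1) ∧
  (∀ (n j : ℕ) (c : ℂ), IsAlgebraic ℚ c → (fun _ => c * (Real.pi : ℂ) ^ j) ∈ W n j)

/-- [QW] The value polynomials have weight `k + 1`. Hypothesis of the module: `St_WM`.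
Proof. `l(t) = lin v t + q pi i` is in `W n 1`; `(-l)^a` is in `W n a`; `J j e 0` is a rational
combination of `pi^i`, `i ≤ j + 1`, so it is in `W n (j+1)`; add up. -/
def St_QW : Prop := ∀ (n k e : ℕ) (v : Fin n → ℚ) (q : ℚ), 1 ≤ e →
  (fun t => QQ k e ((lin v t : ℂ) + (q : ℂ) * (Real.pi : ℂ) * Complex.I)) ∈ W n (k + 1)

/-- Normal form of a function of weight `w`, step `N`. -/
def NFW (n w N : ℕ) (f : (Fin (n + 1) → ℝ) → ℂ) : Prop :=
  ∃ (r r' : ℕ) (u : Fin r → (Fin n → ℝ) → ℂ) (kap : Fin r → ℕ) (m : Fin r → ℤ)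
    (u' : Fin r' → (Fin n → ℝ) → ℂ) (k e : Fin r' → ℕ) (v : Fin r' → Fin n → ℚ)
    (q : Fin r' → ℚ), (∀ j, 1 ≤ e j) ∧ (∀ j, k j ≤ w ∧ u' j ∈ W n (w - k j)) ∧
    AeEq n f (fun x => (∑ i, u i (Fin.tail x) * (x 0 : ℂ) ^ (kap i) *
        Complex.exp ((m i : ℂ) * (x 0 : ℂ) / (N : ℂ))) +
      ∑ j, u' j (Fin.tail x) * (x 0 : ℂ) ^ (k j) *
        ((1 - E (v j) (q j) (Fin.tail x) * Complex.exp ((x 0 : ℂ) / (N : ℂ)))⁻¹) ^ (e j))

/-- [NFW] Hypotheses of the module: `St_NF`, `St_WM`.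
Proof. First show that for every `f` in `W (n+1) w` there is `N0 ≥ 1` such that `NFW n w N f` for
every `N ≥ 1` with `N0 ∣ N`, by closure induction. Sums: concatenate the families
(`Fin.append`, or first prove it with arbitrary finite index types and transport by
`Fintype.equivFin`), `N0 N0'`. Negatives: negate `u`, `u'`. Generator
`pi^p (s^(kap 0) t^(kap')) h`: apply `St_NF` to `h`; `h'` in `SN n N` is a finite sum of
basic functions (closure induction again: the property of `g` that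
`x ↦ pi^p x^kap g(x)` satisfies `NFW n w N` is closed under sums and negatives, and holds for the
two types of generators of `SN`: `u' = pi^p t^(kap') c(t)` has weight `p + |kap'| ≤ w - kap 0`). -/
def St_NFW : Prop := ∀ (n w : ℕ) (f : (Fin (n + 1) → ℝ) → ℂ), f ∈ W (n + 1) w →
  ∃ N : ℕ, 1 ≤ N ∧ NFW n w N f

/-! ## Block C: integration -/

/-- [PAR] Integration over one variable raises the weight by one. Hypotheses of the module:
`St_ONE`, `St_QW`, `St_WM`, `St_NFW`.
Proof. Take the normal form of `f`, step `N`. For each `j` let `q'_j` be the rational number in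
`(-1, 1]` with `q'_j - q_j - 1` an even integer, `l_j(t) = lin v_j t + q'_j pi i`, so that
`E v_j q_j t = - exp(l_j(t))`, `-pi < Im l_j ≤ pi`. Put
`g(t) = sum_j u'_j(t) N^(k_j + 1) QQ (k_j) (e_j) (l_j(t))`, in `W n (w+1)` by `St_QW`, `St_WM`
(`(w - k_j) + (k_j + 1) = w + 1`). For almost every `t` the two sides of the normal form agree for
almost every `s`. If `s ↦ f(cons s t)` is integrable, substitute `s = N x`
(`MeasureTheory.Measure.integral_comp_mul_left` and `integrable_comp_mul_left_iff`, or `smul`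
versions; images of null sets are null): the integral is `N` times the integral of
`PA + PC` with `A_i = u_i(t) N^(kap_i)`, exponents `m_i`, `C_j = u'_j(t) N^(k_j)`, and `St_ONE`
applies. -/
def St_PAR : Prop := ∀ (n w : ℕ) (f : (Fin (n + 1) → ℝ) → ℂ), f ∈ W (n + 1) w →
  ∃ g ∈ W n (w + 1), ∀ᵐ t : Fin n → ℝ, Integrable (fun s : ℝ => f (Fin.cons s t)) →
    (∫ s : ℝ, f (Fin.cons s t)) = g t

/-- [FUB] Hypothesis of the module: `St_PAR`.
Proof. Induction on `n`. `n = 0`: `Fin 0 → ℝ` is a point of mass `1`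
(`MeasureTheory.integral_unique`, `Measure.pi_of_empty`/`volume_pi`), `g = f`. Step: `e =
MeasurableEquiv.piFinSuccAbove (fun _ => ℝ) 0` is measure preserving onto `ℝ × (Fin n → ℝ)`
(`MeasureTheory.volume_preserving_piFinSuccAbove`) and its inverse is `(s, t) ↦ Fin.cons s t`
(`Fin.insertNth 0`). So `(s,t) ↦ f (cons s t)` is integrable on the product; for almost every `t`
the slice is integrable (`MeasureTheory.Integrable.prod_left_ae`), the function
`t ↦ ∫ s, f (cons s t)` is integrable with integral `∫ f`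
(`MeasureTheory.integral_prod_symm`), and by `St_PAR` it is a.e. equal to `g` in
`W n (w+1)`; apply the induction hypothesis to `g`. -/
def St_FUB : Prop := ∀ (n w : ℕ) (f : (Fin n → ℝ) → ℂ), f ∈ W n w → Integrable f →
  ∃ g ∈ W 0 (w + n), (∫ t : Fin n → ℝ, f t) = g default

/-- [ZERO] Weight `w` functions on the point are polynomials in `pi` of degree at most `w`
with algebraic coefficients.
Proof. Closure induction. Values of `T0 0` at the point are algebraic: `E v q default =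
exp(i pi q)` is a root of unity (`q = a/b`: its `2b`-th power is `1`), inverses, sums
and products of algebraic numbers are algebraic. The generator is `pi^p * alg` with `p ≤ w`
(`Polynomial.monomial`). -/
def St_ZERO : Prop := ∀ (w : ℕ) (g : (Fin 0 → ℝ) → ℂ), g ∈ W 0 w →
  ∃ p : Polynomial ℂ, (∀ i, IsAlgebraic ℚ (p.coeff i)) ∧ p.natDegree ≤ w ∧
    g default = p.eval (Real.pi : ℂ)

/-- [CV] The change of variables `x_i = exp t_i`.
Proof. `T t = (exp t_i)_i` is injective on `R^n` with image the orthant; its derivative at `t` is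
the diagonal map with determinant `prod exp t_i = exp (sum t_i) > 0`. Use
`MeasureTheory.integrableOn_image_iff_integrableOn_abs_det_fderiv_smul` and
`MeasureTheory.integral_image_eq_integral_abs_det_fderiv_smul` on `Set.univ`
(the derivative is `ContinuousLinearMap.pi (fun i => exp (t i) • ContinuousLinearMap.proj i)`; its
determinant by `LinearMap.toMatrix'`, `Matrix.det_diagonal`). -/
def St_CV : Prop := ∀ (n : ℕ) (F : (Fin n → ℝ) → ℂ), IntegrableOn F (orthant n) →
  Integrable (fun t : Fin n → ℝ => (Real.exp (∑ i, t i) : ℂ) * F (fun i => Real.exp (t i))) ∧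
  (∫ x in orthant n, F x) =
    ∫ t : Fin n → ℝ, (Real.exp (∑ i, t i) : ℂ) * F (fun i => Real.exp (t i))

/-- [TW] The toric integrand in exponential coordinates has weight at most its logarithmic
degree. Hypothesis of the module: `St_WM`.
Proof. `mono a (exp t) = exp (lin a t) = E a 0 t`, `log (exp t_i) = t_i`; a root of unity `z_j`
is `exp(i pi q_j)` with `q_j` rational (`Complex.mem_rootsOfUnity`, or: `z^N = 1` gives
`z = exp(2 pi i a/N)`), so `1 - z_j * mono = 1 - E m_j q_j`, and the division is the product of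
the inverses, in `T0 n`. The numerator term is `c_i E a_i 0 t^(k_i)` with `|k_i| ≤ d`: a
generator of `W n d` with `p = 0` after multiplication with the inverses and with
`exp (sum t_i) = E 1 0 t`. -/
def St_TW : Prop := ∀ (n d r J : ℕ) (c : Fin r → ℂ) (a : Fin r → Fin n → ℚ)
  (k : Fin r → Fin n → ℕ) (z : Fin J → ℂ) (m : Fin J → Fin n → ℚ),
  (∀ i, IsAlgebraic ℚ (c i)) → (∀ i, ∑ l, k i l ≤ d) →
  (∀ j, ∃ N : ℕ, 0 < N ∧ z j ^ N = 1) →
  (fun t : Fin n → ℝ => (Real.exp (∑ i, t i) : ℂ) *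
    toricIntegrand c a k z m (fun i => Real.exp (t i))) ∈ W n d

/-- [DEG] The degree theorem. Hypotheses of the module: `St_FUB`, `St_ZERO`, `St_CV`, `St_TW`.
Proof. Compose. -/
def St_DEG : Prop := ∀ (n d : ℕ) (v : ℂ), IsToricPeriodOf n d v →
  ∃ p : Polynomial ℂ, (∀ i, IsAlgebraic ℚ (p.coeff i)) ∧ p.natDegree ≤ n + d ∧
    v = p.eval (Real.pi : ℂ)

/-- [PI] `pi` is a toric period (`n = 1`, `d = 0`): `pi = ∫ 2 dx/(1 + x^2)` over `(0, infinity)`.
Proof. `n = 1`, `r = 1`, `J = 1`, `c = 2`, `a = 0`, `k = 0`, `z = -1`, `m = 2`: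
`toricIntegrand = 2 / (1 + x^2)`. Transport the integral from `Fin 1 → ℝ` to `ℝ`
(`MeasurableEquiv.funUnique`, `MeasureTheory.volume_preserving_funUnique`), then
`integrable_inv_one_add_sq`, `integral_Ioi_inv_one_add_sq` (or `integral_univ_inv_one_add_sq`). -/
def St_PI : Prop := IsToricPeriodOf 1 0 (Real.pi : ℂ)

/-- [MAIN] Hypotheses of the module: `St_DEG`, `St_PI`; transcendence of `pi` from
`Pool.Agent.Helper21.PiTrans` (see `transcendental_pi`).
Proof. The degree theorem is the first part. Second part: each toric period is in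
`Algebra.adjoin (algebraicClosure ℚ ℂ) {pi}` by `St_DEG` (coefficients in the algebraic closure),
and `pi` is a toric period. Third part: if `1/pi = p(pi)` with algebraic coefficients then
`X p(X) - 1` is a nonzero polynomial over the field of algebraic numbers with root `pi`, so `pi` is
algebraic over it, hence over `Q`: contradiction. -/
def St_MAIN : Prop :=
  (∀ (n d : ℕ) (v : ℂ), IsToricPeriodOf n d v →
    ∃ p : Polynomial ℂ, (∀ i, IsAlgebraic ℚ (p.coeff i)) ∧ p.natDegree ≤ n + d ∧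
      v = p.eval (Real.pi : ℂ)) ∧
  Algebra.adjoin (algebraicClosure ℚ ℂ) {v : ℂ | IsToricPeriod v} =
    Algebra.adjoin (algebraicClosure ℚ ℂ) {(Real.pi : ℂ)} ∧
  ((Real.pi : ℂ))⁻¹ ∉ Algebra.adjoin (algebraicClosure ℚ ℂ) {v : ℂ | IsToricPeriod v}

end TPER
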