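import Mathlib
import Pool.Agent.TPER.St

/-!
# Toric periods, module MUL: the normal forms are closed under products
-/

set_option autoImplicit false

namespace TPER

open MeasureTheory Filter Topology

/-! ### equality almost everywhere -/

private lemma MUL_refl {n : ℕ} (f : (Fin (n + 1) → ℝ) → ℂ) : AeEq n f f :=
  ae_of_all _ fun _ => ae_of_all _ fun _ => rfl

private lemma MUL_trans {n : ℕ} {f g h : (Fin (n + 1) → ℝ) → ℂ} (h1 : AeEq n f g)
    (h2 : AeEq n g h) : AeEq n f h := by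
  filter_upwards [h1, h2] with t h3 h4
  filter_upwards [h3, h4] with s h5 h6
  rw [h5, h6]

private lemma MUL_add {n : ℕ} {f g f' g' : (Fin (n + 1) → ℝ) → ℂ} (h1 : AeEq n f g)
    (h2 : AeEq n f' g') : AeEq n (fun x => f x + f' x) (fun x => g x + g' x) := by
  filter_upwards [h1, h2] with t h3 h4
  filter_upwards [h3, h4] with s h5 h6
  rw [h5, h6]

private lemma MUL_neg {n : ℕ} {f g : (Fin (n + 1) → ℝ) → ℂ} (h1 : AeEq n f g) :
    AeEq n (fun x => -f x) (fun x => -g x) := by
  filter_upwards [h1] with t h3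
  filter_upwards [h3] with s h5
  rw [h5]

private lemma MUL_sm {n : ℕ} {f g : (Fin (n + 1) → ℝ) → ℂ} (k : (Fin (n + 1) → ℝ) → ℂ)
    (h1 : AeEq n f g) : AeEq n (fun x => k x * f x) (fun x => k x * g x) := by
  filter_upwards [h1] with t h3
  filter_upwards [h3] with s h5
  rw [h5]

/-! ### the functions `E` -/

private lemma MUL_lin_sub {n : ℕ} (v v' : Fin n → ℚ) (t : Fin n → ℝ) :
    lin (v - v') t = lin v t - lin v' t := by
  simp [lin, sub_mul, Finset.sum_sub_distrib]

private lemma MUL_lin_neg {n : ℕ} (v : Fin n → ℚ) (t : Fin n → ℝ) :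
    lin (-v) t = -lin v t := by
  simp [lin, Finset.sum_neg_distrib]

private lemma MUL_E_ne {n : ℕ} (v : Fin n → ℚ) (q : ℚ) (t : Fin n → ℝ) : E v q t ≠ 0 :=
  Complex.exp_ne_zero _

private lemma MUL_E_sub {n : ℕ} (v v' : Fin n → ℚ) (q q' : ℚ) (t : Fin n → ℝ) :
    E (v - v') (q - q') t * E v' q' t = E v q t := by
  unfold E
  rw [← Complex.exp_add, MUL_lin_sub]
  congr 1
  push_cast
  ring

private lemma MUL_E_neg {n : ℕ} (v : Fin n → ℚ) (q : ℚ) (t : Fin n → ℝ) :
    E (-v) (-q) t * E v q t = 1 := by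
  unfold E
  rw [← Complex.exp_add, MUL_lin_neg, ← Complex.exp_zero]
  congr 1
  push_cast
  ring

private lemma MUL_E_per {n : ℕ} (v : Fin n → ℚ) (q q' : ℚ) (a : ℤ) (h : q - q' = 2 * a) :
    E v q = E v q' := by
  funext t
  unfold E
  have h1 : q = q' + 2 * a := by linarith
  have h2 : (lin v t : ℂ) + (q : ℂ) * (Real.pi : ℂ) * Complex.I =
      ((lin v t : ℂ) + (q' : ℂ) * (Real.pi : ℂ) * Complex.I) +
        (a : ℂ) * (2 * (Real.pi : ℂ) * Complex.I) := by
    rw [h1]
    push_cast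
    ring
  rw [h2]
  exact Complex.exp_periodic.int_mul a _

private lemma MUL_T0_E {n : ℕ} (v : Fin n → ℚ) (q : ℚ) : E v q ∈ T0 n :=
  Subring.subset_closure (Or.inl (Or.inr ⟨v, q, rfl⟩))

private lemma MUL_T0_I {n : ℕ} (v : Fin n → ℚ) (q : ℚ) :
    (fun t => (1 - E v q t)⁻¹) ∈ T0 n :=
  Subring.subset_closure (Or.inr ⟨v, q, rfl⟩)

/-! ### membership modulo null sets -/

/-- membership in `SN` up to equality almost everywhere -/
private def MULm (n N : ℕ) (f : (Fin (n + 1) → ℝ) → ℂ) : Prop := ∃ h ∈ SN n N, AeEq n f h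

private lemma MULm_of {n N : ℕ} {f : (Fin (n + 1) → ℝ) → ℂ} (h : f ∈ SN n N) : MULm n N f :=
  ⟨f, h, MUL_refl f⟩

private lemma MULm_congr {n N : ℕ} {f g : (Fin (n + 1) → ℝ) → ℂ} (h : AeEq n f g)
    (hg : MULm n N g) : MULm n N f := by
  obtain ⟨k, hk, h1⟩ := hg
  exact ⟨k, hk, MUL_trans h h1⟩

private lemma MULm_add {n N : ℕ} {f g : (Fin (n + 1) → ℝ) → ℂ} (hf : MULm n N f)
    (hg : MULm n N g) : MULm n N (fun x => f x + g x) := by
  obtain ⟨k, hk, h1⟩ := hf
  obtain ⟨l, hl, h2⟩ := hg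
  exact ⟨k + l, AddSubgroup.add_mem _ hk hl, MUL_add h1 h2⟩

private lemma MULm_neg {n N : ℕ} {f : (Fin (n + 1) → ℝ) → ℂ} (hf : MULm n N f) :
    MULm n N (fun x => -f x) := by
  obtain ⟨k, hk, h1⟩ := hf
  exact ⟨-k, AddSubgroup.neg_mem _ hk, MUL_neg h1⟩

private lemma SN_g1 {n N : ℕ} (c : (Fin n → ℝ) → ℂ) (hc : c ∈ T0 n) (m : ℤ) :
    (fun x : Fin (n + 1) → ℝ => c (Fin.tail x) * Complex.exp ((m : ℂ) * (x 0 : ℂ) / (N : ℂ))) ∈
      SN n N :=
  AddSubgroup.subset_closure (Or.inl ⟨c, m, hc, rfl⟩)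

private lemma SN_g2 {n N : ℕ} (c : (Fin n → ℝ) → ℂ) (hc : c ∈ T0 n) (v : Fin n → ℚ) (q : ℚ)
    (e : ℕ) (he : 1 ≤ e) :
    (fun x : Fin (n + 1) → ℝ => c (Fin.tail x) *
        ((1 - E v q (Fin.tail x) * Complex.exp ((x 0 : ℂ) / (N : ℂ)))⁻¹) ^ e) ∈ SN n N :=
  AddSubgroup.subset_closure (Or.inr ⟨c, v, q, e, hc, he, rfl⟩)

private lemma SN_smul {n N : ℕ} (c : (Fin n → ℝ) → ℂ) (hc : c ∈ T0 n)
    (f : (Fin (n + 1) → ℝ) → ℂ) (hf : f ∈ SN n N) :
    (fun x => c (Fin.tail x) * f x) ∈ SN n N := by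
  induction hf using AddSubgroup.closure_induction with
  | mem f hf =>
    rcases hf with ⟨c', m, hc', rfl⟩ | ⟨c', v, q, e, hc', he, rfl⟩
    · have h1 := SN_g1 (N := N) (c * c') (Subring.mul_mem _ hc hc') m
      have h2 : (fun x : Fin (n + 1) → ℝ => c (Fin.tail x) *
          (c' (Fin.tail x) * Complex.exp ((m : ℂ) * (x 0 : ℂ) / (N : ℂ)))) =
          fun x => (c * c') (Fin.tail x) * Complex.exp ((m : ℂ) * (x 0 : ℂ) / (N : ℂ)) := by
        funext x
        rw [Pi.mul_apply, mul_assoc]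
      rw [h2]
      exact h1
    · have h1 := SN_g2 (N := N) (c * c') (Subring.mul_mem _ hc hc') v q e he
      have h2 : (fun x : Fin (n + 1) → ℝ => c (Fin.tail x) * (c' (Fin.tail x) *
          ((1 - E v q (Fin.tail x) * Complex.exp ((x 0 : ℂ) / (N : ℂ)))⁻¹) ^ e)) =
          fun x => (c * c') (Fin.tail x) *
          ((1 - E v q (Fin.tail x) * Complex.exp ((x 0 : ℂ) / (N : ℂ)))⁻¹) ^ e := by
        funext x
        rw [Pi.mul_apply, mul_assoc]
      rw [h2]
      exact h1
  | zero =>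
    have h2 : (fun x : Fin (n + 1) → ℝ => c (Fin.tail x) *
        (0 : (Fin (n + 1) → ℝ) → ℂ) x) = 0 := by
      funext x
      simp
    rw [h2]
    exact AddSubgroup.zero_mem _
  | add a b _ _ ha hb =>
    have h2 : (fun x : Fin (n + 1) → ℝ => c (Fin.tail x) * (a + b) x) =
        (fun x => c (Fin.tail x) * a x) + fun x => c (Fin.tail x) * b x := by
      funext x
      rw [Pi.add_apply, Pi.add_apply, mul_add]
    rw [h2]
    exact AddSubgroup.add_mem _ ha hb
  | neg a _ ha =>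
    have h2 : (fun x : Fin (n + 1) → ℝ => c (Fin.tail x) * (-a) x) =
        -(fun x => c (Fin.tail x) * a x) := by
      funext x
      rw [Pi.neg_apply, Pi.neg_apply, mul_neg]
    rw [h2]
    exact AddSubgroup.neg_mem _ ha

private lemma MULm_smul {n N : ℕ} (c : (Fin n → ℝ) → ℂ) (hc : c ∈ T0 n)
    {f : (Fin (n + 1) → ℝ) → ℂ} (hf : MULm n N f) :
    MULm n N (fun x => c (Fin.tail x) * f x) := by
  obtain ⟨k, hk, h1⟩ := hf
  exact ⟨_, SN_smul c hc k hk, MUL_sm (fun x => c (Fin.tail x)) h1⟩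

/-! ### products of basic functions -/

/-- `1 / (1 - b y)` -/
private noncomputable def MULu {n : ℕ} (N : ℕ) (v : Fin n → ℚ) (q : ℚ)
    (x : Fin (n + 1) → ℝ) : ℂ :=
  (1 - E v q (Fin.tail x) * Complex.exp ((x 0 : ℂ) / (N : ℂ)))⁻¹

private lemma MULu_ae (h0 : St_AE) {n N : ℕ} (hN : 1 ≤ N) (v : Fin n → ℚ) (q : ℚ) :
    ∀ t : Fin n → ℝ, ∀ᵐ s : ℝ, MULu N v q (Fin.cons s t : Fin (n + 1) → ℝ) *
      (1 - E v q t * Complex.exp ((s : ℂ) / (N : ℂ))) = 1 := by
  intro t
  filter_upwards [h0.2 n N v q t hN] with s hs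
  unfold MULu
  rw [Fin.tail_cons, Fin.cons_zero]
  exact inv_mul_cancel₀ hs

private lemma MUL_yu (h0 : St_AE) {n N : ℕ} (hN : 1 ≤ N) (v : Fin n → ℚ) (q : ℚ) (e : ℕ) :
    ∀ m : ℤ, MULm n N (fun x => Complex.exp ((m : ℂ) * (x 0 : ℂ) / (N : ℂ)) *
      MULu N v q x ^ e) := by
  induction e with
  | zero =>
    intro m
    refine MULm_of ?_
    have h1 := SN_g1 (N := N) (1 : (Fin n → ℝ) → ℂ) (Subring.one_mem _) m
    have h2 : (fun x : Fin (n + 1) → ℝ => Complex.exp ((m : ℂ) * (x 0 : ℂ) / (N : ℂ)) *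
        MULu N v q x ^ 0) = fun x => (1 : (Fin n → ℝ) → ℂ) (Fin.tail x) *
          Complex.exp ((m : ℂ) * (x 0 : ℂ) / (N : ℂ)) := by
      funext x
      rw [pow_zero, Pi.one_apply, one_mul, mul_one]
    rw [h2]
    exact h1
  | succ e ih =>
    have hNC : (N : ℂ) ≠ 0 := by
      have : N ≠ 0 := by omega
      exact_mod_cast this
    intro m
    induction m using Int.induction_on with
    | zero =>
      refine MULm_of ?_
      have h1 := SN_g2 (N := N) (1 : (Fin n → ℝ) → ℂ) (Subring.one_mem _) v q (e + 1)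
        (Nat.le_add_left 1 e)
      have h2 : (fun x : Fin (n + 1) → ℝ => Complex.exp (((0 : ℤ) : ℂ) * (x 0 : ℂ) / (N : ℂ)) *
          MULu N v q x ^ (e + 1)) = fun x => (1 : (Fin n → ℝ) → ℂ) (Fin.tail x) *
          ((1 - E v q (Fin.tail x) * Complex.exp ((x 0 : ℂ) / (N : ℂ)))⁻¹) ^ (e + 1) := by
        funext x
        rw [Pi.one_apply]
        simp [MULu]
      rw [h2]
      exact h1
    | succ m hm =>
      have h3 := MULm_smul (E (-v) (-q)) (MUL_T0_E _ _) (MULm_add hm (MULm_neg (ih (m : ℤ))))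
      refine MULm_congr ?_ h3
      refine ae_of_all _ fun t => ?_
      filter_upwards [MULu_ae h0 hN v q t] with s hs
      simp only [Fin.tail_cons, Fin.cons_zero]
      set u := MULu N v q (Fin.cons s t : Fin (n + 1) → ℝ) with hu
      set y := Complex.exp ((s : ℂ) / (N : ℂ)) with hy
      have h4 : Complex.exp ((((m : ℤ) + 1 : ℤ) : ℂ) * (s : ℂ) / (N : ℂ)) =
          Complex.exp (((m : ℤ) : ℂ) * (s : ℂ) / (N : ℂ)) * y := by
        rw [hy, ← Complex.exp_add]
        congr 1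
        push_cast
        field_simp
      rw [h4]
      set Y := Complex.exp (((m : ℤ) : ℂ) * (s : ℂ) / (N : ℂ)) with hY
      have h5 := MUL_E_neg v q t
      set b := E v q t with hb
      set b' := E (-v) (-q) t with hb'
      have h6 : u * (b * y) = u - 1 := by linear_combination -hs
      calc Y * y * u ^ (e + 1) = (b' * b) * (Y * y * u ^ (e + 1)) := by rw [h5, one_mul]
        _ = b' * (Y * u ^ e * (u * (b * y))) := by ring
        _ = b' * (Y * u ^ e * (u - 1)) := by rw [h6]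
        _ = b' * (Y * u ^ (e + 1) + -(Y * u ^ e)) := by ring
    | pred m hm =>
      have h3 := MULm_add (ih (-(m : ℤ) - 1)) (MULm_smul (E v q) (MUL_T0_E _ _) hm)
      refine MULm_congr ?_ h3
      refine ae_of_all _ fun t => ?_
      filter_upwards [MULu_ae h0 hN v q t] with s hs
      simp only [Fin.tail_cons, Fin.cons_zero]
      set u := MULu N v q (Fin.cons s t : Fin (n + 1) → ℝ) with hu
      set y := Complex.exp ((s : ℂ) / (N : ℂ)) with hy
      have h4 : Complex.exp (((-(m : ℤ) : ℤ) : ℂ) * (s : ℂ) / (N : ℂ)) =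
          Complex.exp (((-(m : ℤ) - 1 : ℤ) : ℂ) * (s : ℂ) / (N : ℂ)) * y := by
        rw [hy, ← Complex.exp_add]
        congr 1
        push_cast
        field_simp
        ring
      rw [h4]
      set Y := Complex.exp (((-(m : ℤ) - 1 : ℤ) : ℂ) * (s : ℂ) / (N : ℂ)) with hY
      set b := E v q t with hb
      have h6 : u = 1 + b * y * u := by linear_combination hs
      calc Y * u ^ (e + 1) = Y * u ^ e * u := by ring
        _ = Y * u ^ e * (1 + b * y * u) := by rw [← h6]
        _ = Y * u ^ e + b * (Y * y * u ^ (e + 1)) := by ring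

private lemma MUL_uu (h0 : St_AE) {n N : ℕ} (hN : 1 ≤ N) (v v' : Fin n → ℚ) (q q' : ℚ) (d : ℕ) :
    ∀ e e' : ℕ, e + e' = d → MULm n N (fun x => MULu N v q x ^ e * MULu N v' q' x ^ e') := by
  induction d with
  | zero =>
    intro e e' he
    have h1 : e = 0 := by omega
    have h2 : e' = 0 := by omega
    subst h1
    subst h2
    have h3 := MUL_yu h0 hN v q 0 0
    refine MULm_congr (ae_of_all _ fun t => ae_of_all _ fun s => ?_) h3
    simp
  | succ d ih =>
    intro e e' he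
    rcases e with _ | e
    · have h3 := MUL_yu h0 hN v' q' e' 0
      refine MULm_congr (ae_of_all _ fun t => ae_of_all _ fun s => ?_) h3
      simp
    rcases e' with _ | e'
    · have h3 := MUL_yu h0 hN v q (e + 1) 0
      refine MULm_congr (ae_of_all _ fun t => ae_of_all _ fun s => ?_) h3
      simp
    by_cases hc : v' - v ≠ 0 ∨ ∀ a : ℤ, q' - q ≠ 2 * a
    · have hc' : v - v' ≠ 0 ∨ ∀ a : ℤ, q - q' ≠ 2 * a := by
        rcases hc with h | h
        · left
          intro h1
          exact h (by rw [← neg_sub, h1, neg_zero])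
        · right
          intro a h1
          refine h (-a) ?_
          push_cast
          linarith
      have i1 := MULm_smul (fun t => (1 - E (v' - v) (q' - q) t)⁻¹) (MUL_T0_I _ _)
        (ih (e + 1) e' (by omega))
      have i2 := MULm_smul (fun t => (1 - E (v - v') (q - q') t)⁻¹) (MUL_T0_I _ _)
        (ih e (e' + 1) (by omega))
      refine MULm_congr ?_ (MULm_add i1 i2)
      filter_upwards [h0.1 n (v' - v) (q' - q) hc, h0.1 n (v - v') (q - q') hc'] with t ht ht'
      filter_upwards [MULu_ae h0 hN v q t, MULu_ae h0 hN v' q' t] with s hs hs'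
      simp only [Fin.tail_cons]
      set u := MULu N v q (Fin.cons s t : Fin (n + 1) → ℝ) with hu
      set u' := MULu N v' q' (Fin.cons s t : Fin (n + 1) → ℝ) with hu'
      set y := Complex.exp ((s : ℂ) / (N : ℂ)) with hy
      have k1 := MUL_E_sub v' v q' q t
      have k2 := MUL_E_sub v v' q q' t
      set b := E v q t with hb
      set b' := E v' q' t with hb'
      set r := E (v' - v) (q' - q) t with hr
      set r' := E (v - v') (q - q') t with hr'
      have hb0 : b ≠ 0 := MUL_E_ne v q t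
      have hb0' : b' ≠ 0 := MUL_E_ne v' q' t
      have hr1 : 1 - r ≠ 0 := fun h => ht (by linear_combination -h)
      have hr1' : 1 - r' ≠ 0 := fun h => ht' (by linear_combination -h)
      have hrr : r * r' = 1 := by
        have : b' * (r * r') = b' * 1 := by
          calc b' * (r * r') = r * (r' * b') := by ring
            _ = r * b := by rw [k2]
            _ = b' * 1 := by rw [k1, mul_one]
        exact mul_left_cancel₀ hb0' this
      have hu0 : u ≠ 0 := left_ne_zero_of_mul_eq_one hs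
      have hu0' : u' ≠ 0 := left_ne_zero_of_mul_eq_one hs'
      have key : u * u' = (1 - r)⁻¹ * u + (1 - r')⁻¹ * u' := by
        have a1 : (1 - r') * r = -(1 - r) := by linear_combination -hrr
        have a2 : (1 - r')⁻¹ = -(r * (1 - r)⁻¹) := by
          field_simp
          linear_combination a1
        rw [a2]
        have a3 : (1 - r) * (u * u') = u - r * u' := by
          have a4 : u = u * (u' * (1 - b' * y)) := by rw [hs', mul_one]
          have a5 : u' = u' * (u * (1 - b * y)) := by rw [hs, mul_one]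
          have a6 : r * b = b' := k1
          calc (1 - r) * (u * u') = u * (u' * (1 - b' * y)) - r * (u' * (u * (1 - b * y))) +
                (u * u' * y) * (b' - r * b) := by ring
            _ = u - r * u' := by rw [← a4, ← a5, a6, sub_self, mul_zero, add_zero]
        have a7 : u * u' = (1 - r)⁻¹ * (u - r * u') := by
          rw [← a3, inv_mul_cancel_left₀ hr1]
        rw [a7]
        ring
      calc u ^ (e + 1) * u' ^ (e' + 1) = (u * u') * (u ^ e * u' ^ e') := by ring
        _ = ((1 - r)⁻¹ * u + (1 - r')⁻¹ * u') * (u ^ e * u' ^ e') := by rw [key]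
        _ = (1 - r)⁻¹ * (u ^ (e + 1) * u' ^ e') + (1 - r')⁻¹ * (u ^ e * u' ^ (e' + 1)) := by
          ring
    · push Not at hc
      obtain ⟨h1, a, h2⟩ := hc
      have h3 : v' = v := sub_eq_zero.1 h1
      subst h3
      have h4 : MULu N v' q' = MULu N v' q := by
        funext x
        unfold MULu
        rw [MUL_E_per v' q' q a h2]
      have h5 := MUL_yu h0 hN v' q (e + 1 + (e' + 1)) 0
      refine MULm_congr (ae_of_all _ fun t => ae_of_all _ fun s => ?_) h5
      rw [h4]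
      simp [pow_add]

private lemma MUL_gen (h0 : St_AE) {n N : ℕ} (hN : 1 ≤ N) (f g : (Fin (n + 1) → ℝ) → ℂ)
    (hf : f ∈ ({f | ∃ (c : (Fin n → ℝ) → ℂ) (m : ℤ), c ∈ T0 n ∧
      f = fun x => c (Fin.tail x) * Complex.exp ((m : ℂ) * (x 0 : ℂ) / (N : ℂ))} ∪
    {f | ∃ (c : (Fin n → ℝ) → ℂ) (v : Fin n → ℚ) (q : ℚ) (e : ℕ), c ∈ T0 n ∧ 1 ≤ e ∧
      f = fun x => c (Fin.tail x) *
        ((1 - E v q (Fin.tail x) * Complex.exp ((x 0 : ℂ) / (N : ℂ)))⁻¹) ^ e} :
      Set ((Fin (n + 1) → ℝ) → ℂ)))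
    (hg : g ∈ ({f | ∃ (c : (Fin n → ℝ) → ℂ) (m : ℤ), c ∈ T0 n ∧
      f = fun x => c (Fin.tail x) * Complex.exp ((m : ℂ) * (x 0 : ℂ) / (N : ℂ))} ∪
    {f | ∃ (c : (Fin n → ℝ) → ℂ) (v : Fin n → ℚ) (q : ℚ) (e : ℕ), c ∈ T0 n ∧ 1 ≤ e ∧
      f = fun x => c (Fin.tail x) *
        ((1 - E v q (Fin.tail x) * Complex.exp ((x 0 : ℂ) / (N : ℂ)))⁻¹) ^ e} :
      Set ((Fin (n + 1) → ℝ) → ℂ))) :
    MULm n N (fun x => f x * g x) := by
  rcases hf with ⟨c, m, hc, rfl⟩ | ⟨c, v, q, e, hc, he, rfl⟩ <;>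
    rcases hg with ⟨c', m', hc', rfl⟩ | ⟨c', v', q', e', hc', he', rfl⟩
  · have h1 := MULm_smul (c * c') (Subring.mul_mem _ hc hc') (MUL_yu h0 hN 0 0 0 (m + m'))
    refine MULm_congr (ae_of_all _ fun t => ae_of_all _ fun s => ?_) h1
    simp only [Fin.tail_cons, Fin.cons_zero, Pi.mul_apply, pow_zero, mul_one]
    have h2 : Complex.exp (((m + m' : ℤ) : ℂ) * (s : ℂ) / (N : ℂ)) =
        Complex.exp ((m : ℂ) * (s : ℂ) / (N : ℂ)) *
          Complex.exp ((m' : ℂ) * (s : ℂ) / (N : ℂ)) := by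
      rw [← Complex.exp_add]
      congr 1
      push_cast
      ring
    rw [h2]
    ring
  · have h1 := MULm_smul (c * c') (Subring.mul_mem _ hc hc') (MUL_yu h0 hN v' q' e' m)
    refine MULm_congr (ae_of_all _ fun t => ae_of_all _ fun s => ?_) h1
    simp only [Fin.tail_cons, Fin.cons_zero, Pi.mul_apply, MULu]
    ring
  · have h1 := MULm_smul (c * c') (Subring.mul_mem _ hc hc') (MUL_yu h0 hN v q e m')
    refine MULm_congr (ae_of_all _ fun t => ae_of_all _ fun s => ?_) h1
    simp only [Fin.tail_cons, Fin.cons_zero, Pi.mul_apply, MULu]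
    ring
  · have h1 := MULm_smul (c * c') (Subring.mul_mem _ hc hc')
      (MUL_uu h0 hN v v' q q' _ e e' rfl)
    refine MULm_congr (ae_of_all _ fun t => ae_of_all _ fun s => ?_) h1
    simp only [Fin.tail_cons, Fin.cons_zero, Pi.mul_apply, MULu]
    ring

theorem thm_MUL (h0 : St_AE) : St_MUL := by
  intro n N f g hN hf hg
  change MULm n N (fun x => f x * g x)
  unfold SN at hf
  induction hf using AddSubgroup.closure_induction with
  | mem f hf =>
    unfold SN at hg
    induction hg using AddSubgroup.closure_induction with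
    | mem g hg => exact MUL_gen h0 hN f g hf hg
    | zero =>
      refine MULm_congr (ae_of_all _ fun t => ae_of_all _ fun s => ?_)
        (MULm_of (AddSubgroup.zero_mem (SN n N)))
      simp
    | add a b _ _ ha hb =>
      refine MULm_congr (ae_of_all _ fun t => ae_of_all _ fun s => ?_) (MULm_add ha hb)
      simp only [Pi.add_apply]
      ring
    | neg a _ ha =>
      refine MULm_congr (ae_of_all _ fun t => ae_of_all _ fun s => ?_) (MULm_neg ha)
      simp only [Pi.neg_apply]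
      ring
  | zero =>
    refine MULm_congr (ae_of_all _ fun t => ae_of_all _ fun s => ?_)
      (MULm_of (AddSubgroup.zero_mem (SN n N)))
    simp
  | add a b _ _ ha hb =>
    refine MULm_congr (ae_of_all _ fun t => ae_of_all _ fun s => ?_) (MULm_add ha hb)
    simp only [Pi.add_apply]
    ring
  | neg a _ ha =>
    refine MULm_congr (ae_of_all _ fun t => ae_of_all _ fun s => ?_) (MULm_neg ha)
    simp only [Pi.neg_apply]
    ring

end TPER
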