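import Pool.Agent.TPER.St

/-!
# Toric periods, module NF: normal form of the functions of weight zero
-/

set_option autoImplicit false

namespace TPER

open MeasureTheory Filter Topology

private lemma NF_refl {n : ℕ} (f : (Fin (n + 1) → ℝ) → ℂ) : AeEq n f f :=
  ae_of_all _ fun _ => ae_of_all _ fun _ => rfl

private lemma NF_trans {n : ℕ} {f g h : (Fin (n + 1) → ℝ) → ℂ} (h1 : AeEq n f g)
    (h2 : AeEq n g h) : AeEq n f h := by
  filter_upwards [h1, h2] with t h3 h4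
  filter_upwards [h3, h4] with s h5 h6
  rw [h5, h6]

private lemma NF_add {n : ℕ} {f g f' g' : (Fin (n + 1) → ℝ) → ℂ} (h1 : AeEq n f g)
    (h2 : AeEq n f' g') : AeEq n (f + f') (g + g') := by
  filter_upwards [h1, h2] with t h3 h4
  filter_upwards [h3, h4] with s h5 h6
  rw [Pi.add_apply, Pi.add_apply, h5, h6]

private lemma NF_mul {n : ℕ} {f g f' g' : (Fin (n + 1) → ℝ) → ℂ} (h1 : AeEq n f g)
    (h2 : AeEq n f' g') : AeEq n (f * f') (fun x => g x * g' x) := by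
  filter_upwards [h1, h2] with t h3 h4
  filter_upwards [h3, h4] with s h5 h6
  rw [Pi.mul_apply, h5, h6]

private lemma NF_neg {n : ℕ} {f g : (Fin (n + 1) → ℝ) → ℂ} (h1 : AeEq n f g) :
    AeEq n (-f) (-g) := by
  filter_upwards [h1] with t h3
  filter_upwards [h3] with s h5
  rw [Pi.neg_apply, Pi.neg_apply, h5]

private lemma NF_lin {n : ℕ} (v : Fin (n + 1) → ℚ) (s : ℝ) (t : Fin n → ℝ) :
    lin v (Fin.cons s t : Fin (n + 1) → ℝ) = (v 0 : ℝ) * s + lin (Fin.tail v) t := by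
  unfold lin
  rw [Fin.sum_univ_succ, Fin.cons_zero]
  simp only [Fin.cons_succ]
  rfl

private lemma NF_E {n : ℕ} (v : Fin (n + 1) → ℚ) (q : ℚ) (s : ℝ) (t : Fin n → ℝ) :
    E v q (Fin.cons s t : Fin (n + 1) → ℝ) =
      E (Fin.tail v) q t * Complex.exp ((v 0 : ℂ) * (s : ℂ)) := by
  unfold E
  rw [← Complex.exp_add, NF_lin]
  congr 1
  push_cast
  ring

private lemma NF_exp {N : ℕ} (hN : 1 ≤ N) {a : ℚ} {m : ℤ} (hm : (m : ℚ) = a * N) (s : ℝ) :
    Complex.exp ((a : ℂ) * (s : ℂ)) = Complex.exp ((m : ℂ) * (s : ℂ) / (N : ℂ)) := by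
  have hNC : (N : ℂ) ≠ 0 := by
    have : N ≠ 0 := by omega
    exact_mod_cast this
  have h1 : (m : ℂ) = (a : ℂ) * (N : ℂ) := by
    have h2 : (((m : ℤ) : ℚ) : ℂ) = ((a * N : ℚ) : ℂ) := by rw [hm]
    push_cast at h2
    exact h2
  rw [h1]
  congr 1
  field_simp

private lemma NF_int {N : ℕ} (a : ℚ) (h : a.den ∣ N) : ∃ m : ℤ, (m : ℚ) = a * N := by
  obtain ⟨k, rfl⟩ := h
  refine ⟨a.num * k, ?_⟩
  push_cast
  rw [← mul_assoc, Rat.mul_den_eq_num]

private lemma NF_g1 {n N : ℕ} (c : (Fin n → ℝ) → ℂ) (hc : c ∈ T0 n) (m : ℤ) :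
    (fun x : Fin (n + 1) → ℝ => c (Fin.tail x) * Complex.exp ((m : ℂ) * (x 0 : ℂ) / (N : ℂ))) ∈
      SN n N :=
  AddSubgroup.subset_closure (Or.inl ⟨c, m, hc, rfl⟩)

private lemma NF_g2 {n N : ℕ} (c : (Fin n → ℝ) → ℂ) (hc : c ∈ T0 n) (v : Fin n → ℚ) (q : ℚ) :
    (fun x : Fin (n + 1) → ℝ => c (Fin.tail x) *
        (1 - E v q (Fin.tail x) * Complex.exp ((x 0 : ℂ) / (N : ℂ)))⁻¹) ∈ SN n N := by
  refine AddSubgroup.subset_closure (Or.inr ⟨c, v, q, 1, hc, le_rfl, ?_⟩)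
  funext x
  rw [pow_one]

private lemma NF_T0c {n : ℕ} (c : ℂ) (hc : IsAlgebraic ℚ c) :
    (fun _ : Fin n → ℝ => c) ∈ T0 n :=
  Subring.subset_closure (Or.inl (Or.inl ⟨c, hc, rfl⟩))

/-- the function `w = E v q` is not `1` almost everywhere if it depends on `s` -/
private lemma NF_ne {n : ℕ} (v : Fin (n + 1) → ℚ) (q : ℚ) (hv : v 0 ≠ 0) (t : Fin n → ℝ) :
    ∀ᵐ s : ℝ, E v q (Fin.cons s t : Fin (n + 1) → ℝ) ≠ 1 := by
  have hv' : ((v 0 : ℚ) : ℝ) ≠ 0 := by exact_mod_cast hv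
  have h1 : ∀ᵐ s : ℝ, s ∉ ({-(lin (Fin.tail v) t) / (v 0 : ℝ)} : Set ℝ) :=
    (Set.finite_singleton _).countable.ae_notMem volume
  filter_upwards [h1] with s hs h2
  apply hs
  rw [Set.mem_singleton_iff, eq_div_iff hv']
  have h3 : ‖E v q (Fin.cons s t : Fin (n + 1) → ℝ)‖ = 1 := by rw [h2, norm_one]
  unfold E at h3
  rw [Complex.norm_exp] at h3
  have h4 : (((lin v (Fin.cons s t : Fin (n + 1) → ℝ) : ℝ) : ℂ) +
      (q : ℂ) * (Real.pi : ℂ) * Complex.I).re = lin v (Fin.cons s t : Fin (n + 1) → ℝ) := by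
    simp
  rw [h4, Real.exp_eq_one_iff, NF_lin] at h3
  linarith

/-- positive exponent -/
private lemma NF_pos (h0 : St_PF) {n N : ℕ} (hN : 1 ≤ N) (v : Fin (n + 1) → ℚ) (q : ℚ) (m : ℕ)
    (hm1 : 1 ≤ m) (hm : ((m : ℤ) : ℚ) = v 0 * N) :
    ∃ h' ∈ SN n N, AeEq n (fun x => (1 - E v q x)⁻¹) h' := by
  have hmQ : (m : ℚ) ≠ 0 := by
    have : m ≠ 0 := by omega
    exact_mod_cast this
  have hmC : (m : ℂ) ≠ 0 := by
    have : m ≠ 0 := by omega
    exact_mod_cast this
  have hv0 : v 0 ≠ 0 := by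
    intro h
    rw [h, zero_mul] at hm
    exact hmQ (by exact_mod_cast hm)
  refine ⟨∑ j ∈ Finset.range m, fun x : Fin (n + 1) → ℝ => (m : ℂ)⁻¹ *
    (1 - E (fun i => Fin.tail v i / m) ((q + 2 * j) / m) (Fin.tail x) *
      Complex.exp ((x 0 : ℂ) / (N : ℂ)))⁻¹, ?_, ?_⟩
  · refine AddSubgroup.sum_mem _ fun j _ => ?_
    have h1 : IsAlgebraic ℚ ((m : ℂ)⁻¹) := by
      have := isAlgebraic_algebraMap (R := ℚ) (A := ℂ) ((m : ℚ)⁻¹)
      have h2 : algebraMap ℚ ℂ ((m : ℚ)⁻¹) = (m : ℂ)⁻¹ := by simp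
      rw [h2] at this
      exact this
    exact NF_g2 (fun _ => (m : ℂ)⁻¹) (NF_T0c _ h1) _ _
  · refine ae_of_all _ fun t => ?_
    filter_upwards [NF_ne v q hv0 t] with s hs
    rw [Finset.sum_apply]
    simp only [Fin.tail_cons, Fin.cons_zero]
    set z : ℂ := E (fun i => Fin.tail v i / m) (q / m) t * Complex.exp ((s : ℂ) / (N : ℂ)) with hz
    have hlin : (m : ℝ) * lin (fun i => Fin.tail v i / m) t = lin (Fin.tail v) t := by
      have hmR : (m : ℝ) ≠ 0 := by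
        have : m ≠ 0 := by omega
        exact_mod_cast this
      unfold lin
      rw [Finset.mul_sum]
      refine Finset.sum_congr rfl fun i _ => ?_
      push_cast
      field_simp
    have hlinC : (m : ℂ) * (lin (fun i => Fin.tail v i / m) t : ℂ) =
        (lin (Fin.tail v) t : ℂ) := by
      rw [← hlin]
      push_cast
      rfl
    have hzm : z ^ m = E v q (Fin.cons s t : Fin (n + 1) → ℝ) := by
      rw [hz, NF_E, NF_exp hN hm, mul_pow, ← Complex.exp_nat_mul]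
      unfold E
      rw [← Complex.exp_nat_mul, mul_add, hlinC, ← Complex.exp_add, ← Complex.exp_add]
      congr 1
      push_cast
      field_simp
    have h1 := h0 m z hm1 (by rw [hzm]; exact hs)
    rw [hzm] at h1
    have h2 : (1 - E v q (Fin.cons s t : Fin (n + 1) → ℝ))⁻¹ =
        (m : ℂ)⁻¹ * ((m : ℂ) * (1 - E v q (Fin.cons s t : Fin (n + 1) → ℝ))⁻¹) := by
      rw [inv_mul_cancel_left₀ hmC]
    rw [h2, ← h1, Finset.mul_sum]
    refine Finset.sum_congr rfl fun j _ => ?_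
    congr 3
    rw [hz, ← mul_assoc]
    congr 1
    unfold E
    rw [← Complex.exp_add]
    congr 1
    push_cast
    field_simp
    ring

theorem thm_NF (h0 : St_PF) (_h1 : St_AE) (h2 : St_MUL) : St_NF := by
  intro n h hh
  unfold T0 at hh
  induction hh using Subring.closure_induction with
  | mem h hh =>
    rcases hh with (⟨c, hc, rfl⟩ | ⟨v, q, rfl⟩) | ⟨v, q, rfl⟩
    · refine ⟨1, le_rfl, fun N _ _ => ⟨_, NF_g1 (fun _ => c) (NF_T0c c hc) 0, ?_⟩⟩
      refine ae_of_all _ fun t => ae_of_all _ fun s => ?_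
      simp
    · refine ⟨(v 0).den, (v 0).den_pos, fun N hN hd => ?_⟩
      obtain ⟨m, hm⟩ := NF_int (v 0) hd
      refine ⟨_, NF_g1 (E (Fin.tail v) q) (Subring.subset_closure (Or.inl (Or.inr ⟨_, _, rfl⟩))) m,
        ?_⟩
      refine ae_of_all _ fun t => ae_of_all _ fun s => ?_
      simp only [Fin.tail_cons, Fin.cons_zero]
      rw [NF_E, NF_exp hN hm]
    · refine ⟨(v 0).den, (v 0).den_pos, fun N hN hd => ?_⟩
      obtain ⟨m, hm⟩ := NF_int (v 0) hd
      rcases lt_trichotomy m 0 with h3 | h3 | h3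
      · -- negative exponent
        obtain ⟨k, hk⟩ : ∃ k : ℕ, -m = k := Int.eq_ofNat_of_zero_le (by omega)
        have hk1 : 1 ≤ k := by omega
        have hkQ : ((k : ℤ) : ℚ) = (-v) 0 * N := by
          rw [← hk, Pi.neg_apply]
          push_cast
          rw [hm]
          ring
        obtain ⟨h', hh', he⟩ := NF_pos h0 hN (-v) (-q) k hk1 hkQ
        have hv0 : v 0 ≠ 0 := by
          intro h
          rw [h, zero_mul] at hm
          have : m = 0 := by exact_mod_cast hm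
          omega
        refine ⟨_, AddSubgroup.sub_mem _ (NF_g1 (N := N) (1 : (Fin n → ℝ) → ℂ)
          (Subring.one_mem _) 0) hh', ?_⟩
        filter_upwards [he] with t ht
        filter_upwards [ht, NF_ne v q hv0 t] with s hs hne
        rw [Pi.sub_apply, ← hs, Pi.one_apply]
        have h4 : E (-v) (-q) (Fin.cons s t : Fin (n + 1) → ℝ) =
            (E v q (Fin.cons s t : Fin (n + 1) → ℝ))⁻¹ := by
          unfold E
          rw [← Complex.exp_neg]
          congr 1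
          unfold lin
          simp only [Pi.neg_apply]
          push_cast
          simp only [neg_mul, Finset.sum_neg_distrib]
          ring
        rw [h4]
        have h5 : E v q (Fin.cons s t : Fin (n + 1) → ℝ) ≠ 0 := Complex.exp_ne_zero _
        set w := E v q (Fin.cons s t : Fin (n + 1) → ℝ) with hw
        have h6 : 1 - w ≠ 0 := fun h => hne (by linear_combination -h)
        have h7 : w - 1 ≠ 0 := fun h => hne (by linear_combination h)
        have h8 : Complex.exp (((0 : ℤ) : ℂ) *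
            (((Fin.cons s t : Fin (n + 1) → ℝ) 0 : ℝ) : ℂ) / (N : ℂ)) = 1 := by simp
        rw [h8]
        have h9 : (1 - w⁻¹)⁻¹ = w / (w - 1) := by
          have : 1 - w⁻¹ = (w - 1) / w := by field_simp
          rw [this, inv_div]
        rw [h9]
        field_simp
        ring
      · -- no dependence on `s`
        subst h3
        have hN' : (N : ℚ) ≠ 0 := by
          have : N ≠ 0 := by omega
          exact_mod_cast this
        have hv0 : v 0 = 0 := by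
          have h4 : v 0 * (N : ℚ) = 0 := by rw [← hm]; simp
          exact (mul_eq_zero.1 h4).resolve_right hN'
        refine ⟨_, NF_g1 (fun t => (1 - E (Fin.tail v) q t)⁻¹)
          (Subring.subset_closure (Or.inr ⟨_, _, rfl⟩)) 0, ?_⟩
        refine ae_of_all _ fun t => ae_of_all _ fun s => ?_
        simp only [NF_E, hv0, Fin.tail_cons]
        simp
      · -- positive exponent
        obtain ⟨k, hk⟩ : ∃ k : ℕ, m = k := Int.eq_ofNat_of_zero_le (by omega)
        have hk1 : 1 ≤ k := by omega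
        rw [hk] at hm
        exact NF_pos h0 hN v q k hk1 hm
  | zero =>
    exact ⟨1, le_rfl, fun N _ _ => ⟨0, AddSubgroup.zero_mem _, NF_refl _⟩⟩
  | one =>
    refine ⟨1, le_rfl, fun N _ _ => ⟨_, NF_g1 (1 : (Fin n → ℝ) → ℂ) (Subring.one_mem _) 0, ?_⟩⟩
    refine ae_of_all _ fun t => ae_of_all _ fun s => ?_
    simp
  | add a b _ _ ha hb =>
    obtain ⟨N1, h1, ha⟩ := ha
    obtain ⟨N2, h2, hb⟩ := hb
    refine ⟨N1 * N2, Nat.mul_pos h1 h2, fun N hN hd => ?_⟩
    obtain ⟨a', ha', ha1⟩ := ha N hN ((Dvd.intro _ rfl).trans hd)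
    obtain ⟨b', hb', hb1⟩ := hb N hN ((Dvd.intro_left _ rfl).trans hd)
    exact ⟨a' + b', AddSubgroup.add_mem _ ha' hb', NF_add ha1 hb1⟩
  | neg a _ ha =>
    obtain ⟨N1, h1, ha⟩ := ha
    refine ⟨N1, h1, fun N hN hd => ?_⟩
    obtain ⟨a', ha', ha1⟩ := ha N hN hd
    exact ⟨-a', AddSubgroup.neg_mem _ ha', NF_neg ha1⟩
  | mul a b _ _ ha hb =>
    obtain ⟨N1, h1, ha⟩ := ha
    obtain ⟨N2, h3, hb⟩ := hb
    refine ⟨N1 * N2, Nat.mul_pos h1 h3, fun N hN hd => ?_⟩
    obtain ⟨a', ha', ha1⟩ := ha N hN ((Dvd.intro _ rfl).trans hd)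
    obtain ⟨b', hb', hb1⟩ := hb N hN ((Dvd.intro_left _ rfl).trans hd)
    obtain ⟨h', hh', hh1⟩ := h2 n N a' b' hN ha' hb'
    exact ⟨h', hh', NF_trans (NF_mul ha1 hb1) hh1⟩

end TPER
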