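import Pool.Agent.TPER.St

set_option autoImplicit false

namespace TPER

open MeasureTheory Filter Topology

private theorem nfw_congr {n w N : ℕ} {f g : (Fin (n + 1) → ℝ) → ℂ} (h : AeEq n f g)
    (hg : NFW n w N g) : NFW n w N f := by
  obtain ⟨r, r', u, kap, m, u', k, e, v, q, he, hu, hA⟩ := hg
  refine ⟨r, r', u, kap, m, u', k, e, v, q, he, hu, ?_⟩
  filter_upwards [h, hA] with t h1 h2
  filter_upwards [h1, h2] with s h3 h4
  rw [h3, h4]

private theorem nfw_add {n w N : ℕ} {f g : (Fin (n + 1) → ℝ) → ℂ} (hf : NFW n w N f)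
    (hg : NFW n w N g) : NFW n w N (fun x => f x + g x) := by
  obtain ⟨r1, r1', u1, kap1, m1, u1', k1, e1, v1, q1, he1, hu1, hA1⟩ := hf
  obtain ⟨r2, r2', u2, kap2, m2, u2', k2, e2, v2, q2, he2, hu2, hA2⟩ := hg
  refine ⟨r1 + r2, r1' + r2', Fin.append u1 u2, Fin.append kap1 kap2, Fin.append m1 m2,
    Fin.append u1' u2', Fin.append k1 k2, Fin.append e1 e2, Fin.append v1 v2,
    Fin.append q1 q2, ?_, ?_, ?_⟩
  · intro j
    refine Fin.addCases (fun i => ?_) (fun i => ?_) j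
    · rw [Fin.append_left]; exact he1 i
    · rw [Fin.append_right]; exact he2 i
  · intro j
    refine Fin.addCases (fun i => ?_) (fun i => ?_) j
    · rw [Fin.append_left, Fin.append_left]; exact hu1 i
    · rw [Fin.append_right, Fin.append_right]; exact hu2 i
  · filter_upwards [hA1, hA2] with t h1 h2
    filter_upwards [h1, h2] with s h3 h4
    simp only [Fin.sum_univ_add, Fin.append_left, Fin.append_right]
    rw [h3, h4]
    ring

private theorem nfw_neg {n w N : ℕ} {f : (Fin (n + 1) → ℝ) → ℂ} (hf : NFW n w N f) :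
    NFW n w N (fun x => - f x) := by
  obtain ⟨r, r', u, kap, m, u', k, e, v, q, he, hu, hA⟩ := hf
  refine ⟨r, r', fun i => -u i, kap, m, fun j => -u' j, k, e, v, q, he, ?_, ?_⟩
  · intro j
    exact ⟨(hu j).1, (W n (w - k j)).neg_mem (hu j).2⟩
  · filter_upwards [hA] with t h1
    filter_upwards [h1] with s h3
    simp only [Pi.neg_apply, neg_mul, Finset.sum_neg_distrib]
    rw [h3]
    ring

private theorem nfw_zero {n w N : ℕ} : NFW n w N (fun _ => 0) := by
  refine ⟨0, 0, fun i => i.elim0, fun i => i.elim0, fun i => i.elim0, fun i => i.elim0,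
    fun i => i.elim0, fun i => i.elim0, fun i => i.elim0, fun i => i.elim0,
    fun i => i.elim0, fun i => i.elim0, ?_⟩
  refine Filter.Eventually.of_forall fun t => Filter.Eventually.of_forall fun s => ?_
  simp

private theorem nfw_gen1 {n w N p : ℕ} (kap : Fin (n + 1) → ℕ) (c : (Fin n → ℝ) → ℂ) (m : ℤ) :
    NFW n w N (fun x => (Real.pi : ℂ) ^ p * (∏ i, (x i : ℂ) ^ (kap i)) *
      (c (Fin.tail x) * Complex.exp ((m : ℂ) * (x 0 : ℂ) / (N : ℂ)))) := by
  refine ⟨1, 0, fun _ t => (Real.pi : ℂ) ^ p * (∏ i : Fin n, (t i : ℂ) ^ (kap i.succ)) * c t,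
    fun _ => kap 0, fun _ => m, fun i => i.elim0,
    fun i => i.elim0, fun i => i.elim0, fun i => i.elim0, fun i => i.elim0,
    fun i => i.elim0, fun i => i.elim0, ?_⟩
  refine Filter.Eventually.of_forall fun t => Filter.Eventually.of_forall fun s => ?_
  simp only [Fin.prod_univ_succ, Fin.cons_zero, Fin.cons_succ, Fin.tail_cons,
    Finset.univ_unique, Finset.sum_singleton, Finset.univ_eq_empty, Finset.sum_empty, add_zero]
  ring

private theorem nfw_gen2 {n w N p : ℕ} (kap : Fin (n + 1) → ℕ) (c : (Fin n → ℝ) → ℂ)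
    (v : Fin n → ℚ) (q : ℚ) (e : ℕ) (hc : c ∈ T0 n) (he : 1 ≤ e) (hw : p + ∑ i, kap i ≤ w) :
    NFW n w N (fun x => (Real.pi : ℂ) ^ p * (∏ i, (x i : ℂ) ^ (kap i)) *
      (c (Fin.tail x) *
        ((1 - E v q (Fin.tail x) * Complex.exp ((x 0 : ℂ) / (N : ℂ)))⁻¹) ^ e)) := by
  rw [Fin.sum_univ_succ] at hw
  refine ⟨0, 1, fun i => i.elim0, fun i => i.elim0, fun i => i.elim0,
    fun _ t => (Real.pi : ℂ) ^ p * (∏ i : Fin n, (t i : ℂ) ^ (kap i.succ)) * c t,
    fun _ => kap 0, fun _ => e, fun _ => v, fun _ => q, fun _ => he, fun _ => ⟨?_, ?_⟩, ?_⟩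
  · change kap 0 ≤ w
    omega
  · refine AddSubgroup.subset_closure ⟨p, fun i => kap i.succ, c, hc, ?_, rfl⟩
    change p + ∑ i : Fin n, kap i.succ ≤ w - kap 0
    omega
  refine Filter.Eventually.of_forall fun t => Filter.Eventually.of_forall fun s => ?_
  simp only [Fin.prod_univ_succ, Fin.cons_zero, Fin.cons_succ, Fin.tail_cons,
    Finset.univ_unique, Finset.sum_singleton, Finset.univ_eq_empty, Finset.sum_empty, zero_add]
  ring

private theorem nfw_SN {n w N p : ℕ} (kap : Fin (n + 1) → ℕ) (hw : p + ∑ i, kap i ≤ w)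
    (g : (Fin (n + 1) → ℝ) → ℂ) (hg : g ∈ SN n N) :
    NFW n w N (fun x => (Real.pi : ℂ) ^ p * (∏ i, (x i : ℂ) ^ (kap i)) * g x) := by
  unfold SN at hg
  induction hg using AddSubgroup.closure_induction with
  | mem g hg =>
    rcases hg with ⟨c, m, hc, rfl⟩ | ⟨c, v, q, e, hc, he, rfl⟩
    · exact nfw_gen1 kap c m
    · exact nfw_gen2 kap c v q e hc he hw
  | zero =>
    have := @nfw_zero n w N
    simpa using this
  | add g1 g2 _ _ h1 h2 =>
    have := nfw_add h1 h2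
    have e : (fun x : Fin (n + 1) → ℝ => (Real.pi : ℂ) ^ p * (∏ i, (x i : ℂ) ^ (kap i)) *
        (g1 + g2) x) = (fun x => (Real.pi : ℂ) ^ p * (∏ i, (x i : ℂ) ^ (kap i)) * g1 x +
          (Real.pi : ℂ) ^ p * (∏ i, (x i : ℂ) ^ (kap i)) * g2 x) := by
      funext x
      rw [Pi.add_apply]
      ring
    rw [e]
    exact this
  | neg g1 _ h1 =>
    have := nfw_neg h1
    have e : (fun x : Fin (n + 1) → ℝ => (Real.pi : ℂ) ^ p * (∏ i, (x i : ℂ) ^ (kap i)) *
        (-g1) x) = (fun x => -((Real.pi : ℂ) ^ p * (∏ i, (x i : ℂ) ^ (kap i)) * g1 x)) := by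
      funext x
      rw [Pi.neg_apply]
      ring
    rw [e]
    exact this

theorem thm_NFW (hNF : St_NF) : St_NFW := by
  intro n w f hf
  have key : ∃ N0 : ℕ, 1 ≤ N0 ∧ ∀ N : ℕ, 1 ≤ N → N0 ∣ N → NFW n w N f := by
    unfold W at hf
    induction hf using AddSubgroup.closure_induction with
    | mem g hg =>
      obtain ⟨p, kap, h, hh, hw, rfl⟩ := hg
      obtain ⟨N0, hN0, hN⟩ := hNF n h hh
      refine ⟨N0, hN0, fun N h1 h2 => ?_⟩
      obtain ⟨h', hh', hA⟩ := hN N h1 h2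
      refine nfw_congr ?_ (nfw_SN kap hw h' hh')
      filter_upwards [hA] with t h1
      filter_upwards [h1] with s h3
      rw [h3]
    | zero => exact ⟨1, le_refl 1, fun N _ _ => nfw_zero⟩
    | add g1 g2 _ _ h1 h2 =>
      obtain ⟨N1, hN1, h1⟩ := h1
      obtain ⟨N2, hN2, h2⟩ := h2
      refine ⟨N1 * N2, Nat.one_le_iff_ne_zero.2 (Nat.mul_ne_zero (by omega) (by omega)),
        fun N h3 h4 => ?_⟩
      exact nfw_add (h1 N h3 (dvd_trans (dvd_mul_right _ _) h4))
        (h2 N h3 (dvd_trans (dvd_mul_left _ _) h4))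
    | neg g1 _ h1 =>
      obtain ⟨N1, hN1, h1⟩ := h1
      exact ⟨N1, hN1, fun N h3 h4 => nfw_neg (h1 N h3 h4)⟩
  obtain ⟨N0, hN0, h⟩ := key
  exact ⟨N0, hN0, h N0 hN0 (dvd_refl _)⟩

end TPER
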