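import Pool.Agent.TPER.St
import Pool.Agent.TPER.DEC

/-!
# Toric periods: the one-variable theorem (ONE)
-/

set_option autoImplicit false

namespace TPER

open MeasureTheory Filter Topology
open Pool.Agent.Helper72.Toric (hv pol continuous_pol J_eq_pol integrable_sub maj integrable_maj
  pol_zero_right)

theorem continuous_QQ (k e : ℕ) : Continuous (QQ k e) := continuous_pol k _

/-- the integral over the line `Im z = - δ` -/
theorem one_shift {ι : Type} [Fintype ι] (C : ι → ℂ) (k e : ι → ℕ) (l : ι → ℂ)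
    (he : ∀ j, 1 ≤ e j) (hsum : ∀ k0 : ℕ, ∑ j, (if k j = k0 then C j else 0) = 0) (δ : ℝ)
    (hδ : ∀ j, |(l j).im - δ| < Real.pi) :
    (∫ s : ℝ, PC C k e l ((s : ℂ) - δ * Complex.I)) =
      ∑ j, C j * ∑ i ∈ Finset.range (k j + 1), ((k j).choose i : ℂ) *
        (-(δ * Complex.I)) ^ (k j - i) * QQ i (e j) (l j - δ * Complex.I) := by
  have him : ∀ j, |(l j - δ * Complex.I).im| < Real.pi := by
    intro j
    have : (l j - δ * Complex.I).im = (l j).im - δ := by simp
    rw [this]
    exact hδ j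
  have hpt : ∀ s : ℝ, PC C k e l ((s : ℂ) - δ * Complex.I) =
      ∑ j, C j * ∑ i ∈ Finset.range (k j + 1), ((k j).choose i : ℂ) *
        (-(δ * Complex.I)) ^ (k j - i) *
        ((s : ℂ) ^ i * (Pool.Agent.Helper72.Toric.E (e j) (l j - δ * Complex.I) s - hv s)) := by
    intro s
    have h1 : PC C k e l ((s : ℂ) - δ * Complex.I) =
        ∑ j, C j * ((s : ℂ) - δ * Complex.I) ^ (k j) *
          (Pool.Agent.Helper72.Toric.E (e j) (l j - δ * Complex.I) s - hv s) := by
      have h2 := dec_sum C k hsum ((s : ℂ) - δ * Complex.I)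
      have h3 : ∑ j, C j * ((s : ℂ) - δ * Complex.I) ^ (k j) * hv s = 0 := by
        rw [← Finset.sum_mul, h2, zero_mul]
      simp only [mul_sub, Finset.sum_sub_distrib]
      rw [h3, sub_zero]
      unfold PC
      apply Finset.sum_congr rfl
      intro j _
      unfold Pool.Agent.Helper72.Toric.E
      rw [inv_pow]
      have h4 : (s : ℂ) - δ * Complex.I + l j = (s : ℂ) + (l j - δ * Complex.I) := by ring
      rw [h4]
    rw [h1]
    apply Finset.sum_congr rfl
    intro j _
    have h5 : ((s : ℂ) - δ * Complex.I) ^ (k j) = ∑ i ∈ Finset.range (k j + 1),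
        (s : ℂ) ^ i * (-(δ * Complex.I)) ^ (k j - i) * ((k j).choose i : ℂ) := by
      rw [sub_eq_add_neg, add_pow]
    rw [h5, mul_assoc, Finset.sum_mul]
    congr 1
    apply Finset.sum_congr rfl
    intro i _
    ring
  have hint : ∀ j, ∀ i : ℕ, Integrable (fun s : ℝ =>
      ((k j).choose i : ℂ) * (-(δ * Complex.I)) ^ (k j - i) *
      ((s : ℂ) ^ i * (Pool.Agent.Helper72.Toric.E (e j) (l j - δ * Complex.I) s - hv s))) := by
    intro j i
    obtain ⟨e', he'⟩ : ∃ e', e j = e' + 1 := ⟨e j - 1, by have := he j; omega⟩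
    rw [he']
    exact (integrable_sub (him j) i e').const_mul _
  rw [integral_congr_ae (Eventually.of_forall hpt), integral_finsetSum _ (fun j _ =>
    (integrable_finsetSum _ (fun i _ => hint j i)).const_mul _)]
  apply Finset.sum_congr rfl
  intro j _
  rw [integral_const_mul, integral_finsetSum _ (fun i _ => hint j i)]
  congr 1
  apply Finset.sum_congr rfl
  intro i _
  rw [integral_const_mul]
  congr 1
  obtain ⟨e', he'⟩ : ∃ e', e j = e' + 1 := ⟨e j - 1, by have := he j; omega⟩
  have h6 := J_eq_pol e' i _ (him j)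
  unfold QQ
  rw [he']
  exact h6

/-- boundedness just below a compact interval -/
theorem one_bdd {ι : Type} [Fintype ι] (h_BDD : St_BDD) (C : ι → ℂ) (k e : ι → ℕ) (l : ι → ℂ)
    (hint : Integrable (fun s : ℝ => PC C k e l (s : ℂ))) (R : ℝ) :
    ∃ M δ1 : ℝ, 0 < δ1 ∧ ∀ s ∈ Set.Icc (-R) R, ∀ δ : ℝ, 0 < δ → δ < δ1 →
      ‖PC C k e l ((s : ℂ) - δ * Complex.I)‖ ≤ M := by
  refine isCompact_Icc.induction_on (p := fun V : Set ℝ => ∃ M δ1 : ℝ, 0 < δ1 ∧ ∀ s ∈ V, ∀ δ : ℝ,
    0 < δ → δ < δ1 → ‖PC C k e l ((s : ℂ) - δ * Complex.I)‖ ≤ M) ?_ ?_ ?_ ?_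
  · exact ⟨0, 1, one_pos, fun s hs => absurd hs (Set.notMem_empty s)⟩
  · rintro V V' hVV' ⟨M, δ1, h1, h2⟩
    exact ⟨M, δ1, h1, fun s hs => h2 s (hVV' hs)⟩
  · rintro V V' ⟨M, δ1, h1, h2⟩ ⟨M', δ2, h3, h4⟩
    refine ⟨max M M', min δ1 δ2, lt_min h1 h3, ?_⟩
    rintro s (hs | hs) δ hδ0 hδ1
    · exact (h2 s hs δ hδ0 (hδ1.trans_le (min_le_left _ _))).trans (le_max_left _ _)
    · exact (h4 s hs δ hδ0 (hδ1.trans_le (min_le_right _ _))).trans (le_max_right _ _)
  · intro p _
    obtain ⟨rho, M, hrho, hM⟩ := h_BDD ι C k e l hint p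
    refine ⟨Set.Ioo (p - rho / 2) (p + rho / 2), mem_nhdsWithin_of_mem_nhds
      (Ioo_mem_nhds (by linarith) (by linarith)), M, rho / 2, by linarith, ?_⟩
    rintro s ⟨hs1, hs2⟩ δ hδ0 hδ1
    apply hM
    · intro h
      have := congrArg Complex.im h
      simp at this
      exact hδ0.ne' this
    · have h1 : (s : ℂ) - δ * Complex.I - p = ((s - p : ℝ) : ℂ) + ((-δ : ℝ) : ℂ) * Complex.I := by
        push_cast
        ring
      rw [h1]
      refine (Complex.norm_le_abs_re_add_abs_im _).trans_lt ?_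
      have h2 : (((s - p : ℝ) : ℂ) + ((-δ : ℝ) : ℂ) * Complex.I).re = s - p := by simp
      have h3 : (((s - p : ℝ) : ℂ) + ((-δ : ℝ) : ℂ) * Complex.I).im = -δ := by simp
      rw [h2, h3, abs_neg, abs_of_pos hδ0]
      have h4 : |s - p| < rho / 2 := abs_lt.2 ⟨by linarith, by linarith⟩
      linarith

theorem one_pc (h_DEC : St_DEC) (h_BDD : St_BDD) {ι : Type} [Fintype ι] (C : ι → ℂ)
    (k e : ι → ℕ) (l : ι → ℂ) (he : ∀ j, 1 ≤ e j) (hl1 : ∀ j, -Real.pi < (l j).im)
    (hl2 : ∀ j, (l j).im ≤ Real.pi)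
    (hsum : ∀ k0 : ℕ, ∑ j, (if k j = k0 then C j else 0) = 0)
    (hint : Integrable (fun s : ℝ => PC C k e l (s : ℂ))) :
    (∫ s : ℝ, PC C k e l (s : ℂ)) = ∑ j, C j * QQ (k j) (e j) (l j) := by
  classical
  -- the limit of the values
  have hval : Tendsto (fun δ : ℝ => ∑ j, C j * ∑ i ∈ Finset.range (k j + 1),
      ((k j).choose i : ℂ) * (-(δ * Complex.I)) ^ (k j - i) * QQ i (e j) (l j - δ * Complex.I))
      (𝓝[>] 0) (𝓝 (∑ j, C j * QQ (k j) (e j) (l j))) := by
    have hc : Continuous (fun δ : ℝ => ∑ j, C j * ∑ i ∈ Finset.range (k j + 1),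
        ((k j).choose i : ℂ) * (-(δ * Complex.I)) ^ (k j - i) *
          QQ i (e j) (l j - δ * Complex.I)) := by
      apply continuous_finsetSum
      intro j _
      apply Continuous.mul continuous_const
      apply continuous_finsetSum
      intro i _
      apply Continuous.mul
      · fun_prop
      · exact (continuous_QQ i (e j)).comp (by fun_prop)
    have h1 := (hc.tendsto 0).mono_left (nhdsWithin_le_nhds (s := Set.Ioi 0))
    convert h1 using 2
    apply Finset.sum_congr rfl
    intro j _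
    congr 1
    rw [Finset.sum_range_succ, Finset.sum_eq_zero]
    · simp
    · intro i hi
      have h2 : k j - i ≠ 0 := by
        have := Finset.mem_range.1 hi
        omega
      simp [h2]
  -- smallness
  have hsmall : ∀ᶠ δ : ℝ in 𝓝[>] 0, 0 < δ ∧ δ ≤ 1 ∧ ∀ j, |(l j).im - δ| < Real.pi := by
    have h1 : ∀ᶠ δ : ℝ in 𝓝[>] 0, 0 < δ := self_mem_nhdsWithin
    have h2 : ∀ᶠ δ : ℝ in 𝓝[>] 0, δ ≤ 1 :=
      nhdsWithin_le_nhds (Iic_mem_nhds one_pos)
    have h3 : ∀ᶠ δ : ℝ in 𝓝[>] 0, ∀ j, δ < Real.pi + (l j).im := by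
      rw [eventually_all]
      intro j
      apply nhdsWithin_le_nhds
      apply Iio_mem_nhds
      have := hl1 j
      linarith
    filter_upwards [h1, h2, h3] with δ a b c
    refine ⟨a, b, fun j => ?_⟩
    have := hl2 j
    have := c j
    rw [abs_lt]
    constructor <;> linarith
  have hval2 : Tendsto (fun δ : ℝ => ∫ s : ℝ, PC C k e l ((s : ℂ) - δ * Complex.I))
      (𝓝[>] 0) (𝓝 (∑ j, C j * QQ (k j) (e j) (l j))) := by
    refine hval.congr' ?_
    filter_upwards [hsmall] with δ hδ
    exact (one_shift C k e l he hsum δ hδ.2.2).symm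
  -- dominated convergence
  obtain ⟨R, M, hR, hM, hdec⟩ := h_DEC ι C k e l he hsum
  obtain ⟨M', δ1, hδ1, hbdd⟩ := one_bdd h_BDD C k e l hint R
  have hmeas : Measurable (PC C k e l) := by
    unfold PC
    fun_prop
  have hlim : Tendsto (fun δ : ℝ => ∫ s : ℝ, PC C k e l ((s : ℂ) - δ * Complex.I))
      (𝓝[>] 0) (𝓝 (∫ s : ℝ, PC C k e l (s : ℂ))) := by
    apply tendsto_integral_filter_of_dominated_convergence
      (fun s => (M + |M'| * Real.exp (R / 2)) * Real.exp (-(|s| / 2)))
    · refine Eventually.of_forall fun δ => ?_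
      apply Measurable.aestronglyMeasurable
      exact hmeas.comp (by fun_prop)
    · have h4 : ∀ᶠ δ : ℝ in 𝓝[>] 0, δ < δ1 := nhdsWithin_le_nhds (Iio_mem_nhds hδ1)
      filter_upwards [hsmall, h4] with δ hδ hδ'
      refine Eventually.of_forall fun s => ?_
      by_cases hs : R ≤ |s|
      · have h5 := hdec ((s : ℂ) - δ * Complex.I) (by
          have : ((s : ℂ) - δ * Complex.I).im = -δ := by simp
          rw [this, abs_neg, abs_of_pos hδ.1]
          exact hδ.2.1) (by
          have : ((s : ℂ) - δ * Complex.I).re = s := by simp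
          rw [this]
          exact hs)
        have h6 : ((s : ℂ) - δ * Complex.I).re = s := by simp
        rw [h6] at h5
        refine h5.trans ?_
        apply mul_le_mul_of_nonneg_right _ (Real.exp_pos _).le
        have : 0 ≤ |M'| * Real.exp (R / 2) := by positivity
        linarith
      · push Not at hs
        have h5 := hbdd s (abs_le.1 hs.le) δ hδ.1 hδ'
        have h6 : |M'| ≤ |M'| * Real.exp (R / 2) * Real.exp (-(|s| / 2)) := by
          rw [mul_assoc, ← Real.exp_add]
          have h7 : (1 : ℝ) ≤ Real.exp (R / 2 + -(|s| / 2)) := by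
            apply Real.one_le_exp
            linarith
          calc |M'| = |M'| * 1 := (mul_one _).symm
            _ ≤ _ := mul_le_mul_of_nonneg_left h7 (abs_nonneg _)
        calc ‖PC C k e l ((s : ℂ) - δ * Complex.I)‖ ≤ M' := h5
          _ ≤ |M'| := le_abs_self _
          _ ≤ |M'| * Real.exp (R / 2) * Real.exp (-(|s| / 2)) := h6
          _ ≤ (M + |M'| * Real.exp (R / 2)) * Real.exp (-(|s| / 2)) := by
            apply mul_le_mul_of_nonneg_right _ (Real.exp_pos _).le
            linarith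
    · apply Integrable.const_mul
      have h5 := (integrable_maj 0).comp_div (R := 2) (by norm_num)
      refine h5.congr (Eventually.of_forall fun s => ?_)
      simp only [maj, pow_zero, one_mul]
      rw [abs_div, abs_two]
    · have h5 : ∀ᵐ s : ℝ, s ∉ Set.range (fun j => -(l j).re) :=
        (Set.finite_range _).countable.ae_notMem volume
      filter_upwards [h5] with s hs
      have hcont : ContinuousAt (PC C k e l) (s : ℂ) := by
        have h6 : ContinuousAt (fun z => ∑ j, C j * z ^ (k j) *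
            ((1 + Complex.exp (z + l j))⁻¹) ^ (e j)) (s : ℂ) := by
          apply tendsto_finsetSum
          intro j _
          have h7 : 1 + Complex.exp ((s : ℂ) + l j) ≠ 0 := by
            intro h8
            apply hs
            refine ⟨j, ?_⟩
            have h9 : Complex.exp ((s : ℂ) + l j) = -1 := by
              linear_combination h8
            have h10 : ‖Complex.exp ((s : ℂ) + l j)‖ = 1 := by
              rw [h9, norm_neg, norm_one]
            rw [Complex.norm_exp, Real.exp_eq_one_iff] at h10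
            simp only [Complex.add_re, Complex.ofReal_re] at h10
            linarith
          have h8 : ContinuousAt (fun z : ℂ => C j * z ^ (k j)) (s : ℂ) := by fun_prop
          have h9 : ContinuousAt (fun z : ℂ => 1 + Complex.exp (z + l j)) (s : ℂ) := by fun_prop
          exact h8.mul ((h9.inv₀ h7).pow (e j))
        exact h6
      have h6 : Tendsto (fun δ : ℝ => (s : ℂ) - δ * Complex.I) (𝓝[>] 0) (𝓝 (s : ℂ)) := by
        have h7 : Continuous (fun δ : ℝ => (s : ℂ) - δ * Complex.I) := by fun_prop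
        have h8 := (h7.tendsto 0).mono_left (nhdsWithin_le_nhds (s := Set.Ioi 0))
        simpa using h8
      exact hcont.tendsto.comp h6
  exact tendsto_nhds_unique hlim hval2

theorem thm_ONE (h_ASY : St_ASY) (h_DEC : St_DEC) (h_BDD : St_BDD) : St_ONE := by
  intro ι ι' _ _ A m kap C k e l he hl1 hl2 hint
  obtain ⟨hPA, hsum⟩ := h_ASY ι ι' A m kap C k e l he hint
  have h1 : ∀ s : ℝ, PA A m kap s + PC C k e l (s : ℂ) = PC C k e l (s : ℂ) := by
    intro s
    rw [hPA s, zero_add]
  simp only [h1] at hint ⊢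
  exact one_pc h_DEC h_BDD C k e l he hl1 hl2 hsum hint

end TPER
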