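import Pool.Agent.TPER.St

set_option autoImplicit false

namespace TPER

open MeasureTheory Filter Topology

/-- the representative of `q + 1` modulo `2` in `(-1, 1]` -/
private def qn (q : ℚ) : ℚ := q + 1 - 2 * (⌈q / 2⌉ : ℤ)

private theorem qn_gt (q : ℚ) : -1 < qn q := by
  have h := Int.ceil_lt_add_one (q / 2)
  unfold qn
  have h2 : ((⌈q / 2⌉ : ℤ) : ℚ) < q / 2 + 1 := h
  linarith

private theorem qn_le (q : ℚ) : qn q ≤ 1 := by
  have h := Int.le_ceil (q / 2)
  unfold qn
  linarith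

/-- the logarithm -/
private noncomputable def ll {n : ℕ} (v : Fin n → ℚ) (q : ℚ) (t : Fin n → ℝ) : ℂ :=
  (lin v t : ℂ) + ((qn q : ℚ) : ℂ) * (Real.pi : ℂ) * Complex.I

private theorem E_eq {n : ℕ} (v : Fin n → ℚ) (q : ℚ) (t : Fin n → ℝ) :
    E v q t = - Complex.exp (ll v q t) := by
  have h1 : Complex.exp ((lin v t : ℂ) + (q : ℂ) * (Real.pi : ℂ) * Complex.I) =
      Complex.exp (ll v q t + (Real.pi : ℂ) * Complex.I +
        ((⌈q / 2⌉ - 1 : ℤ) : ℂ) * (2 * (Real.pi : ℂ) * Complex.I)) := by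
    congr 1
    unfold ll qn
    push_cast
    ring
  unfold E
  rw [h1, Complex.exp_add, Complex.exp_add, Complex.exp_int_mul_two_pi_mul_I,
    Complex.exp_pi_mul_I]
  ring

private theorem ll_im {n : ℕ} (v : Fin n → ℚ) (q : ℚ) (t : Fin n → ℝ) :
    (ll v q t).im = (qn q : ℝ) * Real.pi := by
  unfold ll
  have h : (((qn q : ℚ) : ℂ)) * (Real.pi : ℂ) * Complex.I =
      ((((qn q : ℚ) : ℝ) * Real.pi : ℝ) : ℂ) * Complex.I := by
    push_cast
    ring
  rw [h, Complex.add_im, Complex.ofReal_im, Complex.im_ofReal_mul, Complex.I_im]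
  ring

theorem thm_PAR (hONE : St_ONE) (hQW : St_QW) (hWM : St_WM) (hNFW : St_NFW) : St_PAR := by
  intro n w f hf
  obtain ⟨N, hN, r, r', u, kap, m, u', k, e, v, q, he, hu, hA⟩ := hNFW n w f hf
  obtain ⟨hmul, hmono, hT0, hlin, hconst⟩ := hWM
  refine ⟨fun t => ∑ j, u' j t * ((N : ℂ) ^ (k j + 1) * QQ (k j) (e j) (ll (v j) (q j) t)), ?_, ?_⟩
  · have hsum : (fun t : Fin n → ℝ => ∑ j, u' j t * ((N : ℂ) ^ (k j + 1) *
        QQ (k j) (e j) (ll (v j) (q j) t))) = ∑ j, fun t => u' j t * ((N : ℂ) ^ (k j + 1) *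
        QQ (k j) (e j) (ll (v j) (q j) t)) := by
      funext t
      rw [Finset.sum_apply]
    rw [hsum]
    refine AddSubgroup.sum_mem _ fun j _ => ?_
    have h1 : (fun t : Fin n → ℝ => QQ (k j) (e j) (ll (v j) (q j) t)) ∈ W n (k j + 1) :=
      hQW n (k j) (e j) (v j) (qn (q j)) (he j)
    have h2 : (fun _ : Fin n → ℝ => (N : ℂ) ^ (k j + 1) * (Real.pi : ℂ) ^ 0) ∈ W n 0 :=
      hconst n 0 _ ((isAlgebraic_natCast N).pow _)
    have h3 := hmul n _ _ _ _ h2 h1
    have h4 := hmul n _ _ _ _ (hu j).2 h3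
    have h5 : w - k j + (0 + (k j + 1)) = w + 1 := by
      have := (hu j).1
      omega
    rw [h5] at h4
    simpa using h4
  · filter_upwards [hA] with t ht hI
    have hNR : (N : ℝ) ≠ 0 := by
      have : N ≠ 0 := by omega
      exact_mod_cast this
    have hNC : (N : ℂ) ≠ 0 := by
      have : N ≠ 0 := by omega
      exact_mod_cast this
    set R : ℝ → ℂ := fun s => (∑ i, u i t * (s : ℂ) ^ (kap i) *
        Complex.exp ((m i : ℂ) * (s : ℂ) / (N : ℂ))) +
      ∑ j, u' j t * (s : ℂ) ^ (k j) *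
        ((1 - E (v j) (q j) t * Complex.exp ((s : ℂ) / (N : ℂ)))⁻¹) ^ (e j) with hR
    have hae : (fun s : ℝ => f (Fin.cons s t)) =ᵐ[volume] R := by
      filter_upwards [ht] with s hs
      rw [hs, hR]
      simp only [Fin.tail_cons, Fin.cons_zero]
    have hIR : Integrable R := hI.congr hae
    have hcomp : ∀ x : ℝ, R ((N : ℝ) * x) = PA (fun i => u i t * (N : ℂ) ^ (kap i))
        (fun i => (m i : ℝ)) kap x + PC (fun j => u' j t * (N : ℂ) ^ (k j)) k e
          (fun j => ll (v j) (q j) t) (x : ℂ) := by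
      intro x
      have e1 : (((N : ℝ) * x : ℝ) : ℂ) = (N : ℂ) * (x : ℂ) := by push_cast; ring
      rw [hR]
      unfold PA PC
      simp only
      rw [e1]
      congr 1
      · refine Finset.sum_congr rfl fun i _ => ?_
        have e2 : (m i : ℂ) * ((N : ℂ) * (x : ℂ)) / (N : ℂ) = (((m i : ℝ)) : ℂ) * (x : ℂ) := by
          field_simp
          push_cast
          ring
        rw [e2, mul_pow]
        ring
      · refine Finset.sum_congr rfl fun j _ => ?_
        have e2 : (N : ℂ) * (x : ℂ) / (N : ℂ) = (x : ℂ) := by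
          field_simp
        have e3 : 1 - E (v j) (q j) t * Complex.exp (x : ℂ) =
            1 + Complex.exp ((x : ℂ) + ll (v j) (q j) t) := by
          rw [E_eq, Complex.exp_add]
          ring
        rw [e2, e3, mul_pow]
        ring
    have hI2 : Integrable (fun x : ℝ => PA (fun i => u i t * (N : ℂ) ^ (kap i))
        (fun i => (m i : ℝ)) kap x + PC (fun j => u' j t * (N : ℂ) ^ (k j)) k e
          (fun j => ll (v j) (q j) t) (x : ℂ)) := by
      have := hIR.comp_mul_left' hNR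
      refine this.congr (Filter.Eventually.of_forall fun x => ?_)
      exact hcomp x
    have him1 : ∀ j, -Real.pi < (ll (v j) (q j) t).im := by
      intro j
      rw [ll_im]
      have h1 : (-1 : ℝ) < (qn (q j) : ℝ) := by exact_mod_cast qn_gt (q j)
      nlinarith [Real.pi_pos]
    have him2 : ∀ j, (ll (v j) (q j) t).im ≤ Real.pi := by
      intro j
      rw [ll_im]
      have h1 : (qn (q j) : ℝ) ≤ 1 := by exact_mod_cast qn_le (q j)
      nlinarith [Real.pi_pos]
    have hres := hONE (Fin r) (Fin r') (fun i => u i t * (N : ℂ) ^ (kap i))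
      (fun i => (m i : ℝ)) kap (fun j => u' j t * (N : ℂ) ^ (k j)) k e
      (fun j => ll (v j) (q j) t) he him1 him2 hI2
    have hsub : (∫ x : ℝ, R ((N : ℝ) * x)) = |(N : ℝ)⁻¹| • ∫ y : ℝ, R y :=
      Measure.integral_comp_mul_left R (N : ℝ)
    have h6 : (∫ x : ℝ, R ((N : ℝ) * x)) = ∑ j, (u' j t * (N : ℂ) ^ (k j)) *
        QQ (k j) (e j) (ll (v j) (q j) t) := by
      rw [← hres]
      exact integral_congr_ae (Filter.Eventually.of_forall hcomp)
    have h7 : (∫ y : ℝ, R y) = (N : ℂ) * ∑ j, (u' j t * (N : ℂ) ^ (k j)) *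
        QQ (k j) (e j) (ll (v j) (q j) t) := by
      rw [← h6, hsub, abs_of_pos (by positivity), Complex.real_smul]
      push_cast
      field_simp
    rw [integral_congr_ae hae, h7, Finset.mul_sum]
    refine Finset.sum_congr rfl fun j _ => ?_
    ring

end TPER
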