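import Pool.Agent.TPER.St

set_option autoImplicit false

namespace TPER

theorem thm_PF : St_PF := by
  intro m z hm hz
  have hm0 : (m : ℂ) ≠ 0 := by
    have : m ≠ 0 := by omega
    exact_mod_cast this
  set eta : ℂ := Complex.exp (2 * (Real.pi : ℂ) * Complex.I / (m : ℂ)) with heta
  have hprim : IsPrimitiveRoot eta m := Complex.isPrimitiveRoot_exp m (by omega)
  have hpow : ∀ j : ℕ, Complex.exp (2 * (Real.pi : ℂ) * Complex.I * (j : ℂ) / (m : ℂ)) =
      eta ^ j := by
    intro j
    rw [heta, ← Complex.exp_nat_mul]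
    congr 1
    ring
  have hden : (1 : ℂ) - z ^ m ≠ 0 := fun h => hz (by linear_combination -h)
  have hterm : ∀ j ∈ Finset.range m,
      (1 - Complex.exp (2 * (Real.pi : ℂ) * Complex.I * (j : ℂ) / (m : ℂ)) * z)⁻¹ =
      (∑ i ∈ Finset.range m, (eta ^ j * z) ^ i) * (1 - z ^ m)⁻¹ := by
    intro j _
    rw [hpow j]
    have h1 : (eta ^ j * z) ^ m = z ^ m := by
      rw [mul_pow, ← pow_mul, mul_comm j m, pow_mul, hprim.pow_eq_one, one_pow, one_mul]
    have h2 : (∑ i ∈ Finset.range m, (eta ^ j * z) ^ i) * (1 - eta ^ j * z) = 1 - z ^ m := by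
      have := geom_sum_mul_neg (eta ^ j * z) m
      rw [h1] at this
      exact this
    have h3 : (1 : ℂ) - eta ^ j * z ≠ 0 := by
      intro h
      rw [h, mul_zero] at h2
      exact hden h2.symm
    rw [inv_eq_iff_eq_inv, mul_inv, inv_inv, eq_comm]
    have h4 : (∑ i ∈ Finset.range m, (eta ^ j * z) ^ i) ≠ 0 := by
      intro h
      rw [h, zero_mul] at h2
      exact hden h2.symm
    rw [← h2]
    field_simp
  rw [Finset.sum_congr rfl hterm, ← Finset.sum_mul, Finset.sum_comm]
  congr 1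
  rw [Finset.sum_eq_single 0]
  · simp
  · intro i hi hi0
    have hi' := Finset.mem_range.1 hi
    have h5 : ∀ j : ℕ, (eta ^ j * z) ^ i = z ^ i * (eta ^ i) ^ j := by
      intro j
      rw [mul_pow, ← pow_mul, ← pow_mul, mul_comm j i]
      ring
    simp only [h5]
    rw [← Finset.mul_sum]
    have h6 : eta ^ i ≠ 1 := hprim.pow_ne_one_of_pos_of_lt hi0 hi'
    have h7 : (∑ j ∈ Finset.range m, (eta ^ i) ^ j) * (eta ^ i - 1) = 0 := by
      rw [geom_sum_mul, ← pow_mul, mul_comm i m, pow_mul, hprim.pow_eq_one, one_pow, sub_self]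
    have h8 : (∑ j ∈ Finset.range m, (eta ^ i) ^ j) = 0 := by
      rcases mul_eq_zero.1 h7 with h | h
      · exact h
      · exact absurd (sub_eq_zero.1 h) h6
    rw [h8, mul_zero]
  · intro h
    exact absurd (Finset.mem_range.2 (by omega)) h

end TPER
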