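import Mathlib
import Pool.Agent.TPER.St

/-!
# Toric periods, module PI: `pi` is a toric period
-/

set_option autoImplicit false

namespace TPER

open MeasureTheory Filter Topology

private lemma PI_eq (x : Fin 1 → ℝ) : toricIntegrand (n := 1) (r := 1) (J := 1) (fun _ => 2)
    (fun _ _ => 0) (fun _ _ => 0) (fun _ => -1) (fun _ _ => 2) x =
    ((2 * (1 + (x 0) ^ 2)⁻¹ : ℝ) : ℂ) := by
  unfold toricIntegrand mono
  simp only [Finset.univ_unique, Fin.default_eq_zero, Finset.sum_const,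
    Finset.prod_const, Finset.prod_singleton, Finset.card_singleton, pow_one, Rat.cast_zero,
    Real.rpow_zero, pow_zero, one_smul, Rat.cast_ofNat, Real.rpow_two]
  push_cast
  rw [div_eq_mul_inv]
  congr 1
  · ring
  · congr 1
    ring

private lemma PI_set : orthant 1 = (MeasurableEquiv.funUnique (Fin 1) ℝ) ⁻¹' (Set.Ioi 0) := by
  ext x
  simp [orthant]

theorem thm_PI : St_PI := by
  have hmp := volume_preserving_funUnique (Fin 1) ℝ
  have hI : IntegrableOn (fun y : ℝ => ((2 * (1 + y ^ 2)⁻¹ : ℝ) : ℂ)) (Set.Ioi 0) :=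
    (integrable_inv_one_add_sq.const_mul 2).ofReal.integrableOn
  have e1 : toricIntegrand (n := 1) (r := 1) (J := 1) (fun _ => 2)
    (fun _ _ => 0) (fun _ _ => 0) (fun _ => -1) (fun _ _ => 2) =
      (fun y : ℝ => ((2 * (1 + y ^ 2)⁻¹ : ℝ) : ℂ)) ∘ (MeasurableEquiv.funUnique (Fin 1) ℝ) := by
    funext x
    rw [PI_eq]
    rfl
  refine ⟨1, 1, fun _ => 2, fun _ _ => 0, fun _ _ => 0, fun _ => -1, fun _ _ => 2, ?_, ?_, ?_,
    ?_, ?_⟩
  · intro _
    exact (isAlgebraic_algebraMap (2 : ℚ) : IsAlgebraic ℚ ((algebraMap ℚ ℂ) 2)) |> fun h => by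
      simpa using h
  · intro _
    simp
  · intro _
    exact ⟨2, by norm_num, by norm_num⟩
  · rw [e1, PI_set]
    exact (hmp.integrableOn_comp_preimage (MeasurableEquiv.measurableEmbedding _)).2 hI
  · rw [e1, PI_set]
    have h1 := hmp.setIntegral_preimage_emb (MeasurableEquiv.measurableEmbedding _)
      (fun y : ℝ => ((2 * (1 + y ^ 2)⁻¹ : ℝ) : ℂ)) (Set.Ioi 0)
    refine Eq.trans ?_ h1.symm
    rw [integral_complex_ofReal, integral_const_mul, integral_Ioi_inv_one_add_sq,
      Real.arctan_zero]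
    push_cast
    ring

end TPER
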