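import Pool.Agent.TPER.St
import Pool.Agent.Helper72.Toric4

/-!
# Toric periods, module QW: the value polynomials have weight `k + 1`
-/

set_option autoImplicit false

namespace TPER

open MeasureTheory Filter Topology Pool.Agent.Helper72.Toric

private lemma QW_const {n : ℕ} (hW : St_WM) (a : ℕ) (x : ℂ) (hx : PiDeg a x) :
    (fun _ : Fin n → ℝ => x) ∈ W n a := by
  obtain ⟨-, hmono, -, -, hc⟩ := hW
  obtain ⟨p, hp, hx⟩ := hx
  have e : (fun _ : Fin n → ℝ => x) =
      ∑ i ∈ Finset.range (p.natDegree + 1), fun _ : Fin n → ℝ =>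
        ((p.coeff i : ℚ) : ℂ) * (Real.pi : ℂ) ^ i := by
    funext t
    rw [Finset.sum_apply, ← hx, Polynomial.aeval_eq_sum_range]
    refine Finset.sum_congr rfl fun i _ => ?_
    rw [Algebra.smul_def]
    rfl
  rw [e]
  refine AddSubgroup.sum_mem _ fun i hi => ?_
  rw [Finset.mem_range] at hi
  exact hmono n i a (by omega) (hc n i _ (isAlgebraic_algebraMap (p.coeff i)))

private lemma QW_smul {n : ℕ} (hW : St_WM) (a : ℕ) (c : ℚ) (f : (Fin n → ℝ) → ℂ)
    (hf : f ∈ W n a) : (fun t => (c : ℂ) * f t) ∈ W n a := by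
  have h1 : (fun _ : Fin n → ℝ => (c : ℂ)) ∈ W n 0 := by
    refine hW.2.2.1 n _ ?_
    exact Subring.subset_closure (Or.inl (Or.inl ⟨_, isAlgebraic_algebraMap c, rfl⟩))
  have h2 := hW.1 n 0 a _ f h1 hf
  rw [zero_add] at h2
  exact h2

private lemma QW_l {n : ℕ} (hW : St_WM) (v : Fin n → ℚ) (q : ℚ) :
    (fun t => -((lin v t : ℂ) + (q : ℂ) * (Real.pi : ℂ) * Complex.I)) ∈ W n 1 := by
  have h1 := hW.2.2.2.1 n v
  have h2 := hW.2.2.2.2 n 1 ((q : ℂ) * Complex.I) (by
    refine (isAlgebraic_algebraMap q).mul ?_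
    exact (Complex.isIntegral_rat_I).isAlgebraic)
  have h3 := AddSubgroup.neg_mem _ (AddSubgroup.add_mem _ h1 h2)
  refine (congrArg (· ∈ W n 1) ?_).mp h3
  funext t
  simp only [Pi.neg_apply, Pi.add_apply, pow_one]
  ring

private lemma QW_pow {n : ℕ} (hW : St_WM) (f : (Fin n → ℝ) → ℂ) (hf : f ∈ W n 1) (a : ℕ) :
    (fun t => f t ^ a) ∈ W n a := by
  induction a with
  | zero =>
    refine hW.2.2.1 n _ ?_
    have : (fun t : Fin n → ℝ => f t ^ 0) = 1 := by
      funext t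
      simp
    rw [this]
    exact Subring.one_mem _
  | succ a ih =>
    have := hW.1 n a 1 _ f ih hf
    simpa only [pow_succ] using this

theorem thm_QW (hW : St_WM) : St_QW := by
  intro n k e v q he
  obtain ⟨e, rfl⟩ : ∃ e' : ℕ, e = e' + 1 := ⟨e - 1, by omega⟩
  set L : (Fin n → ℝ) → ℂ := fun t => -((lin v t : ℂ) + (q : ℂ) * (Real.pi : ℂ) * Complex.I)
    with hL
  have hLW : L ∈ W n 1 := QW_l hW v q
  have hP := fun a => QW_pow hW L hLW a
  have h1 : ∀ j ∈ Finset.range (k + 1), (fun t : Fin n → ℝ =>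
      (((k.choose j : ℚ)) : ℂ) * (J j (e + 1) 0 * L t ^ (k - j))) ∈ W n (k + 1) := by
    intro j hj
    rw [Finset.mem_range] at hj
    have h2 := hW.1 n (j + 1) (k - j) _ _ (QW_const (n := n) hW (j + 1) _ (J_deg e j)) (hP (k - j))
    rw [show j + 1 + (k - j) = k + 1 by omega] at h2
    exact QW_smul hW (k + 1) _ _ h2
  have h2 := QW_smul hW (k + 1) (1 / ((k : ℚ) + 1)) _ (hP (k + 1))
  have h3 := AddSubgroup.add_mem _ (AddSubgroup.sum_mem _ h1) h2
  refine (congrArg (· ∈ W n (k + 1)) ?_).mp h3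
  funext t
  rw [Pi.add_apply, Finset.sum_apply]
  unfold QQ pol
  congr 1
  · refine Finset.sum_congr rfl fun j _ => ?_
    rw [hL]
    push_cast
    ring
  · rw [hL]
    push_cast
    ring

end TPER
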