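import Pool.Agent.TPER.St

/-!
# Toric periods, module TW: the weight of the toric integrand in exponential coordinates
-/

set_option autoImplicit false

namespace TPER

open MeasureTheory Filter Topology

private lemma TW_mono {n : ℕ} (a : Fin n → ℚ) (t : Fin n → ℝ) :
    (mono a (fun i => Real.exp (t i)) : ℂ) = E a 0 t := by
  unfold mono E lin
  have h : ∀ l, Real.exp (t l) ^ ((a l : ℚ) : ℝ) = Real.exp ((a l : ℝ) * t l) := by
    intro l
    rw [← Real.exp_mul, mul_comm]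
  simp only [h]
  rw [← Real.exp_sum]
  push_cast
  simp

private lemma TW_root {N : ℕ} (hN : 0 < N) {z : ℂ} (hz : z ^ N = 1) :
    ∃ q : ℚ, z = Complex.exp ((q : ℂ) * (Real.pi : ℂ) * Complex.I) := by
  have hN0 : N ≠ 0 := by omega
  have : NeZero N := ⟨hN0⟩
  have hz0 : z ≠ 0 := by
    rintro rfl
    rw [zero_pow hN0] at hz
    exact zero_ne_one hz
  have h1 : Complex.exp ((N : ℂ) * Complex.log z) = 1 := by
    rw [Complex.exp_nat_mul, Complex.exp_log hz0, hz]
  rw [Complex.exp_eq_one_iff] at h1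
  obtain ⟨k, hk⟩ := h1
  refine ⟨2 * k / N, ?_⟩
  have hNC : (N : ℂ) ≠ 0 := by exact_mod_cast hN0
  have h2 : ((2 * k / N : ℚ) : ℂ) * (Real.pi : ℂ) * Complex.I = Complex.log z := by
    have h3 : Complex.log z = (N : ℂ) * Complex.log z / N := by field_simp
    rw [h3, hk]
    push_cast
    ring
  rw [h2, Complex.exp_log hz0]

theorem thm_TW (_hW : St_WM) : St_TW := by
  intro n d r J c a k z m hc hk hz
  have hq : ∀ j, ∃ q : ℚ, z j = Complex.exp ((q : ℂ) * (Real.pi : ℂ) * Complex.I) := by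
    intro j
    obtain ⟨N, hN, h⟩ := hz j
    exact TW_root hN h
  choose q hq using hq
  have hE : ∀ (v : Fin n → ℚ) (p : ℚ), E v p ∈ T0 n := fun v p =>
    Subring.subset_closure (Or.inl (Or.inr ⟨v, p, rfl⟩))
  have hI : ∀ (v : Fin n → ℚ) (p : ℚ), (fun t => (1 - E v p t)⁻¹) ∈ T0 n := fun v p =>
    Subring.subset_closure (Or.inr ⟨v, p, rfl⟩)
  have hprod : (∏ j, fun t => (1 - E (m j) (q j) t)⁻¹) ∈ T0 n :=
    Subring.prod_mem _ fun j _ => hI _ _
  have h1 : ∀ i ∈ (Finset.univ : Finset (Fin r)), (fun t : Fin n → ℝ => (Real.pi : ℂ) ^ 0 *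
      (∏ l, (t l : ℂ) ^ (k i l)) * (((fun _ => c i) * E (a i) 0 * E 1 0 *
        ∏ j, fun t => (1 - E (m j) (q j) t)⁻¹ : (Fin n → ℝ) → ℂ) t)) ∈ W n d := by
    intro i _
    refine AddSubgroup.subset_closure ⟨0, k i, _, ?_, by rw [zero_add]; exact hk i, rfl⟩
    refine Subring.mul_mem _ (Subring.mul_mem _ (Subring.mul_mem _ ?_ (hE _ _)) (hE _ _)) hprod
    exact Subring.subset_closure (Or.inl (Or.inl ⟨c i, hc i, rfl⟩))
  have h2 := AddSubgroup.sum_mem _ h1
  refine (congrArg (· ∈ W n d) ?_).mp h2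
  funext t
  rw [Finset.sum_apply]
  have hs : (Real.exp (∑ i, t i) : ℂ) = E 1 0 t := by
    unfold E lin
    simp
  have hden : ∀ j, 1 - z j * (mono (m j) (fun i => Real.exp (t i)) : ℂ) =
      1 - E (m j) (q j) t := by
    intro j
    rw [TW_mono, hq j]
    unfold E
    rw [← Complex.exp_add]
    congr 2
    push_cast
    ring
  rw [hs]
  unfold toricIntegrand
  simp only [TW_mono, Real.log_exp, Pi.mul_apply, Finset.prod_apply, pow_zero, one_mul]
  have hden' : ∏ j, (1 - z j * E (m j) 0 t) = ∏ j, (1 - E (m j) (q j) t) := by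
    refine Finset.prod_congr rfl fun j _ => ?_
    rw [← hden j, TW_mono]
  rw [hden', Finset.prod_inv_distrib, div_eq_mul_inv, Finset.sum_mul, Finset.mul_sum]
  refine Finset.sum_congr rfl fun i _ => ?_
  ring

end TPER
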