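import Pool.Agent.TPER.St

set_option autoImplicit false

namespace TPER

open MeasureTheory Filter Topology

private theorem const_mem {n : ℕ} (c : ℂ) (hc : IsAlgebraic ℚ c) :
    (fun _ : Fin n → ℝ => c) ∈ T0 n :=
  Subring.subset_closure (Or.inl (Or.inl ⟨c, hc, rfl⟩))

private theorem gen_mul {n a b : ℕ} (f g : (Fin n → ℝ) → ℂ)
    (hf : ∃ (p : ℕ) (k : Fin n → ℕ) (h : (Fin n → ℝ) → ℂ), h ∈ T0 n ∧ p + ∑ i, k i ≤ a ∧
      f = fun t => (Real.pi : ℂ) ^ p * (∏ i, (t i : ℂ) ^ (k i)) * h t)
    (hg : ∃ (p : ℕ) (k : Fin n → ℕ) (h : (Fin n → ℝ) → ℂ), h ∈ T0 n ∧ p + ∑ i, k i ≤ b ∧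
      g = fun t => (Real.pi : ℂ) ^ p * (∏ i, (t i : ℂ) ^ (k i)) * h t) :
    (fun t => f t * g t) ∈ W n (a + b) := by
  obtain ⟨p, k, h, hh, hw, rfl⟩ := hf
  obtain ⟨p', k', h', hh', hw', rfl⟩ := hg
  refine AddSubgroup.subset_closure ⟨p + p', fun i => k i + k' i, h * h',
    (T0 n).mul_mem hh hh', ?_, ?_⟩
  · rw [Finset.sum_add_distrib]
    omega
  · funext t
    simp only [pow_add, Finset.prod_mul_distrib, Pi.mul_apply]
    ring

private theorem mul_mem' {n a b : ℕ} (f g : (Fin n → ℝ) → ℂ) (hf : f ∈ W n a) (hg : g ∈ W n b) :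
    (fun t => f t * g t) ∈ W n (a + b) := by
  unfold W at hf
  induction hf using AddSubgroup.closure_induction with
  | mem f hf =>
    unfold W at hg
    induction hg using AddSubgroup.closure_induction with
    | mem g hg => exact gen_mul f g hf hg
    | zero =>
      have : (fun t : Fin n → ℝ => f t * (0 : (Fin n → ℝ) → ℂ) t) = 0 := by
        funext t
        simp
      rw [this]
      exact (W n (a + b)).zero_mem
    | add g1 g2 _ _ h1 h2 =>
      have : (fun t : Fin n → ℝ => f t * (g1 + g2) t) =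
          (fun t => f t * g1 t) + (fun t => f t * g2 t) := by
        funext t
        simp only [Pi.add_apply]
        ring
      rw [this]
      exact (W n (a + b)).add_mem h1 h2
    | neg g1 _ h1 =>
      have : (fun t : Fin n → ℝ => f t * (-g1) t) = -(fun t => f t * g1 t) := by
        funext t
        simp only [Pi.neg_apply]
        ring
      rw [this]
      exact (W n (a + b)).neg_mem h1
  | zero =>
    have : (fun t : Fin n → ℝ => (0 : (Fin n → ℝ) → ℂ) t * g t) = 0 := by
      funext t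
      simp
    rw [this]
    exact (W n (a + b)).zero_mem
  | add f1 f2 _ _ h1 h2 =>
    have : (fun t : Fin n → ℝ => (f1 + f2) t * g t) =
        (fun t => f1 t * g t) + (fun t => f2 t * g t) := by
      funext t
      simp only [Pi.add_apply]
      ring
    rw [this]
    exact (W n (a + b)).add_mem h1 h2
  | neg f1 _ h1 =>
    have : (fun t : Fin n → ℝ => (-f1) t * g t) = -(fun t => f1 t * g t) := by
      funext t
      simp only [Pi.neg_apply]
      ring
    rw [this]
    exact (W n (a + b)).neg_mem h1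

private theorem mono' {n a b : ℕ} (h : a ≤ b) : W n a ≤ W n b := by
  unfold W
  refine AddSubgroup.closure_mono ?_
  rintro f ⟨p, k, g, hg, hw, rfl⟩
  exact ⟨p, k, g, hg, le_trans hw h, rfl⟩

private theorem T0_le {n : ℕ} (f : (Fin n → ℝ) → ℂ) (hf : f ∈ T0 n) : f ∈ W n 0 := by
  refine AddSubgroup.subset_closure ⟨0, fun _ => 0, f, hf, by simp, ?_⟩
  funext t
  simp

private theorem lin_mem' {n : ℕ} (v : Fin n → ℚ) : (fun t => (lin v t : ℂ)) ∈ W n 1 := by
  have e : (fun t : Fin n → ℝ => (lin v t : ℂ)) =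
      ∑ i, fun t : Fin n → ℝ => (v i : ℂ) * (t i : ℂ) := by
    funext t
    unfold lin
    rw [Finset.sum_apply]
    push_cast
    rfl
  rw [e]
  refine AddSubgroup.sum_mem _ fun i _ => ?_
  refine AddSubgroup.subset_closure ⟨0, Pi.single i 1, fun _ => (v i : ℂ),
    const_mem _ (isAlgebraic_algebraMap (v i)), ?_, ?_⟩
  · simp
  · funext t
    have : (∏ j, (t j : ℂ) ^ (Pi.single i 1 : Fin n → ℕ) j) = (t i : ℂ) := by
      rw [Finset.prod_eq_single i]
      · simp
      · intro j _ hj
        rw [Pi.single_eq_of_ne hj, pow_zero]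
      · intro h
        exact absurd (Finset.mem_univ i) h
    rw [this]
    ring

private theorem cpi_mem {n : ℕ} (j : ℕ) (c : ℂ) (hc : IsAlgebraic ℚ c) :
    (fun _ => c * (Real.pi : ℂ) ^ j) ∈ W n j := by
  refine AddSubgroup.subset_closure ⟨j, fun _ => 0, fun _ => c, const_mem c hc, by simp, ?_⟩
  funext t
  simp
  ring

theorem thm_WM : St_WM :=
  ⟨fun _ _ _ f g hf hg => mul_mem' f g hf hg, fun _ _ _ h => mono' h, fun _ f hf => T0_le f hf,
    fun _ v => lin_mem' v, fun _ j c hc => cpi_mem j c hc⟩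

end TPER
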