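import Pool.Agent.TPER.St

set_option autoImplicit false

namespace TPER

open MeasureTheory Filter Topology

private theorem alg_of_pow_eq_one (z : ℂ) (N : ℕ) (hN : 0 < N) (h : z ^ N = 1) :
    IsAlgebraic ℚ z := by
  refine ⟨Polynomial.X ^ N - Polynomial.C 1, ?_, ?_⟩
  · exact Polynomial.X_pow_sub_C_ne_zero hN 1
  · simp [h]

private theorem E_alg (v : Fin 0 → ℚ) (q : ℚ) : IsAlgebraic ℚ (E v q default) := by
  have h0 : E v q default = Complex.exp ((q : ℂ) * (Real.pi : ℂ) * Complex.I) := by
    unfold E lin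
    simp
  rw [h0]
  refine alg_of_pow_eq_one _ (2 * q.den) (by have := q.den_pos; omega) ?_
  rw [← Complex.exp_nat_mul]
  have h1 : ((2 * q.den : ℕ) : ℂ) * ((q : ℂ) * (Real.pi : ℂ) * Complex.I) =
      (q.num : ℂ) * (2 * (Real.pi : ℂ) * Complex.I) := by
    have h2 : (q : ℂ) * (q.den : ℂ) = (q.num : ℂ) := by
      have := Rat.mul_den_eq_num q
      exact_mod_cast this
    push_cast
    linear_combination (2 * (Real.pi : ℂ) * Complex.I) * h2
  rw [h1]
  exact Complex.exp_int_mul_two_pi_mul_I q.num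

private theorem T0_alg (h : (Fin 0 → ℝ) → ℂ) (hh : h ∈ T0 0) : IsAlgebraic ℚ (h default) := by
  unfold T0 at hh
  induction hh using Subring.closure_induction with
  | mem h hh =>
    rcases hh with (⟨c, hc, rfl⟩ | ⟨v, q, rfl⟩) | ⟨v, q, rfl⟩
    · exact hc
    · exact E_alg v q
    · exact ((isAlgebraic_one).sub (E_alg v q)).inv
  | zero => exact isAlgebraic_zero
  | one => exact isAlgebraic_one
  | add f g _ _ h1 h2 => exact h1.add h2
  | neg f _ h1 => exact h1.neg
  | mul f g _ _ h1 h2 => exact h1.mul h2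

theorem thm_ZERO : St_ZERO := by
  intro w g hg
  unfold W at hg
  induction hg using AddSubgroup.closure_induction with
  | mem g hg =>
    obtain ⟨p, k, h, hh, hw, rfl⟩ := hg
    refine ⟨Polynomial.monomial p (h default), ?_, ?_, ?_⟩
    · intro i
      rw [Polynomial.coeff_monomial]
      split_ifs
      · exact T0_alg h hh
      · exact isAlgebraic_zero
    · refine le_trans (Polynomial.natDegree_monomial_le _) ?_
      omega
    · rw [Polynomial.eval_monomial]
      simp
      ring
  | zero =>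
    exact ⟨0, fun i => by simpa using isAlgebraic_zero, by simp, by simp⟩
  | add g1 g2 _ _ h1 h2 =>
    obtain ⟨p1, a1, b1, c1⟩ := h1
    obtain ⟨p2, a2, b2, c2⟩ := h2
    refine ⟨p1 + p2, fun i => ?_, ?_, ?_⟩
    · rw [Polynomial.coeff_add]
      exact (a1 i).add (a2 i)
    · exact le_trans (Polynomial.natDegree_add_le _ _) (max_le b1 b2)
    · rw [Polynomial.eval_add, Pi.add_apply, c1, c2]
  | neg g1 _ h1 =>
    obtain ⟨p1, a1, b1, c1⟩ := h1
    refine ⟨-p1, fun i => ?_, ?_, ?_⟩
    · rw [Polynomial.coeff_neg]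
      exact (a1 i).neg
    · rw [Polynomial.natDegree_neg]
      exact b1
    · rw [Polynomial.eval_neg, Pi.neg_apply, c1]

end TPER
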