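import Pool.Agent.TPER.EP
import Pool.Agent.TPER.ASY
import Pool.Agent.TPER.DEC
import Pool.Agent.TPER.BDD
import Pool.Agent.TPER.ONE
import Pool.Agent.TPER.PF
import Pool.Agent.TPER.AE
import Pool.Agent.TPER.MUL
import Pool.Agent.TPER.NF
import Pool.Agent.TPER.WM
import Pool.Agent.TPER.QW
import Pool.Agent.TPER.NFW
import Pool.Agent.TPER.PAR
import Pool.Agent.TPER.FUB
import Pool.Agent.TPER.ZERO
import Pool.Agent.TPER.CV
import Pool.Agent.TPER.TW
import Pool.Agent.TPER.PI
import Pool.Agent.TPER.DEG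
import Pool.Agent.TPER.MAIN

set_option autoImplicit false

namespace TPER

theorem asy : St_ASY := thm_ASY thm_EP

theorem one : St_ONE := thm_ONE asy thm_DEC thm_BDD

theorem mul : St_MUL := thm_MUL thm_AE

theorem nf : St_NF := thm_NF thm_PF thm_AE mul

theorem nfw : St_NFW := thm_NFW nf

theorem qw : St_QW := thm_QW thm_WM

theorem par : St_PAR := thm_PAR one qw thm_WM nfw

theorem fub : St_FUB := thm_FUB par

theorem tw : St_TW := thm_TW thm_WM

theorem deg : St_DEG := thm_DEG fub thm_ZERO thm_CV tw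

theorem main : St_MAIN := thm_MAIN deg thm_PI

end TPER
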