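import Pool.Agent.TPER.St

set_option autoImplicit false

namespace TPER

open MeasureTheory

theorem thm_DEG (hF : St_FUB) (hZ : St_ZERO) (hC : St_CV) (hT : St_TW) : St_DEG := by
  rintro n d v ⟨r, J, c, a, k, z, m, hc, hk, hz, hint, hv⟩
  have hW := hT n d r J c a k z m hc hk hz
  obtain ⟨hI, heq⟩ := hC n (toricIntegrand c a k z m) hint
  obtain ⟨g, hg, hgi⟩ := hF n d _ hW hI
  obtain ⟨p, hp1, hp2, hp3⟩ := hZ (d + n) g hg
  refine ⟨p, hp1, ?_, ?_⟩
  · omega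
  · rw [hv, heq, hgi, hp3]

end TPER
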