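import Mathlib
import Pool.Agent.Helper72.Toric3

/-!
# Toric periods: definitions (MP_725b61_nt)

We prove that every absolutely convergent integral over the whole positive orthant of a rational
function (times powers of logarithms) whose denominator is a product of factors
`1 - z * x^m` with `z` a root of unity lies in `Qbar[pi]`.
-/

set_option autoImplicit false

namespace TPER

open MeasureTheory

/-- A linear form with rational coefficients. -/
noncomputable def lin {n : ℕ} (v : Fin n → ℚ) (t : Fin n → ℝ) : ℝ := ∑ i, (v i : ℝ) * t i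

/-- `E v q t = exp (v . t + i pi q)`. -/
noncomputable def E {n : ℕ} (v : Fin n → ℚ) (q : ℚ) (t : Fin n → ℝ) : ℂ :=
  Complex.exp ((lin v t : ℂ) + (q : ℂ) * (Real.pi : ℂ) * Complex.I)

/-- The ring of weight zero: functions on `R^n` generated by the algebraic constants, the
functions `E v q` and the functions `1 / (1 - E v q)` (with value `0` where the denominator
vanishes). -/
def T0 (n : ℕ) : Subring ((Fin n → ℝ) → ℂ) := Subring.closure
  ({f | ∃ c : ℂ, IsAlgebraic ℚ c ∧ f = fun _ => c} ∪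
    {f | ∃ (v : Fin n → ℚ) (q : ℚ), f = E v q} ∪
    {f | ∃ (v : Fin n → ℚ) (q : ℚ), f = fun t => (1 - E v q t)⁻¹})

/-- The functions of weight at most `w`: sums of `pi^p * t^k * h` with `p + |k| ≤ w` and `h` of
weight zero. -/
def W (n w : ℕ) : AddSubgroup ((Fin n → ℝ) → ℂ) := AddSubgroup.closure
  {f | ∃ (p : ℕ) (k : Fin n → ℕ) (h : (Fin n → ℝ) → ℂ), h ∈ T0 n ∧ p + ∑ i, k i ≤ w ∧
    f = fun t => (Real.pi : ℂ) ^ p * (∏ i, (t i : ℂ) ^ (k i)) * h t}

/-- The value polynomial: the regularised integral of `s^k / (1 + e^(s+l))^e` over the line.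
`J j e 0` is the integral of `s^j ((1 + e^s)^(-e) - 1_{s<0})` and
`pol k c x = sum_{j ≤ k} binom(k,j) c_j (-x)^(k-j) + (-x)^(k+1)/(k+1)`
(files `Pool/Agent/Helper72/Toric1, Toric2, Toric3`). -/
noncomputable def QQ (k e : ℕ) (l : ℂ) : ℂ :=
  Pool.Agent.Helper72.Toric.pol k (fun j => Pool.Agent.Helper72.Toric.J j e 0) l

/-- The normal form span with step `N`: sums of `c(t) e^(m s / N)` and
`c(t) / (1 - E v q (t) e^(s/N))^e`; the point of `R^(n+1)` is `(s, t)`, `s` the coordinate `0`. -/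
def SN (n N : ℕ) : AddSubgroup ((Fin (n + 1) → ℝ) → ℂ) := AddSubgroup.closure
  ({f | ∃ (c : (Fin n → ℝ) → ℂ) (m : ℤ), c ∈ T0 n ∧
      f = fun x => c (Fin.tail x) * Complex.exp ((m : ℂ) * (x 0 : ℂ) / (N : ℂ))} ∪
    {f | ∃ (c : (Fin n → ℝ) → ℂ) (v : Fin n → ℚ) (q : ℚ) (e : ℕ), c ∈ T0 n ∧ 1 ≤ e ∧
      f = fun x => c (Fin.tail x) *
        ((1 - E v q (Fin.tail x) * Complex.exp ((x 0 : ℂ) / (N : ℂ)))⁻¹) ^ e})

/-- Equality for almost every `t` and then almost every `s`. -/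
def AeEq (n : ℕ) (f g : (Fin (n + 1) → ℝ) → ℂ) : Prop :=
  ∀ᵐ t : Fin n → ℝ, ∀ᵐ s : ℝ, f (Fin.cons s t) = g (Fin.cons s t)

/-- The open positive orthant. -/
def orthant (n : ℕ) : Set (Fin n → ℝ) := {x | ∀ i, 0 < x i}

/-- `x^a = x_1^(a_1) ... x_n^(a_n)` for a rational exponent vector `a` (real powers). -/
noncomputable def mono {n : ℕ} (a : Fin n → ℚ) (x : Fin n → ℝ) : ℝ := ∏ l, (x l) ^ (a l : ℝ)

/-- The toric integrand
`(sum_i c_i x^(a_i) (log x)^(k_i)) / prod_j (1 - z_j x^(m_j))`. -/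
noncomputable def toricIntegrand {n r J : ℕ} (c : Fin r → ℂ) (a : Fin r → Fin n → ℚ)
    (k : Fin r → Fin n → ℕ) (z : Fin J → ℂ) (m : Fin J → Fin n → ℚ) (x : Fin n → ℝ) : ℂ :=
  (∑ i, c i * (mono (a i) x : ℂ) * ∏ l, (Real.log (x l) : ℂ) ^ (k i l)) /
    ∏ j, (1 - z j * (mono (m j) x : ℂ))

/-- `v` is a toric period in dimension `n` with logarithmic degree at most `d`: an absolutely
convergent integral over the positive orthant of `R^n` of a toric integrand with algebraic
coefficients, rational exponents, roots of unity `z_j`, and at most `d` logarithms in each term. -/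
def IsToricPeriodOf (n d : ℕ) (v : ℂ) : Prop :=
  ∃ (r J : ℕ) (c : Fin r → ℂ) (a : Fin r → Fin n → ℚ) (k : Fin r → Fin n → ℕ)
    (z : Fin J → ℂ) (m : Fin J → Fin n → ℚ),
    (∀ i, IsAlgebraic ℚ (c i)) ∧ (∀ i, ∑ l, k i l ≤ d) ∧ (∀ j, ∃ N : ℕ, 0 < N ∧ z j ^ N = 1) ∧
    IntegrableOn (toricIntegrand c a k z m) (orthant n) ∧
    v = ∫ x in orthant n, toricIntegrand c a k z m x

/-- A toric period: any dimension, any logarithmic degree. -/
def IsToricPeriod (v : ℂ) : Prop := ∃ n d : ℕ, IsToricPeriodOf n d v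

end TPER
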