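import Pool.Agent.TPER.St

/-!
# Toric periods, module EP: integrable exponential polynomials vanish
-/

set_option autoImplicit false

namespace TPER

open MeasureTheory Filter Topology

private lemma ep_ratio (mu mu0 : ℝ) (k k0 : ℕ) (h : mu < mu0 ∨ (mu = mu0 ∧ k < k0)) :
    Tendsto (fun s : ℝ => s ^ k * Real.exp (mu * s) / (s ^ k0 * Real.exp (mu0 * s)))
      atTop (𝓝 0) := by
  rcases h with h | ⟨rfl, h⟩
  · have hb : 0 < mu0 - mu := sub_pos.mpr h
    have h1 := (isLittleO_pow_exp_pos_mul_atTop k hb).tendsto_div_nhds_zero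
    refine squeeze_zero' ?_ ?_ h1
    · filter_upwards [eventually_ge_atTop (1 : ℝ)] with s hs
      positivity
    · filter_upwards [eventually_ge_atTop (1 : ℝ)] with s hs
      have h2 : 1 ≤ s ^ k0 := one_le_pow₀ hs
      have h3 : Real.exp (mu0 * s) = Real.exp ((mu0 - mu) * s) * Real.exp (mu * s) := by
        rw [← Real.exp_add]; congr 1; ring
      rw [h3, div_le_div_iff₀ (by positivity) (by positivity)]
      have h4 : 0 ≤ s ^ k * Real.exp (mu * s) * Real.exp ((mu0 - mu) * s) := by positivity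
      nlinarith
  · have h1 := tendsto_pow_div_pow_atTop_zero (𝕜 := ℝ) h
    refine h1.congr' ?_
    filter_upwards [eventually_ge_atTop (1 : ℝ)] with s hs
    have h2 : Real.exp (mu * s) ≠ 0 := (Real.exp_pos _).ne'
    field_simp

private lemma ep_ratioC (mu mu0 : ℝ) (k k0 : ℕ) (h : mu < mu0 ∨ (mu = mu0 ∧ k < k0)) :
    Tendsto (fun s : ℝ => (s : ℂ) ^ k * Complex.exp ((mu : ℂ) * (s : ℂ)) /
      ((s : ℂ) ^ k0 * Complex.exp ((mu0 : ℂ) * (s : ℂ)))) atTop (𝓝 0) := by
  have h1 := (Complex.continuous_ofReal.tendsto 0).comp (ep_ratio mu mu0 k k0 h)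
  rw [Complex.ofReal_zero] at h1
  refine h1.congr fun s => ?_
  simp only [Function.comp]
  push_cast
  rfl

theorem thm_EP : St_EP := by
  classical
  intro ι _ A m kap s0 hm hint
  by_contra hcon
  push Not at hcon
  obtain ⟨mu1, k1, h1⟩ := hcon
  -- coefficients
  set c : ℝ × ℕ → ℂ := fun p => ∑ i ∈ Finset.univ.filter (fun i => m i = p.1 ∧ kap i = p.2), A i
    with hc
  set T : Finset (ℝ × ℕ) := Finset.univ.image (fun i => (m i, kap i)) with hT
  set S : Finset (ℝ × ℕ) := T.filter (fun p => c p ≠ 0) with hS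
  have hmem : ∀ p : ℝ × ℕ, c p ≠ 0 → p ∈ T := by
    intro p hp
    by_contra hn
    apply hp
    rw [hc]
    apply Finset.sum_eq_zero
    intro i hi
    exfalso
    apply hn
    rw [Finset.mem_filter] at hi
    rw [hT, Finset.mem_image]
    exact ⟨i, Finset.mem_univ i, Prod.ext hi.2.1 hi.2.2⟩
  have hSne : S.Nonempty := ⟨(mu1, k1), Finset.mem_filter.2 ⟨hmem _ h1, h1⟩⟩
  obtain ⟨pa, hpa, hpamax⟩ := S.exists_max_image Prod.fst hSne
  have hS2 : (S.filter (fun p => p.1 = pa.1)).Nonempty := ⟨pa, Finset.mem_filter.2 ⟨hpa, rfl⟩⟩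
  obtain ⟨p0, hp0, hp0max⟩ := (S.filter (fun p => p.1 = pa.1)).exists_max_image Prod.snd hS2
  rw [Finset.mem_filter] at hp0
  obtain ⟨hp0S, hp01⟩ := hp0
  have hp0c : c p0 ≠ 0 := (Finset.mem_filter.1 hp0S).2
  have hp0T : p0 ∈ T := (Finset.mem_filter.1 hp0S).1
  have hlex : ∀ p : ℝ × ℕ, c p ≠ 0 → p ≠ p0 → p.1 < p0.1 ∨ (p.1 = p0.1 ∧ p.2 < p0.2) := by
    intro p hp hne
    have hpS : p ∈ S := Finset.mem_filter.2 ⟨hmem p hp, hp⟩
    have h2 : p.1 ≤ p0.1 := by rw [hp01]; exact hpamax p hpS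
    rcases h2.lt_or_eq with h3 | h3
    · exact Or.inl h3
    · right
      refine ⟨h3, ?_⟩
      have h4 : p.2 ≤ p0.2 := hp0max p (Finset.mem_filter.2 ⟨hpS, h3.trans hp01⟩)
      exact lt_of_le_of_ne h4 fun h5 => hne (Prod.ext h3 h5)
  have hmu0 : 0 ≤ p0.1 := by
    rw [hT, Finset.mem_image] at hp0T
    obtain ⟨i, -, hi⟩ := hp0T
    rw [← hi]; exact hm i
  -- regrouping
  have hPA : ∀ s : ℝ, PA A m kap s =
      ∑ p ∈ T, c p * ((s : ℂ) ^ p.2 * Complex.exp ((p.1 : ℂ) * (s : ℂ))) := by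
    intro s
    unfold PA
    rw [← Finset.sum_fiberwise_of_maps_to (s := Finset.univ) (t := T)
      (g := fun i => (m i, kap i)) (fun i _ => Finset.mem_image_of_mem _ (Finset.mem_univ i))]
    refine Finset.sum_congr rfl fun p _ => ?_
    rw [hc]
    simp only
    rw [Finset.sum_mul]
    have h5 : (Finset.univ.filter fun i => (m i, kap i) = p) =
        Finset.univ.filter (fun i => m i = p.1 ∧ kap i = p.2) := by
      ext i
      simp only [Finset.mem_filter, Finset.mem_univ, true_and]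
      exact Prod.ext_iff
    rw [h5]
    refine Finset.sum_congr rfl fun i hi => ?_
    rw [Finset.mem_filter] at hi
    rw [hi.2.1, hi.2.2]
    ring
  have hlim : Tendsto (fun s : ℝ => PA A m kap s /
      ((s : ℂ) ^ p0.2 * Complex.exp ((p0.1 : ℂ) * (s : ℂ)))) atTop (𝓝 (c p0)) := by
    have h6 : Tendsto (fun s : ℝ => ∑ p ∈ T, c p * ((s : ℂ) ^ p.2 *
        Complex.exp ((p.1 : ℂ) * (s : ℂ)) /
        ((s : ℂ) ^ p0.2 * Complex.exp ((p0.1 : ℂ) * (s : ℂ))))) atTop
        (𝓝 (∑ p ∈ T, c p * (if p = p0 then 1 else 0))) := by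
      refine tendsto_finsetSum _ fun p _ => ?_
      by_cases hcp : c p = 0
      · simp only [hcp, zero_mul]
        exact tendsto_const_nhds
      · refine Tendsto.const_mul _ ?_
        by_cases hpp : p = p0
        · rw [if_pos hpp, hpp]
          refine tendsto_const_nhds.congr' ?_
          filter_upwards [eventually_ge_atTop (1 : ℝ)] with s hs
          have h7 : (s : ℂ) ≠ 0 := by
            rw [Complex.ofReal_ne_zero]; linarith
          rw [div_self]
          exact mul_ne_zero (pow_ne_zero _ h7) (Complex.exp_ne_zero _)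
        · rw [if_neg hpp]
          exact ep_ratioC _ _ _ _ (hlex p hcp hpp)
    have h8 : (∑ p ∈ T, c p * (if p = p0 then (1 : ℂ) else 0)) = c p0 := by
      rw [Finset.sum_eq_single p0]
      · rw [if_pos rfl, mul_one]
      · intro p _ hp
        rw [if_neg hp, mul_zero]
      · intro h; exact absurd hp0T h
    rw [h8] at h6
    refine h6.congr fun s => ?_
    rw [hPA, Finset.sum_div]
    refine Finset.sum_congr rfl fun p _ => ?_
    ring
  -- lower bound
  have ha : 0 < ‖c p0‖ / 2 := half_pos (norm_pos_iff.2 hp0c)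
  have h9 : ∀ᶠ s : ℝ in atTop, ‖c p0‖ / 2 ≤ ‖PA A m kap s‖ := by
    have h10 := hlim.norm.eventually (lt_mem_nhds (half_lt_self (norm_pos_iff.2 hp0c)))
    filter_upwards [h10, eventually_ge_atTop (1 : ℝ)] with s hs hs1
    have h11 : 1 ≤ ‖(s : ℂ) ^ p0.2 * Complex.exp ((p0.1 : ℂ) * (s : ℂ))‖ := by
      rw [norm_mul, norm_pow, Complex.norm_real, Real.norm_of_nonneg (by linarith),
        Complex.norm_exp]
      have h12 : ((p0.1 : ℂ) * (s : ℂ)).re = p0.1 * s := by
        rw [← Complex.ofReal_mul, Complex.ofReal_re]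
      rw [h12]
      have h13 : 1 ≤ s ^ p0.2 := one_le_pow₀ hs1
      have h14 : 1 ≤ Real.exp (p0.1 * s) := by
        rw [Real.one_le_exp_iff]; positivity
      nlinarith
    rw [norm_div, lt_div_iff₀ (by linarith)] at hs
    nlinarith [norm_nonneg (PA A m kap s)]
  obtain ⟨s1, hs1⟩ := eventually_atTop.1 h9
  have h15 : IntegrableOn (fun _ : ℝ => ‖c p0‖ / 2) (Set.Ioi (max s0 s1)) := by
    have h16 := (hint.mono_set (Set.Ioi_subset_Ioi (le_max_left s0 s1))).norm
    refine Integrable.mono' h16 aestronglyMeasurable_const ?_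
    rw [ae_restrict_iff' measurableSet_Ioi]
    refine Eventually.of_forall fun s hs => ?_
    rw [Real.norm_of_nonneg ha.le]
    exact hs1 s ((le_max_right s0 s1).trans (le_of_lt hs))
  rw [integrableOn_const_iff] at h15
  rcases h15 with h15 | h15
  · rw [enorm_eq_zero] at h15
    exact ha.ne' h15
  · simp at h15

end TPER
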